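import Pool.Agent.H31.PC.Base

/-!
# Rational points on plane curves (MP_6e60ff_nt): substitutions and restrictions to lines
-/

namespace Pool.Agent.H31.PC

open Finset MvPolynomial Pool.Agent.H31.RZ

theorem eval_tr (A : Matrix (Fin 3) (Fin 3) ℤ) (y : Fin 3 → ℤ) (f : MvPolynomial (Fin 3) ℤ) :
    eval y (tr A f) = eval (A.mulVec y) f := by
  rw [tr, aeval_def, eval₂_eq_eval_map]
  have h : (eval y).comp (eval₂Hom (algebraMap ℤ (MvPolynomial (Fin 3) ℤ))
      fun i => ∑ j, C (A i j) * X j) = eval (A.mulVec y) := by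
    apply MvPolynomial.ringHom_ext
    · intro r
      simp
    · intro i
      simp [Matrix.mulVec, dotProduct]
  rw [← eval₂_eq_eval_map]
  exact congrArg (fun g => g f) h

theorem tr_X (A : Matrix (Fin 3) (Fin 3) ℤ) (i : Fin 3) : tr A (X i) = ∑ j, C (A i j) * X j := by
  rw [tr, aeval_X]

theorem tr_tr (A B : Matrix (Fin 3) (Fin 3) ℤ) (f : MvPolynomial (Fin 3) ℤ) :
    tr B (tr A f) = tr (A * B) f := by
  have h : (tr B).comp (tr A) = tr (A * B) := by
    apply MvPolynomial.algHom_ext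
    intro i
    rw [AlgHom.comp_apply, tr_X, tr_X, map_sum]
    simp only [map_mul, tr_X, algHom_C, algebraMap_eq, Matrix.mul_apply, map_sum,
      Finset.mul_sum, Finset.sum_mul]
    rw [Finset.sum_comm]
    refine Finset.sum_congr rfl fun j _ => Finset.sum_congr rfl fun k _ => ?_
    ring
  exact congrArg (fun g => g f) h

theorem tr_one (f : MvPolynomial (Fin 3) ℤ) : tr 1 f = f := by
  have h : tr 1 = AlgHom.id ℤ _ := by
    apply MvPolynomial.algHom_ext
    intro i
    rw [tr_X, AlgHom.id_apply, Finset.sum_eq_single i]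
    · rw [Matrix.one_apply_eq, C_1, one_mul]
    · intro j _ hj
      rw [Matrix.one_apply_ne hj.symm, C_0, zero_mul]
    · intro h
      exact absurd (Finset.mem_univ _) h
  rw [h, AlgHom.id_apply]

theorem tr_hom {A : Matrix (Fin 3) (Fin 3) ℤ} {f : MvPolynomial (Fin 3) ℤ} {d : ℕ}
    (h : f.IsHomogeneous d) : (tr A f).IsHomogeneous d := by
  have h1 : ∀ i, (∑ j, C (A i j) * X j : MvPolynomial (Fin 3) ℤ).IsHomogeneous 1 := fun i =>
    IsHomogeneous.sum _ _ _ fun j _ => isHomogeneous_C_mul_X _ _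
  have h2 := h.aeval _ h1
  rw [one_mul] at h2
  exact h2

theorem MM_MI {a b s s' : ℤ} (h : (s' - s) ^ 2 = 1) : MM a b s s' * MI a b s s' = 1 := by
  rw [MM, MI]
  ext i j
  fin_cases i <;> fin_cases j <;>
    simp [Matrix.mul_apply, Fin.sum_univ_three] <;>
    first
    | linear_combination h
    | linear_combination (-a) * h
    | linear_combination (-b) * h
    | ring

theorem MI_MM {a b s s' : ℤ} (h : (s' - s) ^ 2 = 1) : MI a b s s' * MM a b s s' = 1 :=
  mul_eq_one_comm.1 (MM_MI h)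

/-- the monomials in three variables -/
noncomputable def mo (i j k : ℕ) : Fin 3 →₀ ℕ := Finsupp.equivFunOnFinite.symm ![i, j, k]

@[simp] theorem mo_zero (i j k : ℕ) : mo i j k 0 = i := rfl
@[simp] theorem mo_one (i j k : ℕ) : mo i j k 1 = j := rfl
@[simp] theorem mo_two (i j k : ℕ) : mo i j k 2 = k := rfl

theorem mo_deg (i j k : ℕ) : (mo i j k).degree = i + j + k := by
  rw [Finsupp.degree_eq_sum, Fin.sum_univ_three, mo_zero, mo_one, mo_two]

theorem eq_mo {μ : Fin 3 →₀ ℕ} {i j k : ℕ} (h0 : μ 0 = i) (h1 : μ 1 = j) (h2 : μ 2 = k) :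
    μ = mo i j k := by
  ext t
  fin_cases t
  · exact h0
  · exact h1
  · exact h2

theorem coeff_mul_pow (c : ℤ) (k j : ℕ) :
    (Polynomial.C c * Polynomial.X ^ k : Polynomial ℤ).coeff j = if k = j then c else 0 := by
  rw [Polynomial.coeff_C_mul, Polynomial.coeff_X_pow]
  split_ifs with h1 h2 h2
  · rw [mul_one]
  · exact absurd h1.symm h2
  · exact absurd h2.symm h1
  · rw [mul_zero]

theorem r0_eq (f : MvPolynomial (Fin 3) ℤ) : r0 f = ∑ μ ∈ f.support,
    Polynomial.C (if μ 0 = 0 then f.coeff μ else 0) * Polynomial.X ^ μ 2 := by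
  rw [r0, aeval_def, eval₂_eq']
  refine Finset.sum_congr rfl fun μ _ => ?_
  rw [Fin.prod_univ_three]
  simp only [Matrix.cons_val_zero, Matrix.cons_val_one, Matrix.cons_val, one_pow, mul_one]
  split_ifs with h
  · rw [h, pow_zero, one_mul]
    rfl
  · rw [zero_pow h, zero_mul, mul_zero, Polynomial.C_0, zero_mul]

theorem r1_eq (f : MvPolynomial (Fin 3) ℤ) : r1 f = ∑ μ ∈ f.support,
    Polynomial.C (if μ 1 = 0 then f.coeff μ else 0) * Polynomial.X ^ μ 2 := by
  rw [r1, aeval_def, eval₂_eq']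
  refine Finset.sum_congr rfl fun μ _ => ?_
  rw [Fin.prod_univ_three]
  simp only [Matrix.cons_val_zero, Matrix.cons_val_one, Matrix.cons_val, one_pow, one_mul]
  split_ifs with h
  · rw [h, pow_zero, one_mul]
    rfl
  · rw [zero_pow h, zero_mul, mul_zero, Polynomial.C_0, zero_mul]

theorem coeff_r0 {f : MvPolynomial (Fin 3) ℤ} {d : ℕ} (hf : f.IsHomogeneous d) {j : ℕ}
    (hj : j ≤ d) : (r0 f).coeff j = f.coeff (mo 0 (d - j) j) := by
  rw [r0_eq, Polynomial.finsetSum_coeff]
  simp only [coeff_mul_pow]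
  rw [Finset.sum_eq_single (mo 0 (d - j) j)]
  · rw [mo_two, if_pos rfl, mo_zero, if_pos rfl]
  · intro μ hμ hne
    split_ifs with h1 h2
    · exfalso
      apply hne
      have h3 : μ.degree = d := by
        by_contra h
        exact mem_support_iff.1 hμ (hf.coeff_eq_zero h)
      rw [Finsupp.degree_eq_sum, Fin.sum_univ_three] at h3
      exact eq_mo h2 (by omega) h1
    · rfl
    · rfl
  · intro h
    rw [notMem_support_iff.1 h]
    simp

theorem coeff_r0_gt {f : MvPolynomial (Fin 3) ℤ} {d : ℕ} (hf : f.IsHomogeneous d) {j : ℕ}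
    (hj : d < j) : (r0 f).coeff j = 0 := by
  rw [r0_eq, Polynomial.finsetSum_coeff]
  refine Finset.sum_eq_zero fun μ hμ => ?_
  rw [coeff_mul_pow, if_neg]
  intro h1
  have h3 : μ.degree = d := by
    by_contra h
    exact mem_support_iff.1 hμ (hf.coeff_eq_zero h)
  rw [Finsupp.degree_eq_sum, Fin.sum_univ_three] at h3
  omega

theorem coeff_r1 {f : MvPolynomial (Fin 3) ℤ} {d : ℕ} (hf : f.IsHomogeneous d) {j : ℕ}
    (hj : j ≤ d) : (r1 f).coeff j = f.coeff (mo (d - j) 0 j) := by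
  rw [r1_eq, Polynomial.finsetSum_coeff]
  simp only [coeff_mul_pow]
  rw [Finset.sum_eq_single (mo (d - j) 0 j)]
  · rw [mo_two, if_pos rfl, mo_one, if_pos rfl]
  · intro μ hμ hne
    split_ifs with h1 h2
    · exfalso
      apply hne
      have h3 : μ.degree = d := by
        by_contra h
        exact mem_support_iff.1 hμ (hf.coeff_eq_zero h)
      rw [Finsupp.degree_eq_sum, Fin.sum_univ_three] at h3
      exact eq_mo (by omega) h2 h1
    · rfl
    · rfl
  · intro h
    rw [notMem_support_iff.1 h]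
    simp

theorem coeff_r1_gt {f : MvPolynomial (Fin 3) ℤ} {d : ℕ} (hf : f.IsHomogeneous d) {j : ℕ}
    (hj : d < j) : (r1 f).coeff j = 0 := by
  rw [r1_eq, Polynomial.finsetSum_coeff]
  refine Finset.sum_eq_zero fun μ hμ => ?_
  rw [coeff_mul_pow, if_neg]
  intro h1
  have h3 : μ.degree = d := by
    by_contra h
    exact mem_support_iff.1 hμ (hf.coeff_eq_zero h)
  rw [Finsupp.degree_eq_sum, Fin.sum_univ_three] at h3
  omega

theorem r0_mem {f : MvPolynomial (Fin 3) ℤ} {d R : ℕ} (hf : f ∈ FF 2 d R) : r0 f ∈ PB d R := by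
  obtain ⟨h1, h2⟩ := mem_FF.1 hf
  rw [mem_PB]
  constructor
  · rw [Polynomial.natDegree_le_iff_coeff_eq_zero]
    exact fun k hk => coeff_r0_gt h1 hk
  · intro j
    rcases le_or_gt j d with h | h
    · rw [coeff_r0 h1 h]
      exact h2 _
    · rw [coeff_r0_gt h1 h, abs_zero]
      positivity

theorem r1_mem {f : MvPolynomial (Fin 3) ℤ} {d R : ℕ} (hf : f ∈ FF 2 d R) : r1 f ∈ PB d R := by
  obtain ⟨h1, h2⟩ := mem_FF.1 hf
  rw [mem_PB]
  constructor
  · rw [Polynomial.natDegree_le_iff_coeff_eq_zero]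
    exact fun k hk => coeff_r1_gt h1 hk
  · intro j
    rcases le_or_gt j d with h | h
    · rw [coeff_r1 h1 h]
      exact h2 _
    · rw [coeff_r1_gt h1 h, abs_zero]
      positivity

/-- a form with trivial restriction to `Y 0 = 0` has no coefficients there -/
theorem coeff_of_r0 {f : MvPolynomial (Fin 3) ℤ} {d : ℕ} (hf : f.IsHomogeneous d)
    (h : r0 f = 0) (μ : Fin 3 →₀ ℕ) (hμ : μ 0 = 0) : f.coeff μ = 0 := by
  by_cases h3 : μ.degree = d
  · have h4 := h3
    rw [Finsupp.degree_eq_sum, Fin.sum_univ_three] at h4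
    have h5 : μ = mo 0 (d - μ 2) (μ 2) := eq_mo hμ (by omega) rfl
    rw [h5, ← coeff_r0 hf (by omega), h, Polynomial.coeff_zero]
  · exact hf.coeff_eq_zero h3

theorem coeff_of_r1 {f : MvPolynomial (Fin 3) ℤ} {d : ℕ} (hf : f.IsHomogeneous d)
    (h : r1 f = 0) (μ : Fin 3 →₀ ℕ) (hμ : μ 1 = 0) : f.coeff μ = 0 := by
  by_cases h3 : μ.degree = d
  · have h4 := h3
    rw [Finsupp.degree_eq_sum, Fin.sum_univ_three] at h4
    have h5 : μ = mo (d - μ 2) 0 (μ 2) := eq_mo (by omega) hμ rfl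
    rw [h5, ← coeff_r1 hf (by omega), h, Polynomial.coeff_zero]
  · exact hf.coeff_eq_zero h3

theorem r0_tr (a b s s' : ℤ) (f : MvPolynomial (Fin 3) ℤ) :
    r0 (tr (MM a b s s') f) = ln a b s f := by
  have h : r0.comp (tr (MM a b s s')) = ln a b s := by
    apply MvPolynomial.algHom_ext
    intro i
    rw [AlgHom.comp_apply, tr_X, map_sum, Fin.sum_univ_three]
    simp only [map_mul, algHom_C, r0, ln, aeval_X, MM]
    fin_cases i <;> simp
  exact congrArg (fun g => g f) h

theorem r1_tr (a b s s' : ℤ) (f : MvPolynomial (Fin 3) ℤ) :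
    r1 (tr (MM a b s s') f) = ln a b s' f := by
  have h : r1.comp (tr (MM a b s s')) = ln a b s' := by
    apply MvPolynomial.algHom_ext
    intro i
    rw [AlgHom.comp_apply, tr_X, map_sum, Fin.sum_univ_three]
    simp only [map_mul, algHom_C, r1, ln, aeval_X, MM]
    fin_cases i <;> simp
  exact congrArg (fun g => g f) h

theorem hv_term (d : ℕ) (c : ℤ) (k : ℕ) (u v : ℤ) (hk : k ≤ d) :
    hv d (Polynomial.C c * Polynomial.X ^ k) u v = c * u ^ (d - k) * v ^ k := by
  unfold hv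
  rw [Finset.sum_eq_single k]
  · rw [coeff_mul_pow, if_pos rfl]
  · intro j _ hj
    rw [coeff_mul_pow, if_neg hj.symm, zero_mul, zero_mul]
  · intro h
    exact absurd (Finset.mem_range.2 (by omega)) h

theorem hv_sum {ι : Type*} (s : Finset ι) (d : ℕ) (φ : ι → Polynomial ℤ) (u v : ℤ) :
    hv d (∑ i ∈ s, φ i) u v = ∑ i ∈ s, hv d (φ i) u v := by
  unfold hv
  rw [Finset.sum_comm]
  refine Finset.sum_congr rfl fun j _ => ?_
  rw [Polynomial.finsetSum_coeff, Finset.sum_mul, Finset.sum_mul]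

theorem hv_sub (d : ℕ) (φ ψ : Polynomial ℤ) (u v : ℤ) :
    hv d (φ - ψ) u v = hv d φ u v - hv d ψ u v := by
  unfold hv
  rw [← Finset.sum_sub_distrib]
  refine Finset.sum_congr rfl fun j _ => ?_
  rw [Polynomial.coeff_sub]
  ring

/-- the value of a form modulo `y 0` -/
theorem dvd_sub0 {f : MvPolynomial (Fin 3) ℤ} {d : ℕ} (hf : f.IsHomogeneous d) (y : Fin 3 → ℤ) :
    y 0 ∣ eval y f - hv d (r0 f) (y 1) (y 2) := by
  rw [r0_eq, hv_sum, eval_eq', ← Finset.sum_sub_distrib]
  refine Finset.dvd_sum fun μ hμ => ?_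
  have h3 : μ.degree = d := by
    by_contra h
    exact mem_support_iff.1 hμ (hf.coeff_eq_zero h)
  rw [Finsupp.degree_eq_sum, Fin.sum_univ_three] at h3
  rw [hv_term _ _ _ _ _ (by omega), Fin.prod_univ_three]
  split_ifs with h
  · have h4 : d - μ 2 = μ 1 := by omega
    rw [h, h4, pow_zero, one_mul, mul_assoc, sub_self]
    exact dvd_zero _
  · rw [zero_mul, zero_mul, sub_zero]
    exact ((dvd_pow_self _ h).mul_right _).mul_right _ |>.mul_left _

theorem dvd_sub1 {f : MvPolynomial (Fin 3) ℤ} {d : ℕ} (hf : f.IsHomogeneous d) (y : Fin 3 → ℤ) :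
    y 1 ∣ eval y f - hv d (r1 f) (y 0) (y 2) := by
  rw [r1_eq, hv_sum, eval_eq', ← Finset.sum_sub_distrib]
  refine Finset.dvd_sum fun μ hμ => ?_
  have h3 : μ.degree = d := by
    by_contra h
    exact mem_support_iff.1 hμ (hf.coeff_eq_zero h)
  rw [Finsupp.degree_eq_sum, Fin.sum_univ_three] at h3
  rw [hv_term _ _ _ _ _ (by omega), Fin.prod_univ_three]
  split_ifs with h
  · have h4 : d - μ 2 = μ 0 := by omega
    rw [h, h4, pow_zero, mul_one, mul_assoc, sub_self]
    exact dvd_zero _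
  · rw [zero_mul, zero_mul, sub_zero]
    exact ((dvd_pow_self _ h).mul_left _).mul_right _ |>.mul_left _

end Pool.Agent.H31.PC
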