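import Pool.Agent.H31.PC.Lin
import Pool.Agent.H54.PC.CT
import Pool.Agent.H3.PC.DB
import Pool.Agent.H89.PC.DIV
import Pool.Agent.H90.PC.FIB
import Pool.Agent.H35.PC.FIT
import Pool.Agent.H3.PC.GS
import Pool.Agent.H50.PC.NN
import Pool.Agent.H48.PC.NZ
import Pool.Agent.H1.PC.OM
import Pool.Agent.H21.PC.ONE
import Pool.Agent.H20.PC.PAK
import Pool.Agent.H21.PC.RAD
import Pool.Agent.H56.PC.RES
import Pool.Agent.H51.PC.ROOT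
import Pool.Agent.H23.PC.RSZ
import Pool.Agent.H99.PC.SH
import Pool.Agent.H20.PC.TR
import Pool.Agent.H47.PC.TWO
import Pool.Agent.H90.PC.IRR
import Pool.Agent.H90.PC.SUM

/-!
# Rational points on plane curves (MP_6e60ff_nt): the assembly
-/

namespace Pool.Agent.H31.PC

open Finset MvPolynomial Pool.Agent.H31.RZ

theorem all_bound {d : ℕ} (hd : 3 ≤ d) {A θ : ℝ}
    (hA : 4 * A < d * (d + 1) ∨ 3 * A < d * (d - 1)) (hθ : θ < 1) :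
    ∃ C δ : ℝ, 0 < C ∧ 0 < δ ∧ ∀ H : ℕ, 1 ≤ H →
      ((Bp d A θ H).ncard : ℝ) ≤ C * (H : ℝ) ^ (-δ) * ((2 * H + 1 : ℕ) : ℝ) ^ NN 2 d := by
  have hNN := Pool.Agent.H50.PC.NN.pf_NN
  have hTR := Pool.Agent.H20.PC.TR.pf_TR
  have hDIV := Pool.Agent.H89.PC.DIV.pf_DIV
  have hRES := Pool.Agent.H56.PC.pf_RES
  have hRSZ := Pool.Agent.H23.PC.RSZ.pf_RSZ
  have hDB := Pool.Agent.H3.PC.DB.pf_DB
  exact fin_bound hNN hTR hRES Pool.Agent.H48.PC.NZ.pf_NZ Pool.Agent.H20.PC.PAK.pf_PAK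
    (Pool.Agent.H90.PCFIB.pf_FIB hTR hDIV) (Pool.Agent.H35.PC.pf_FIT hTR hDIV)
    (Pool.Agent.H21.PC.ONE.pf_ONE hDB) (Pool.Agent.H47.PC.pf_TWO hRES hRSZ hDB)
    (Pool.Agent.H90.PCSUM.pf_SUM hRES hRSZ hDB Pool.Agent.H1.PC.OM.pf_OM
      Pool.Agent.H21.PC.RAD.pf_RAD Pool.Agent.H51.PCROOT.pf_ROOT Pool.Agent.H54.PC.pf_CT
      Pool.Agent.H3.PC.GS.pf_GS)
    Pool.Agent.H99.PC.pf_SH (Pool.Agent.H90.PCIRR.pf_IRR hNN) hd hA hθ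

end Pool.Agent.H31.PC
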