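import Pool.Agent.H31.PC.Zerc
import Pool.Agent.H31.RZ.Main
import Mathlib.NumberTheory.Bertrand

/-!
# Rational points on plane curves (MP_6e60ff_nt): the estimate
-/

namespace Pool.Agent.H31.PC

open Finset MvPolynomial Pool.Agent.H31.RZ

attribute [local irreducible] FF

/-- the forms with a zero of height at most `X`, or on a curve of degree `e < d` and height at
most `W e` -/
def Bx (d H X : ℕ) (W : ℕ → ℕ) : Set (MvPolynomial (Fin 3) ℤ) :=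
  {f | f ∈ FF 2 d H ∧ f ≠ 0 ∧ ∃ x : Fin 3 → ℤ, x ≠ 0 ∧ eval x f = 0 ∧ (nm x ≤ X ∨
    ∃ e, (1 ≤ e ∧ e < d) ∧ ∃ w : MvPolynomial (Fin 3) ℤ, w ≠ 0 ∧ w.IsHomogeneous e ∧
      (∀ μ, |w.coeff μ| ≤ (W e : ℤ)) ∧ eval x w = 0)}

theorem Bx_sub (d H X V p K : ℕ) (W : ℕ → ℕ) :
    Bx d H X W ⊆ (({f | f ∈ FF 2 d H ∧ ¬ ND p K f} ∪ B0 d H V p K) ∪ B1 d H X V p K) ∪
      ⋃ e ∈ Finset.Ico 1 d, B2 d e H (W e) V p K := by
  rintro f ⟨hf, hf0, x, hx, hfx, h⟩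
  by_cases hN : ND p K f
  · obtain ⟨z, c, hz, hc, hxz, hzx, hfz⟩ := prim_zero (mem_FF.1 hf).1 hx hfx
    by_cases hV : Hi (d - 2) V z
    · rcases h with h | ⟨e, ⟨he1, he2⟩, w, hw0, hwh, hwV, hwx⟩
      · exact Or.inl (Or.inr ⟨hf, hf0, hN, z, hz, hzx.trans h, hV, hfz⟩)
      · right
        refine Set.mem_biUnion (x := e) (Finset.mem_coe.2 (Finset.mem_Ico.2 ⟨he1, he2⟩)) ?_
        rw [hxz, eval_smul' hwh] at hwx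
        exact ⟨hf, hf0, hN, z, hz, hV, hfz, w, hw0, hwh, hwV,
          (mul_eq_zero.1 hwx).resolve_left (pow_ne_zero _ hc)⟩
    · exact Or.inl (Or.inl (Or.inr ⟨hf, hf0, hN, z, hz, hV, hfz⟩))
  · exact Or.inl (Or.inl (Or.inl ⟨hf, hN⟩))

theorem asm (hTR : T_TR) (hRES : T_RES) (hNZ : T_NZ) (hPAK : T_PAK) (hFIB : T_FIB)
    (hFIT : T_FIT) (hONE : T_ONE) (hTWO : T_TWO) (hSUM : T_SUM) (hSH : T_SH) (hIRR : T_IRR)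
    {d : ℕ} (hd : 3 ≤ d) {ε : ℝ} (hε : 0 < ε) :
    ∃ C : ℝ, 1 ≤ C ∧ ∀ (H X V : ℕ) (W : ℕ → ℕ), 1 ≤ X → 1 ≤ V → V ≤ H → (∀ e, 1 ≤ W e) →
      ((Bx d H X W).ncard : ℝ) ≤ C * ((H : ℝ) ^ (NN 2 d - 1) +
        (H : ℝ) ^ ε * ((H : ℝ) ^ (2 * d + 1 + (NN 2 (d - 2) - 1)) * V) +
        ((H : ℝ) * X) ^ ε * ((H : ℝ) ^ (d + 1) * (X : ℝ) ^ 2 +
        ((H : ℝ) / V) ^ (NN 2 (d - 2) - 1) * ((H : ℝ) ^ (2 * d + 1) * X)) +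
        ∑ e ∈ Finset.Ico 1 d, ((H : ℝ) * W e) ^ ε * ((W e : ℝ) ^ NN 2 e *
        (((H : ℝ) / V) ^ (NN 2 (d - 2) - 1) * (H : ℝ) ^ (2 * d + 1)))) := by
  obtain ⟨K₁, h1⟩ := tot1 hTR hRES hNZ hPAK hFIB hONE hSUM hd
  obtain ⟨K₀, h0⟩ := tot0 hTR hRES hNZ hPAK hFIT hTWO hSH hd
  have h2 : ∀ e : ℕ, ∃ K₁ : ℕ, ∀ K : ℕ, K₁ ≤ K → ∀ ε : ℝ, 0 < ε → ∃ C : ℝ, 1 ≤ C ∧
      ∀ H W V p : ℕ, 1 ≤ W → 1 ≤ V → V ≤ H → p.Prime → K ≤ p → H < p → 1 ≤ e → e < d →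
      ((B2 d e H W V p K).ncard : ℝ) ≤ C * (((H : ℝ) * W) ^ ε * ((W : ℝ) ^ NN 2 e *
        (((H : ℝ) / V) ^ (NN 2 (d - 2) - 1) * (H : ℝ) ^ (2 * d + 1)))) := by
    intro e
    by_cases he : 1 ≤ e ∧ e < d
    · obtain ⟨K₂, h2⟩ := tot2 hTR hRES hNZ hPAK hFIT hTWO hd he.1 he.2
      refine ⟨K₂, fun K hK ε hε => ?_⟩
      obtain ⟨C, hC, h3⟩ := h2 K hK ε hε
      exact ⟨C, hC, fun H W V p q1 q2 q3 q4 q5 q6 _ _ => h3 H W V p q1 q2 q3 q4 q5 q6⟩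
    · exact ⟨0, fun K _ ε _ => ⟨1, le_rfl, fun H W V p _ _ _ _ _ _ q7 q8 =>
        absurd ⟨q7, q8⟩ he⟩⟩
  choose K₂ hK₂ using h2
  obtain ⟨K, hK1, hK0, hK2⟩ : ∃ K, K₁ ≤ K ∧ K₀ ≤ K ∧ ∀ e ∈ Finset.Ico 1 d, K₂ e ≤ K := by
    refine ⟨max (max K₁ K₀) ((Finset.Ico 1 d).sup K₂), ?_, ?_, fun e he => ?_⟩
    · exact (le_max_left _ _).trans (le_max_left _ _)
    · exact (le_max_right _ _).trans (le_max_left _ _)
    · exact (Finset.le_sup he).trans (le_max_right _ _)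
  obtain ⟨c, C₁, hc1, hC₁1, hC₁⟩ := h1 K hK1 ε hε
  obtain ⟨C₀, hC₀1, hC₀⟩ := h0 K hK0 ε hε
  obtain ⟨C₂, hC₂⟩ := hIRR d K (2 * (c + 2 + K)) hd
  have h3 : ∀ e : ℕ, ∃ C : ℝ, 1 ≤ C ∧ (e ∈ Finset.Ico 1 d →
      ∀ H W V p : ℕ, 1 ≤ W → 1 ≤ V → V ≤ H → p.Prime → K ≤ p → H < p →
      ((B2 d e H W V p K).ncard : ℝ) ≤ C * (((H : ℝ) * W) ^ ε * ((W : ℝ) ^ NN 2 e *
        (((H : ℝ) / V) ^ (NN 2 (d - 2) - 1) * (H : ℝ) ^ (2 * d + 1))))) := by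
    intro e
    by_cases he : e ∈ Finset.Ico 1 d
    · obtain ⟨C, hC, h4⟩ := hK₂ e K (hK2 e he) ε hε
      exact ⟨C, hC, fun _ H W V p q1 q2 q3 q4 q5 q6 => h4 H W V p q1 q2 q3 q4 q5 q6
        (Finset.mem_Ico.1 he).1 (Finset.mem_Ico.1 he).2⟩
    · exact ⟨1, le_rfl, fun h => absurd h he⟩
  choose C₃ hC₃1 hC₃ using h3
  obtain ⟨D, hD0, hD⟩ : ∃ D : ℝ, 0 ≤ D ∧ ∀ e ∈ Finset.Ico 1 d, C₃ e ≤ D := by
    refine ⟨∑ e ∈ Finset.Ico 1 d, C₃ e, Finset.sum_nonneg fun e _ => by linarith [hC₃1 e],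
      fun e he => ?_⟩
    exact Finset.single_le_sum (f := C₃) (fun e _ => by linarith [hC₃1 e]) he
  have hC20 : (0 : ℝ) ≤ C₂ := Nat.cast_nonneg _
  refine ⟨C₂ + C₀ + C₁ + D, by linarith, fun H X V W hX hV hVH hW => ?_⟩
  have hH : 1 ≤ H := hV.trans hVH
  obtain ⟨p, hp, hp1, hp2⟩ := Nat.exists_prime_lt_and_le_two_mul ((c + 2 + K) * H)
    (Nat.mul_pos (by omega) (by omega)).ne'
  have e1 : c * H ≤ (c + 2 + K) * H := Nat.mul_le_mul_right _ (by omega)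
  have e2 : 2 * H ≤ (c + 2 + K) * H := Nat.mul_le_mul_right _ (by omega)
  have e3 : K ≤ (c + 2 + K) * H := by nlinarith
  have hcp : c * H < p := by omega
  have h2p : 2 * H < p := by omega
  have hKp : K ≤ p := by omega
  have hHp : H < p := by omega
  have hp3 : p ≤ 2 * (c + 2 + K) * H := by rw [mul_assoc]; exact hp2
  have b1 := hC₁ H X V p hX hV hVH hp hKp hcp
  have b0 := hC₀ H V p hV hVH hp hKp hHp
  have b2 : (({f : MvPolynomial (Fin 3) ℤ | f ∈ FF 2 d H ∧ ¬ ND p K f} : Set _).ncard : ℝ) ≤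
      C₂ * (H : ℝ) ^ (NN 2 d - 1) := by
    exact_mod_cast hC₂ H p hH hp h2p hp3
  have hHr : (0 : ℝ) ≤ H := Nat.cast_nonneg _
  have hXr : (0 : ℝ) ≤ X := Nat.cast_nonneg _
  have hVr : (0 : ℝ) ≤ V := Nat.cast_nonneg _
  obtain ⟨T, hT⟩ : ∃ T : ℕ → ℝ, T = fun e => ((H : ℝ) * W e) ^ ε * ((W e : ℝ) ^ NN 2 e *
        (((H : ℝ) / V) ^ (NN 2 (d - 2) - 1) * (H : ℝ) ^ (2 * d + 1))) := ⟨_, rfl⟩
  have hT0 : ∀ e, 0 ≤ T e := by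
    intro e
    rw [hT]
    have hWr : (0 : ℝ) ≤ W e := Nat.cast_nonneg _
    exact mul_nonneg (Real.rpow_nonneg (mul_nonneg hHr hWr) _) (mul_nonneg (pow_nonneg hWr _)
      (mul_nonneg (pow_nonneg (div_nonneg hHr hVr) _) (pow_nonneg hHr _)))
  have b3 : ∑ e ∈ Finset.Ico 1 d, ((B2 d e H (W e) V p K).ncard : ℝ) ≤
      D * ∑ e ∈ Finset.Ico 1 d, T e := by
    rw [Finset.mul_sum]
    refine Finset.sum_le_sum fun e he => ?_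
    refine (hC₃ e he H (W e) V p (hW e) hV hVH hp hKp hHp).trans ?_
    have h5 := hT0 e
    rw [hT] at h5 ⊢
    exact mul_le_mul_of_nonneg_right (hD e he) h5
  have hsub := Bx_sub d H X V p K W
  have hfin : ((({f | f ∈ FF 2 d H ∧ ¬ ND p K f} ∪ B0 d H V p K) ∪ B1 d H X V p K) ∪
      ⋃ e ∈ Finset.Ico 1 d, B2 d e H (W e) V p K).Finite := by
    refine (Finset.finite_toSet (FF 2 d H)).subset ?_
    rintro f (((hf | hf) | hf) | hf)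
    · exact hf.1
    · exact hf.1
    · exact hf.1
    · obtain ⟨e, -, hf⟩ := Set.mem_iUnion₂.1 hf
      exact hf.1
  have h3 := (Set.ncard_le_ncard hsub hfin).trans ((Set.ncard_union_le _ _).trans
    (Nat.add_le_add ((Set.ncard_union_le _ _).trans
      (Nat.add_le_add_right (Set.ncard_union_le _ _) _))
      (Finset.set_ncard_biUnion_le (Finset.Ico 1 d) fun e => B2 d e H (W e) V p K)))
  have h4 : ((Bx d H X W).ncard : ℝ) ≤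
      (({f : MvPolynomial (Fin 3) ℤ | f ∈ FF 2 d H ∧ ¬ ND p K f} : Set _).ncard : ℝ) +
      ((B0 d H V p K).ncard : ℝ) + ((B1 d H X V p K).ncard : ℝ) +
      ∑ e ∈ Finset.Ico 1 d, ((B2 d e H (W e) V p K).ncard : ℝ) := by exact_mod_cast h3
  obtain ⟨a, ha⟩ : ∃ a : ℝ, a = (H : ℝ) ^ (NN 2 d - 1) := ⟨_, rfl⟩
  obtain ⟨b, hb⟩ : ∃ b : ℝ, b = (H : ℝ) ^ ε * ((H : ℝ) ^ (2 * d + 1 + (NN 2 (d - 2) - 1)) * V) :=
    ⟨_, rfl⟩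
  obtain ⟨g, hg⟩ : ∃ g : ℝ, g = ((H : ℝ) * X) ^ ε * ((H : ℝ) ^ (d + 1) * (X : ℝ) ^ 2 +
        ((H : ℝ) / V) ^ (NN 2 (d - 2) - 1) * ((H : ℝ) ^ (2 * d + 1) * X)) := ⟨_, rfl⟩
  obtain ⟨t, ht⟩ : ∃ t : ℝ, t = ∑ e ∈ Finset.Ico 1 d, T e := ⟨_, rfl⟩
  have ht' : ∑ e ∈ Finset.Ico 1 d, ((H : ℝ) * W e) ^ ε * ((W e : ℝ) ^ NN 2 e *
        (((H : ℝ) / V) ^ (NN 2 (d - 2) - 1) * (H : ℝ) ^ (2 * d + 1))) = t := by rw [ht, hT]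
  have ha0 : 0 ≤ a := by rw [ha]; exact pow_nonneg hHr _
  have hb0 : 0 ≤ b := by
    rw [hb]
    exact mul_nonneg (Real.rpow_nonneg hHr _) (mul_nonneg (pow_nonneg hHr _) hVr)
  have hg0 : 0 ≤ g := by
    rw [hg]
    exact mul_nonneg (Real.rpow_nonneg (mul_nonneg hHr hXr) _) (add_nonneg (mul_nonneg
      (pow_nonneg hHr _) (pow_nonneg hXr _)) (mul_nonneg (pow_nonneg (div_nonneg hHr hVr) _)
      (mul_nonneg (pow_nonneg hHr _) hXr)))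
  have ht0 : 0 ≤ t := by rw [ht]; exact Finset.sum_nonneg fun e _ => hT0 e
  rw [← ha] at b2
  rw [← hb] at b0
  rw [← hg] at b1
  rw [← ht] at b3
  rw [← ha, ← hb, ← hg, ht']
  have h5 : (C₂ + C₀ + C₁ + D : ℝ) * (a + b + g + t) = (C₂ * a + C₀ * b + C₁ * g + D * t) +
      (C₂ * b + C₂ * g + C₂ * t + (C₀ * a + C₀ * g + C₀ * t) + (C₁ * a + C₁ * b + C₁ * t) +
        (D * a + D * b + D * g)) := by ring
  have q1 := mul_nonneg hC20 hb0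
  have q2 := mul_nonneg hC20 hg0
  have q7 := mul_nonneg hC20 ht0
  have q3 : 0 ≤ C₀ * a := mul_nonneg (by linarith) ha0
  have q4 : 0 ≤ C₀ * g := mul_nonneg (by linarith) hg0
  have q8 : 0 ≤ C₀ * t := mul_nonneg (by linarith) ht0
  have q5 : 0 ≤ C₁ * a := mul_nonneg (by linarith) ha0
  have q6 : 0 ≤ C₁ * b := mul_nonneg (by linarith) hb0
  have q9 : 0 ≤ C₁ * t := mul_nonneg (by linarith) ht0
  have q10 := mul_nonneg hD0 ha0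
  have q11 := mul_nonneg hD0 hb0
  have q12 := mul_nonneg hD0 hg0
  rw [h5]
  linarith

end Pool.Agent.H31.PC
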