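import Pool.Agent.H31.RZ.Form
import Pool.Agent.H31.RZ.Unit

/-!
# Rational points on plane curves (MP_6e60ff_nt): definitions

`FF 2 d R` (from `Pool.Agent.H31.RZ.Form`) is the finset of ternary forms of degree `d` with
integral coefficients of absolute value at most `R` (`mem_FF`), `NN 2 d` the number of monomials.
-/

namespace Pool.Agent.H31.PC

open Finset MvPolynomial Pool.Agent.H31.RZ

/-- ternary forms of degree `e` and height at most `R` vanishing at `x` -/
noncomputable def Lam (e R : ℕ) (x : Fin 3 → ℤ) : Finset (MvPolynomial (Fin 3) ℤ) :=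
  (FF 2 e R).filter fun g => eval x g = 0

theorem mem_Lam {e R : ℕ} {x : Fin 3 → ℤ} {g : MvPolynomial (Fin 3) ℤ} :
    g ∈ Lam e R x ↔ (g.IsHomogeneous e ∧ ∀ μ, |g.coeff μ| ≤ R) ∧ eval x g = 0 := by
  rw [Lam, Finset.mem_filter, mem_FF]

/-- the linear substitution `X i ↦ ∑ j, A i j * X j` -/
noncomputable def tr (A : Matrix (Fin 3) (Fin 3) ℤ) :
    MvPolynomial (Fin 3) ℤ →ₐ[ℤ] MvPolynomial (Fin 3) ℤ :=
  aeval fun i => ∑ j, C (A i j) * X j

/-- the substitution matrix and its inverse (if `s' - s = 1` or `s' - s = -1`) -/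
def MM (a b s s' : ℤ) : Matrix (Fin 3) (Fin 3) ℤ := !![1, 1, a; s', s, b; 0, 0, 1]

def MI (a b s s' : ℤ) : Matrix (Fin 3) (Fin 3) ℤ :=
  !![-((s' - s) * s), s' - s, (s' - s) * (s * a - b);
     (s' - s) * s', -(s' - s), (s' - s) * (b - s' * a); 0, 0, 1]

/-- restriction to the line `Y 0 = 0`, dehomogenized with `Y 1 = 1` -/
noncomputable def r0 : MvPolynomial (Fin 3) ℤ →ₐ[ℤ] Polynomial ℤ :=
  aeval ![0, 1, Polynomial.X]

/-- restriction to the line `Y 1 = 0`, dehomogenized with `Y 0 = 1` -/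
noncomputable def r1 : MvPolynomial (Fin 3) ℤ →ₐ[ℤ] Polynomial ℤ :=
  aeval ![1, 0, Polynomial.X]

/-- restriction to the line of slope `s` through `(a : b : 1)` -/
noncomputable def ln (a b s : ℤ) : MvPolynomial (Fin 3) ℤ →ₐ[ℤ] Polynomial ℤ :=
  aeval ![1 + Polynomial.C a * Polynomial.X, Polynomial.C s + Polynomial.C b * Polynomial.X,
    Polynomial.X]

/-- the value at `(u, v)` of the binary form of degree `d` with dehomogenization `φ` -/
def hv (d : ℕ) (φ : Polynomial ℤ) (u v : ℤ) : ℤ :=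
  ∑ j ∈ Finset.range (d + 1), φ.coeff j * u ^ (d - j) * v ^ j

/-- the polynomial with given coefficients -/
noncomputable def poly {d : ℕ} (c : Fin (d + 1) → ℤ) : Polynomial ℤ :=
  ∑ j : Fin (d + 1), Polynomial.monomial (j : ℕ) (c j)

theorem coeff_poly {d : ℕ} (c : Fin (d + 1) → ℤ) (k : ℕ) :
    (poly c).coeff k = if h : k < d + 1 then c ⟨k, h⟩ else 0 := by
  rw [poly, Polynomial.finsetSum_coeff]
  simp only [Polynomial.coeff_monomial]
  split_ifs with h
  · rw [Finset.sum_eq_single (⟨k, h⟩ : Fin (d + 1))]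
    · rw [if_pos rfl]
    · intro j _ hj
      rw [if_neg]
      intro h1
      exact hj (Fin.ext h1)
    · intro h1
      exact absurd (Finset.mem_univ _) h1
  · refine Finset.sum_eq_zero fun j _ => ?_
    rw [if_neg]
    intro h1
    exact h (h1 ▸ j.2)

theorem poly_inj (d : ℕ) : Function.Injective (poly (d := d)) := by
  intro c c' h
  funext j
  have h1 := coeff_poly c j.1
  rw [h, coeff_poly, dif_pos j.2, dif_pos j.2] at h1
  exact h1.symm

/-- polynomials of degree at most `d` with coefficients of absolute value at most `R` -/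
noncomputable def PB (d R : ℕ) : Finset (Polynomial ℤ) :=
  (Fintype.piFinset fun _ : Fin (d + 1) => Finset.Icc (-(R : ℤ)) R).map ⟨poly, poly_inj d⟩

theorem mem_PB {d R : ℕ} {φ : Polynomial ℤ} :
    φ ∈ PB d R ↔ φ.natDegree ≤ d ∧ ∀ j, |φ.coeff j| ≤ R := by
  rw [PB, Finset.mem_map]
  constructor
  · rintro ⟨c, hc, rfl⟩
    simp only [Function.Embedding.coeFn_mk]
    rw [Fintype.mem_piFinset] at hc
    constructor
    · rw [Polynomial.natDegree_le_iff_coeff_eq_zero]
      intro k hk
      rw [coeff_poly, dif_neg (by omega)]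
    · intro j
      rw [coeff_poly]
      split_ifs with h
      · rw [abs_le]
        exact Finset.mem_Icc.1 (hc ⟨j, h⟩)
      · rw [abs_zero]
        positivity
  · rintro ⟨h1, h2⟩
    refine ⟨fun j => φ.coeff j, ?_, ?_⟩
    · rw [Fintype.mem_piFinset]
      intro j
      rw [Finset.mem_Icc, ← abs_le]
      exact h2 j
    · ext k
      simp only [Function.Embedding.coeFn_mk]
      rw [coeff_poly]
      split_ifs with h
      · rfl
      · exact (Polynomial.natDegree_le_iff_coeff_eq_zero.1 h1 k (by omega)).symm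

theorem card_PB (d R : ℕ) : #(PB d R) = (2 * R + 1) ^ (d + 1) := by
  rw [PB, Finset.card_map, Fintype.card_piFinset]
  simp only [Int.card_Icc, Finset.prod_const, Finset.card_univ, Fintype.card_fin]
  congr 1
  omega

/-- the radical -/
def rd (q : ℤ) : ℕ := ∏ p ∈ q.natAbs.primeFactors, p

/-- reduction modulo `p` -/
noncomputable def rp (p : ℕ) : MvPolynomial (Fin 3) ℤ →+* MvPolynomial (Fin 3) (ZMod p) :=
  MvPolynomial.map (Int.castRingHom (ZMod p))

/-- the pencil of the lines through `(a : b : 1)`: `X 0 = T` is the coordinate on the lines and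
`X 1` the slope -/
noncomputable def de (p : ℕ) (a b : ZMod p) : MvPolynomial (Fin 3) (ZMod p) →ₐ[ZMod p]
    MvPolynomial (Fin 2) (ZMod p) :=
  aeval ![1 + C a * X 0, X 1 + C b * X 0, X 0]

/-- the good forms -/
def ND (p K : ℕ) (f : MvPolynomial (Fin 3) ℤ) : Prop :=
  ∀ a b : ℕ, a < K → b < K → eval ![(a : ZMod p), (b : ZMod p), 1] (rp p f) ≠ 0 →
    Irreducible (de p a b (rp p f))

end Pool.Agent.H31.PC
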