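import Pool.Agent.H31.PC.Pow

/-!
# Rational points on plane curves (MP_6e60ff_nt): points of small height lie on small lines
-/

namespace Pool.Agent.H31.PC

open Finset MvPolynomial Pool.Agent.H31.RZ

attribute [local irreducible] FF

theorem lin_exists (hNN : T_NN) (hTR : T_TR) {x : Fin 3 → ℤ} (hx : x ≠ 0) :
    ∃ w : MvPolynomial (Fin 3) ℤ, w ≠ 0 ∧ w.IsHomogeneous 1 ∧
      (∀ μ, |w.coeff μ| ≤ ((9 * (Nat.sqrt (9 * nm x) + 1) : ℕ) : ℤ)) ∧ eval x w = 0 := by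
  classical
  obtain ⟨R, hR⟩ : ∃ R, R = Nat.sqrt (9 * nm x) + 1 := ⟨_, rfl⟩
  have hR1 : 1 ≤ R := by omega
  have hR2 : 9 * nm x < R * R := by
    rw [hR]
    exact Nat.lt_succ_sqrt _
  have h1 := pigeon (m := 3) (s := 1) (by norm_num) (fun _ => x) (fun _ => hx) R hR1
  rw [Fin.prod_univ_one, pow_one] at h1
  have h2 : 1 < #{z ∈ bx 3 R | ∀ _ : Fin 1, x ⬝ᵥ z = 0} := by
    by_contra h
    have h3 : #{z ∈ bx 3 R | ∀ _ : Fin 1, x ⬝ᵥ z = 0} ≤ 1 := by omega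
    have h4 := h1.trans (Nat.mul_le_mul_right _ h3)
    have h5 : R ^ 3 = R * R * R := by ring
    have h6 : 1 * (3 * 3 * R * nm x) = 9 * nm x * R := by ring
    rw [h5, h6] at h4
    exact absurd (Nat.le_of_mul_le_mul_right h4 hR1) (by omega)
  obtain ⟨a, ha, b, hb, hab⟩ := Finset.one_lt_card.1 h2
  obtain ⟨z, hz, hz0⟩ : ∃ z ∈ ({z ∈ bx 3 R | ∀ _ : Fin 1, x ⬝ᵥ z = 0} : Finset _), z ≠ 0 := by
    by_cases h : a = 0
    · exact ⟨b, hb, fun h' => hab (h.trans h'.symm)⟩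
    · exact ⟨a, ha, h⟩
  obtain ⟨hzR, hzx⟩ := Finset.mem_filter.1 hz
  have hzR' := nm_le_iff.1 (mem_bx.1 hzR)
  have hzx' : x ⬝ᵥ z = 0 := hzx 0
  have hX : (X 0 : MvPolynomial (Fin 3) ℤ) ∈ FF 2 1 1 := by
    rw [mem_FF]
    refine ⟨isHomogeneous_X _ _, fun μ => ?_⟩
    rw [MvPolynomial.coeff_X]
    split_ifs <;> simp
  have h3 := hTR 1 R 1 (Matrix.of fun _ j => z j) (X 0) (fun i j => hzR' j) hX
  have h4 : NN 2 1 = 3 := by
    have := hNN 1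
    omega
  have hev : ∀ y : Fin 3 → ℤ, eval y (tr (Matrix.of fun _ j => z j) (X 0)) = z ⬝ᵥ y := by
    intro y
    rw [eval_tr, eval_X]
    rfl
  obtain ⟨h5, h6⟩ := mem_FF.1 h3
  refine ⟨tr (Matrix.of fun _ j => z j) (X 0), ?_, h5, fun μ => ?_, ?_⟩
  · intro h
    apply hz0
    funext i
    have h7 := hev (Pi.single i 1)
    rw [h, map_zero, dotProduct_single, mul_one] at h7
    exact h7.symm
  · refine (h6 μ).trans (le_of_eq ?_)
    rw [h4, pow_one, mul_one, hR]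
    push_cast
    ring
  · rw [hev, dotProduct_comm]
    exact hzx'

theorem Bp_triv (d : ℕ) (A θ : ℝ) (H : ℕ) :
    ((Bp d A θ H).ncard : ℝ) ≤ ((2 * H + 1 : ℕ) : ℝ) ^ NN 2 d := by
  have hfin : Bp d A θ H ⊆ (FF 2 d H : Set _) := fun f hf => hf.1
  have h3 := Set.ncard_le_ncard hfin (Finset.finite_toSet _)
  rw [Set.ncard_coe_finset, card_FF] at h3
  exact_mod_cast h3

/-- the final estimate -/
theorem fin_bound (hNN : T_NN) (hTR : T_TR) (hRES : T_RES) (hNZ : T_NZ) (hPAK : T_PAK)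
    (hFIB : T_FIB) (hFIT : T_FIT) (hONE : T_ONE) (hTWO : T_TWO) (hSUM : T_SUM) (hSH : T_SH)
    (hIRR : T_IRR) {d : ℕ} (hd : 3 ≤ d) {A θ : ℝ}
    (hA : 4 * A < d * (d + 1) ∨ 3 * A < d * (d - 1)) (hθ : θ < 1) :
    ∃ C δ : ℝ, 0 < C ∧ 0 < δ ∧ ∀ H : ℕ, 1 ≤ H →
      ((Bp d A θ H).ncard : ℝ) ≤ C * (H : ℝ) ^ (-δ) * ((2 * H + 1 : ℕ) : ℝ) ^ NN 2 d := by
  have hdr : (3 : ℝ) ≤ d := by exact_mod_cast hd
  have hθ0 : max θ 0 < 1 := max_lt hθ one_pos
  rcases hA with hA | hA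
  · have hA' : 4 * max A 0 < d * (d + 1) := by
      rcases max_cases A 0 with h | h <;> rw [h.1]
      · exact hA
      · nlinarith
    obtain ⟨C, δ, hC, hδ, h⟩ := pow_bound hNN hTR hRES hNZ hPAK hFIB hFIT hONE hTWO hSUM hSH hIRR
      hd (le_max_right A 0) hA' (le_max_right θ 0) hθ0
    refine ⟨C, δ, hC, hδ, fun H hH => le_trans ?_ (h H hH)⟩
    have h1 := Bp_mono hH (le_max_left A 0) (le_max_left θ 0) (by omega : 1 ≤ d)
    have hfin : (Bp d (max A 0) (max θ 0) H).Finite :=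
      (Finset.finite_toSet (FF 2 d H)).subset fun f hf => hf.1
    exact_mod_cast Set.ncard_le_ncard h1 hfin
  · obtain ⟨A', hAA', hA'0, hA'⟩ : ∃ A' : ℝ, A ≤ A' ∧ 0 ≤ A' ∧ 3 * A' < d * (d - 1) := by
      refine ⟨max A 0, le_max_left _ _, le_max_right _ _, ?_⟩
      rcases max_cases A 0 with h | h <;> rw [h.1]
      · exact hA
      · nlinarith
    have hdd : (0 : ℝ) < d * (d - 1) := by nlinarith
    obtain ⟨θ', hl, hu⟩ := exists_between (max_lt hθ0 ((div_lt_one hdd).2 hA'))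
    have hθθ' : θ ≤ θ' := ((le_max_left _ _).trans (le_max_left _ _)).trans hl.le
    have hθ'0 : 0 ≤ θ' := ((le_max_right _ _).trans (le_max_left _ _)).trans hl.le
    have hθ'A : 3 * A' < θ' * (d * (d - 1)) := by
      have h1 : 3 * A' / (d * (d - 1)) < θ' := lt_of_le_of_lt (le_max_right _ _) hl
      rwa [div_lt_iff₀ hdd] at h1
    obtain ⟨C, δ, hC, hδ, h⟩ := pow_bound hNN hTR hRES hNZ hPAK hFIB hFIT hONE hTWO hSUM hSH hIRR
      hd le_rfl (by nlinarith : 4 * (0 : ℝ) < d * (d + 1)) hθ'0 hu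
    obtain ⟨κ, hκ⟩ : ∃ κ : ℝ, κ = θ' * (d * (d - 1) / ((((1 : ℕ) : ℝ) + 1) *
      (((1 : ℕ) : ℝ) + 2))) := ⟨_, rfl⟩
    have hκA : A' / 2 < κ := by
      rw [hκ]
      push_cast
      linarith
    obtain ⟨H₀, hH₀⟩ : ∃ H₀ : ℝ, H₀ = (36 : ℝ) ^ (1 / (κ - A' / 2)) := ⟨_, rfl⟩
    have hκ' : 0 < κ - A' / 2 := by linarith
    have hH₀1 : 1 ≤ H₀ := by
      rw [hH₀]
      exact Real.one_le_rpow (by norm_num) (by positivity)
    have hH₀δ : 0 < H₀ ^ δ := Real.rpow_pos_of_pos (by linarith) δ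
    refine ⟨C + H₀ ^ δ, δ, by linarith, hδ, fun H hH => ?_⟩
    have hHr : (1 : ℝ) ≤ H := by exact_mod_cast hH
    have hH0 : (0 : ℝ) < H := by linarith
    have hmδ : 0 < (H : ℝ) ^ (-δ) := Real.rpow_pos_of_pos hH0 _
    have hE : (0 : ℝ) < ((2 * H + 1 : ℕ) : ℝ) ^ NN 2 d := by positivity
    rcases lt_or_ge (H : ℝ) H₀ with hlt | hge
    · have t2 : 1 ≤ H₀ ^ δ * (H : ℝ) ^ (-δ) := by
        rw [Real.rpow_neg hH0.le, ← div_eq_mul_inv, one_le_div (Real.rpow_pos_of_pos hH0 δ)]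
        exact Real.rpow_le_rpow hH0.le hlt.le hδ.le
      calc ((Bp d A θ H).ncard : ℝ) ≤ ((2 * H + 1 : ℕ) : ℝ) ^ NN 2 d := Bp_triv _ _ _ _
        _ = 1 * ((2 * H + 1 : ℕ) : ℝ) ^ NN 2 d := (one_mul _).symm
        _ ≤ (C + H₀ ^ δ) * (H : ℝ) ^ (-δ) * ((2 * H + 1 : ℕ) : ℝ) ^ NN 2 d := by
            refine mul_le_mul_of_nonneg_right ?_ hE.le
            have : 0 ≤ C * (H : ℝ) ^ (-δ) := mul_nonneg hC.le hmδ.le
            linarith
    · have hbig : (36 : ℝ) * (H : ℝ) ^ (A' / 2) ≤ (H : ℝ) ^ κ := by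
        have h3 : (36 : ℝ) ≤ (H : ℝ) ^ (κ - A' / 2) := by
          calc (36 : ℝ) = H₀ ^ (κ - A' / 2) := by
                rw [hH₀, ← Real.rpow_mul (by norm_num), one_div_mul_cancel hκ'.ne',
                  Real.rpow_one]
            _ ≤ (H : ℝ) ^ (κ - A' / 2) := Real.rpow_le_rpow (by linarith) hge hκ'.le
        calc (36 : ℝ) * (H : ℝ) ^ (A' / 2) ≤ (H : ℝ) ^ (κ - A' / 2) * (H : ℝ) ^ (A' / 2) :=
              mul_le_mul_of_nonneg_right h3 (Real.rpow_nonneg hH0.le _)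
          _ = (H : ℝ) ^ κ := by rw [← Real.rpow_add hH0, sub_add_cancel]
      have hsub : Bp d A θ H ⊆ Bp d 0 θ' H := by
        rintro f ⟨hf, hf0, x, hx, hfx, hc⟩
        rcases hc with h3 | hc
        · refine ⟨hf, hf0, x, hx, hfx, Or.inr ⟨1, ⟨le_rfl, by omega⟩, ?_⟩⟩
          obtain ⟨w, hw0, hwh, hwc, hwx⟩ := lin_exists hNN hTR hx
          refine ⟨w, hw0, hwh, fun μ => ?_, hwx⟩
          rw [← hκ]
          refine le_trans ?_ hbig
          have h4 : (nm x : ℝ) ≤ (H : ℝ) ^ A' :=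
            h3.trans (Real.rpow_le_rpow_of_exponent_le hHr hAA')
          have h5 : (1 : ℝ) ≤ (H : ℝ) ^ (A' / 2) := Real.one_le_rpow hHr (by linarith)
          have h6 : (Nat.sqrt (9 * nm x) : ℝ) ≤ 3 * (H : ℝ) ^ (A' / 2) := by
            have h7 : ((H : ℝ) ^ (A' / 2)) ^ 2 = (H : ℝ) ^ A' := by
              rw [← Real.rpow_natCast, ← Real.rpow_mul hH0.le]
              congr 1
              push_cast
              ring
            have h8 : ((Nat.sqrt (9 * nm x) : ℕ) : ℝ) ^ 2 ≤ (3 * (H : ℝ) ^ (A' / 2)) ^ 2 := by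
              have h9 : (Nat.sqrt (9 * nm x)) ^ 2 ≤ 9 * nm x := Nat.sqrt_le' _
              have h10 : ((Nat.sqrt (9 * nm x) : ℕ) : ℝ) ^ 2 ≤ 9 * (nm x : ℝ) := by
                exact_mod_cast h9
              rw [mul_pow, h7]
              linarith
            exact (pow_le_pow_iff_left₀ (Nat.cast_nonneg _) (by linarith) two_ne_zero).1 h8
          have h11 : |((w.coeff μ : ℤ) : ℝ)| ≤ ((9 * (Nat.sqrt (9 * nm x) + 1) : ℕ) : ℝ) := by
            exact_mod_cast hwc μ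
          refine h11.trans ?_
          push_cast
          linarith
        · exact Bp_mono hH le_rfl hθθ' (by omega) ⟨hf, hf0, x, hx, hfx, Or.inr hc⟩
      have hfin : (Bp d 0 θ' H).Finite :=
        (Finset.finite_toSet (FF 2 d H)).subset fun f hf => hf.1
      calc ((Bp d A θ H).ncard : ℝ) ≤ ((Bp d 0 θ' H).ncard : ℝ) := by
            exact_mod_cast Set.ncard_le_ncard hsub hfin
        _ ≤ C * (H : ℝ) ^ (-δ) * ((2 * H + 1 : ℕ) : ℝ) ^ NN 2 d := h H hH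
        _ ≤ (C + H₀ ^ δ) * (H : ℝ) ^ (-δ) * ((2 * H + 1 : ℕ) : ℝ) ^ NN 2 d := by
            refine mul_le_mul_of_nonneg_right (mul_le_mul_of_nonneg_right ?_ hmδ.le) hE.le
            linarith

end Pool.Agent.H31.PC
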