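import Pool.Agent.H31.PC.Vec

/-!
# Rational points on plane curves (MP_6e60ff_nt): the good forms through one point
-/

namespace Pool.Agent.H31.PC

open Finset MvPolynomial Pool.Agent.H31.RZ

open Classical in
/-- the pairs of binary forms used for the point with coordinates `y` -/
noncomputable def Dy (d R : ℕ) (y : Fin 3 → ℤ) : Finset (Polynomial ℤ × Polynomial ℤ) :=
  (PB d R ×ˢ PB (d - 1) R).filter fun q => q.1.resultant q.2 d (d - 1) ≠ 0 ∧
    (y 0 ≠ 0 ∧ y 1 ≠ 0 ∧ rd (y 1) ≤ rd (y 0) ∧ y 0 ∣ hv d q.1 (y 1) (y 2) ∧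
      y 0 ∣ hv (d - 1) q.2 (y 1) (y 2))

open Classical in
/-- the binary forms used for the point with coordinates `y` -/
noncomputable def Ay (d R : ℕ) (y : Fin 3 → ℤ) : Finset (Polynomial ℤ) :=
  (PB d R).filter fun φ => φ ≠ 0 ∧ (y 0 ≠ 0 ∧ y 0 ∣ hv d φ (y 1) (y 2))

open Classical in
/-- the good forms vanishing at `x` -/
noncomputable def Gd (d H p K : ℕ) (x : Fin 3 → ℤ) : Finset (MvPolynomial (Fin 3) ℤ) :=
  (FF 2 d H).filter fun f => f ≠ 0 ∧ ND p K f ∧ eval x f = 0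

/-- the restriction to the line of the parameter -/
noncomputable def rs (l : Par) (f : MvPolynomial (Fin 3) ℤ) : Polynomial ℤ :=
  ln l.1 l.2.1 l.2.2.1 f

theorem PB_mono {d R R' : ℕ} (h : R ≤ R') {φ : Polynomial ℤ} (hφ : φ ∈ PB d R) :
    φ ∈ PB d R' := by
  rw [mem_PB] at hφ ⊢
  exact ⟨hφ.1, fun j => (hφ.2 j).trans (by exact_mod_cast h)⟩

theorem FF_mono {d R R' : ℕ} (h : R ≤ R') {f : MvPolynomial (Fin 3) ℤ} (hf : f ∈ FF 2 d R) :
    f ∈ FF 2 d R' := by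
  rw [mem_FF] at hf ⊢
  exact ⟨hf.1, fun j => (hf.2 j).trans (by exact_mod_cast h)⟩

theorem rs_eq (l : Par) (f : MvPolynomial (Fin 3) ℤ) : rs l f = r0 (tr (PM l) f) :=
  (r0_tr _ _ _ _ _).symm

theorem rs_mem (hTR : T_TR) {d H K : ℕ} {l : Par} (hl : l ∈ LL K) {f : MvPolynomial (Fin 3) ℤ}
    (hf : f ∈ FF 2 d H) : rs l f ∈ PB d (NN 2 d * (3 * (K + 1)) ^ d * H) := by
  rw [rs_eq]
  exact r0_mem (hTR d (K + 1) H (PM l) f (PM_le hl) hf)

theorem PM_PI_mulVec {K : ℕ} {l : Par} (hl : l ∈ LL K) (x : Fin 3 → ℤ) :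
    (PM l).mulVec ((PI l).mulVec x) = x := by
  rw [Matrix.mulVec_mulVec, PM_PI hl, Matrix.one_mulVec]

theorem dvd_rs {K d : ℕ} {l : Par} (hl : l ∈ LL K) {f : MvPolynomial (Fin 3) ℤ}
    (hf : f.IsHomogeneous d) {x : Fin 3 → ℤ} (hx : eval x f = 0) :
    (PI l).mulVec x 0 ∣ hv d (rs l f) ((PI l).mulVec x 1) ((PI l).mulVec x 2) := by
  have h1 := dvd_sub0 (tr_hom (A := PM l) hf) ((PI l).mulVec x)
  rw [eval_tr, PM_PI_mulVec hl, hx, zero_sub, dvd_neg, ← rs_eq] at h1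
  exact h1

theorem ND_mono {p K K' : ℕ} (h : K ≤ K') {f : MvPolynomial (Fin 3) ℤ} (hf : ND p K' f) :
    ND p K f := fun a b ha hb => hf a b (ha.trans_le h) (hb.trans_le h)

theorem rp_ne {p R : ℕ} (hp : R < p) {f : MvPolynomial (Fin 3) ℤ} (hf : ∀ μ, |f.coeff μ| ≤ R)
    (h0 : f ≠ 0) : rp p f ≠ 0 := by
  intro h
  apply h0
  ext μ
  have h1 := congrArg (fun g => g.coeff μ) h
  simp only [rp, coeff_map, coeff_zero, eq_intCast] at h1
  rw [ZMod.intCast_zmod_eq_zero_iff_dvd] at h1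
  rw [coeff_zero]
  by_contra h2
  have h3 := Int.le_of_dvd (abs_pos.2 h2) ((dvd_abs _ _).2 h1)
  have h4 := hf μ
  have h5 : (R : ℤ) < p := by exact_mod_cast hp
  omega

/-- some parameter has `y 0 ≠ 0` -/
theorem exists_par {K : ℕ} (hK : 2 ≤ K) {x : Fin 3 → ℤ} (hx : x ≠ 0) :
    ∃ l ∈ LL K, (PI l).mulVec x 0 ≠ 0 := by
  by_cases h1 : x 1 = 0
  · by_cases h0 : x 0 = 0
    · have h2 : x 2 ≠ 0 := by
        intro h2
        apply hx
        funext i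
        fin_cases i
        · exact h0
        · exact h1
        · exact h2
      refine ⟨(1, 0, 1, 0), mem_LL.2 (by simp; omega), ?_⟩
      simp only [PI, MI, Matrix.mulVec, dotProduct, Fin.sum_univ_three]
      simpa [h0, h1] using h2
    · refine ⟨(0, 0, 1, 0), mem_LL.2 (by simp; omega), ?_⟩
      simp only [PI, MI, Matrix.mulVec, dotProduct, Fin.sum_univ_three]
      simpa [h1] using h0
  · refine ⟨(0, 0, 0, 1), mem_LL.2 (by simp; omega), ?_⟩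
    simp only [PI, MI, Matrix.mulVec, dotProduct, Fin.sum_univ_three]
    simpa using h1

theorem swap_par (a b s : ℕ) (x : Fin 3 → ℤ) :
    (PI (a, b, s + 1, s)).mulVec x 0 = (PI (a, b, s, s + 1)).mulVec x 1 ∧
    (PI (a, b, s + 1, s)).mulVec x 1 = (PI (a, b, s, s + 1)).mulVec x 0 ∧
    (PI (a, b, s + 1, s)).mulVec x 2 = (PI (a, b, s, s + 1)).mulVec x 2 := by
  simp only [PI, MI, Matrix.mulVec, dotProduct, Fin.sum_univ_three]
  refine ⟨?_, ?_, ?_⟩ <;> simp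

end Pool.Agent.H31.PC
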