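import Pool.Agent.H31.PC.Powa

/-!
# Rational points on plane curves (MP_6e60ff_nt): the estimate with powers of `H`
-/

namespace Pool.Agent.H31.PC

open Finset MvPolynomial Pool.Agent.H31.RZ

attribute [local irreducible] FF

/-- the bad forms, with powers of `H` -/
def Bp (d : ℕ) (A θ : ℝ) (H : ℕ) : Set (MvPolynomial (Fin 3) ℤ) :=
  {f | f ∈ FF 2 d H ∧ f ≠ 0 ∧ ∃ x : Fin 3 → ℤ, x ≠ 0 ∧ eval x f = 0 ∧
    ((nm x : ℝ) ≤ (H : ℝ) ^ A ∨ ∃ e : ℕ, (1 ≤ e ∧ e < d) ∧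
      ∃ w : MvPolynomial (Fin 3) ℤ, w ≠ 0 ∧ w.IsHomogeneous e ∧
      (∀ μ, |((w.coeff μ : ℤ) : ℝ)| ≤
        (H : ℝ) ^ (θ * (d * (d - 1) / ((e + 1) * (e + 2)) : ℝ))) ∧ eval x w = 0)}

theorem Bp_mono {d H : ℕ} (hH : 1 ≤ H) {A A' θ θ' : ℝ} (hA : A ≤ A') (hθ : θ ≤ θ')
    (hd : 1 ≤ d) : Bp d A θ H ⊆ Bp d A' θ' H := by
  have hHr : (1 : ℝ) ≤ H := by exact_mod_cast hH
  rintro f ⟨hf, hf0, x, hx, hfx, h⟩
  refine ⟨hf, hf0, x, hx, hfx, ?_⟩
  rcases h with h | ⟨e, he, w, hw0, hwh, hwc, hwx⟩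
  · exact Or.inl (h.trans (Real.rpow_le_rpow_of_exponent_le hHr hA))
  · refine Or.inr ⟨e, he, w, hw0, hwh, fun μ => (hwc μ).trans
      (Real.rpow_le_rpow_of_exponent_le hHr (mul_le_mul_of_nonneg_right hθ ?_)), hwx⟩
    have h1 : (1 : ℝ) ≤ d := by exact_mod_cast hd
    exact div_nonneg (mul_nonneg (by linarith) (by linarith)) (by positivity)

/-- the estimate with powers of `H` -/
theorem pow_bound (hNN : T_NN) (hTR : T_TR) (hRES : T_RES) (hNZ : T_NZ) (hPAK : T_PAK)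
    (hFIB : T_FIB) (hFIT : T_FIT) (hONE : T_ONE) (hTWO : T_TWO) (hSUM : T_SUM) (hSH : T_SH)
    (hIRR : T_IRR) {d : ℕ} (hd : 3 ≤ d) {A θ : ℝ} (hA0 : 0 ≤ A) (hA : 4 * A < d * (d + 1))
    (hθ0 : 0 ≤ θ) (hθ : θ < 1) :
    ∃ C δ : ℝ, 0 < C ∧ 0 < δ ∧ ∀ H : ℕ, 1 ≤ H →
      ((Bp d A θ H).ncard : ℝ) ≤ C * (H : ℝ) ^ (-δ) * ((2 * H + 1 : ℕ) : ℝ) ^ NN 2 d := by
  obtain ⟨k, rfl⟩ : ∃ k, d = k + 2 := ⟨d - 2, by omega⟩
  have n1 := hNN (k + 2)
  have n0 := hNN k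
  obtain ⟨m, hm⟩ : ∃ m, NN 2 k = m + 1 := ⟨NN 2 k - 1, by
    have : 0 < NN 2 k := by
      by_contra h
      have h1 : NN 2 k = 0 := by omega
      rw [h1, zero_mul] at n0
      have h2 : 0 < (k + 1) * (k + 2) := Nat.mul_pos (by omega) (by omega)
      omega
    omega⟩
  obtain ⟨N, hN⟩ : ∃ N, N = NN 2 (k + 2) := ⟨_, rfl⟩
  rw [← hN] at n1 ⊢
  rw [hm] at n0
  have hNm : N = 2 * (k + 2) + 1 + m + 1 := by nlinarith
  have n0r : ((m : ℝ) + 1) * 2 = (k + 1) * (k + 2) := by exact_mod_cast n0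
  have hNr : (N : ℝ) = 2 * (k + 2) + 1 + m + 1 := by exact_mod_cast hNm
  have hk1 : (1 : ℝ) ≤ k := by exact_mod_cast (by omega : 1 ≤ k)
  have hm0 : (0 : ℝ) ≤ m := Nat.cast_nonneg _
  push_cast at hA
  have hA2 : 2 * A < (k + 2) + (m + 1) := by nlinarith
  have hgap : A < m + 1 := by nlinarith
  -- the exponents
  obtain ⟨θ', hθθ', hθ'0, hθ'1, hθ'A, hθ'B⟩ : ∃ θ' : ℝ, θ ≤ θ' ∧ 0 ≤ θ' ∧ θ' < 1 ∧
      (1 - θ') * m + A < m + 1 ∧ (1 - θ') * m < (1 - θ) * (m + 1) := by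
    have hp : (0 : ℝ) < m + 1 := by linarith
    have hq : 1 - (m + 1 - A) / (m + 1) < 1 := by
      have : 0 < (m + 1 - A) / (m + 1) := div_pos (by linarith) hp
      linarith
    obtain ⟨θ', hl, hu⟩ := exists_between (max_lt hθ hq)
    have hl1 : θ < θ' := lt_of_le_of_lt (le_max_left _ _) hl
    refine ⟨θ', hl1.le, hθ0.trans hl1.le, hu, ?_, ?_⟩
    · have h3 : 1 - (m + 1 - A) / (m + 1) < θ' := lt_of_le_of_lt (le_max_right _ _) hl
      have h4 : 1 - θ' < (m + 1 - A) / (m + 1) := by linarith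
      rw [lt_div_iff₀ hp] at h4
      linarith
    · have h5 : (1 - θ') * (m + 1) < (1 - θ) * (m + 1) :=
        mul_lt_mul_of_pos_right (by linarith) hp
      linarith
  obtain ⟨δ, hδ0, hδ⟩ := exists_delta [((1 : ℝ), (1 : ℝ)), (2, 1 - θ'),
    (2 + A, (k + 2) + (m + 1) - 2 * A), (2 + A, m + 1 - ((1 - θ') * m + A)),
    (3 + m, (1 - θ) * (m + 1) - (1 - θ') * m)] (by
      intro q hq
      simp only [List.mem_cons, List.not_mem_nil, or_false] at hq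
      rcases hq with rfl | rfl | rfl | rfl | rfl <;> constructor <;> simp only <;> linarith)
  simp only [List.mem_cons, List.not_mem_nil, or_false, forall_eq_or_imp, forall_eq] at hδ
  obtain ⟨e1, e2, e3, e4, e5⟩ := hδ
  obtain ⟨C, hC1, hC⟩ := asm hTR hRES hNZ hPAK hFIB hFIT hONE hTWO hSUM hSH hIRR hd hδ0
  rw [Nat.add_sub_cancel] at hC
  have hC0 : 0 ≤ C := by linarith
  have hkk : (0 : ℝ) ≤ ((k + 2 : ℕ) : ℝ) := Nat.cast_nonneg _
  refine ⟨C * (5 + (k + 2 : ℕ)), δ, mul_pos (by linarith) (by linarith), hδ0, fun H hH => ?_⟩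
  have hHr : (1 : ℝ) ≤ H := by exact_mod_cast hH
  have hH0 : (0 : ℝ) < H := by linarith
  have hmδ : 0 < (H : ℝ) ^ (-δ) := Real.rpow_pos_of_pos hH0 _
  have hEE : (H : ℝ) ^ N ≤ ((2 * H + 1 : ℕ) : ℝ) ^ N := by
    refine pow_le_pow_left₀ hH0.le ?_ _
    push_cast
    linarith
  rcases Nat.lt_or_ge 1 H with h1 | h1
  · -- large `H`
    have hH1 : (1 : ℝ) < H := by exact_mod_cast h1
    obtain ⟨X, hX⟩ : ∃ X : ℕ, X = ⌊(H : ℝ) ^ A⌋₊ := ⟨_, rfl⟩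
    obtain ⟨U, hU⟩ : ∃ U : ℕ, U = ⌊(H : ℝ) ^ θ'⌋₊ := ⟨_, rfl⟩
    obtain ⟨κ, hκ⟩ : ∃ κ : ℕ → ℝ, κ = fun e : ℕ =>
      θ * (((k + 2 : ℕ) : ℝ) * (((k + 2 : ℕ) : ℝ) - 1) / ((e + 1) * (e + 2)) : ℝ) := ⟨_, rfl⟩
    obtain ⟨W, hW⟩ : ∃ W : ℕ → ℕ, W = fun e => ⌊(H : ℝ) ^ κ e⌋₊ := ⟨_, rfl⟩
    have hκ0 : ∀ e, 0 ≤ κ e := by
      intro e
      rw [hκ]
      refine mul_nonneg hθ0 (div_nonneg (mul_nonneg hkk ?_) (by positivity))
      push_cast
      linarith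
    have hx1 : (1 : ℝ) ≤ (H : ℝ) ^ θ' := Real.one_le_rpow hHr hθ'0
    have hx2 : (1 : ℝ) ≤ (H : ℝ) ^ A := Real.one_le_rpow hHr hA0
    have hX1 : 1 ≤ X := by
      rw [hX]
      exact Nat.le_floor (by exact_mod_cast hx2)
    have hXle : (X : ℝ) ≤ (H : ℝ) ^ A := by
      rw [hX]
      exact Nat.floor_le (by linarith)
    have hW1 : ∀ e, 1 ≤ W e := by
      intro e
      rw [hW]
      refine Nat.le_floor ?_
      rw [Nat.cast_one]
      exact Real.one_le_rpow hHr (hκ0 e)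
    have hWle : ∀ e, (W e : ℝ) ≤ (H : ℝ) ^ κ e := by
      intro e
      rw [hW]
      exact Nat.floor_le (Real.rpow_nonneg hH0.le _)
    have hUle : (U : ℝ) ≤ (H : ℝ) ^ θ' := by
      rw [hU]
      exact Nat.floor_le (by linarith)
    have hUlt : (H : ℝ) ^ θ' < U + 1 := by
      rw [hU]
      exact Nat.lt_floor_add_one _
    have hUH : U + 1 ≤ H := by
      have h2 : (H : ℝ) ^ θ' < H := by
        calc (H : ℝ) ^ θ' < (H : ℝ) ^ (1 : ℝ) := Real.rpow_lt_rpow_of_exponent_lt hH1 hθ'1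
          _ = H := Real.rpow_one _
      have h3 : (U : ℝ) < H := by linarith
      have h4 : U < H := by exact_mod_cast h3
      omega
    have hsub : Bp (k + 2) A θ H ⊆ Bx (k + 2) H X W := by
      rintro f ⟨hf, hf0, x, hx, hfx, hc⟩
      refine ⟨hf, hf0, x, hx, hfx, ?_⟩
      rcases hc with h3 | ⟨e, he, w, hw0, hwh, hwc, hwx⟩
      · left
        rw [hX]
        exact Nat.le_floor h3
      · right
        refine ⟨e, he, w, hw0, hwh, fun μ => ?_, hwx⟩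
        have h4 : (w.coeff μ).natAbs ≤ W e := by
          rw [hW]
          refine Nat.le_floor ?_
          rw [Nat.cast_natAbs, Int.cast_abs, hκ]
          exact hwc μ
        rw [Int.abs_eq_natAbs]
        exact_mod_cast h4
    have hfin : (Bx (k + 2) H X W).Finite :=
      (Finset.finite_toSet (FF 2 (k + 2) H)).subset fun f hf => hf.1
    have h3 := Set.ncard_le_ncard hsub hfin
    have h4 := hC H X (U + 1) W hX1 (by omega) hUH hW1
    rw [hm, Nat.add_sub_cancel, ← hN] at h4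
    have hv1 : (H : ℝ) ^ θ' ≤ ((U + 1 : ℕ) : ℝ) := by
      push_cast
      exact hUlt.le
    have h5 := five (h := (H : ℝ)) (x := (X : ℝ)) (v := ((U + 1 : ℕ) : ℝ)) (N := N) (d := k + 2)
      (m := m) (A := A) (θ := θ') (δ := δ) hHr (Nat.cast_nonneg _) hXle hv1
      (by push_cast; linarith) hδ0 (by linarith) (by linarith)
      (by push_cast; linarith) (by push_cast; linarith) hNm
    have h6 : ∑ e ∈ Finset.Ico 1 (k + 2), ((H : ℝ) * W e) ^ δ * ((W e : ℝ) ^ NN 2 e *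
        (((H : ℝ) / ((U + 1 : ℕ) : ℝ)) ^ m * (H : ℝ) ^ (2 * (k + 2) + 1))) ≤
        ((k + 2 : ℕ) : ℝ) * ((H : ℝ) ^ (-δ) * (H : ℝ) ^ N) := by
      have h7 : ∀ e ∈ Finset.Ico 1 (k + 2), ((H : ℝ) * W e) ^ δ * ((W e : ℝ) ^ NN 2 e *
        (((H : ℝ) / ((U + 1 : ℕ) : ℝ)) ^ m * (H : ℝ) ^ (2 * (k + 2) + 1))) ≤
          (H : ℝ) ^ (-δ) * (H : ℝ) ^ N := by
        intro e he
        have he1 : (1 : ℝ) ≤ e := by exact_mod_cast (Finset.mem_Ico.1 he).1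
        have he2 : (NN 2 e : ℝ) * 2 = (e + 1) * (e + 2) := by exact_mod_cast hNN e
        have hpos : (0 : ℝ) < (e + 1) * (e + 2) := by positivity
        have hκe : κ e * ((e + 1) * (e + 2)) = θ * ((m + 1) * 2) := by
          rw [hκ]
          simp only
          rw [mul_assoc, div_mul_cancel₀ _ hpos.ne', n0r]
          push_cast
          ring
        have hκN : κ e * (NN 2 e : ℝ) = θ * (m + 1) := by
          have : κ e * ((NN 2 e : ℝ) * 2) = θ * ((m + 1) * 2) := by rw [he2]; exact hκe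
          linarith
        have hκle : κ e ≤ m + 1 := by
          have h8 : κ e * 2 ≤ κ e * ((e + 1) * (e + 2)) :=
            mul_le_mul_of_nonneg_left (by nlinarith) (hκ0 e)
          have h9 : θ * ((m + 1) * 2) ≤ 1 * ((m + 1) * 2) :=
            mul_le_mul_of_nonneg_right hθ.le (by linarith)
          linarith
        have h10 : δ * (2 + κ e) ≤ δ * (3 + m) :=
          mul_le_mul_of_nonneg_left (by linarith) hδ0.le
        refine one_more hHr (Nat.cast_nonneg _) (hWle e) hv1 hδ0 ?_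
        rw [hκN]
        push_cast
        linarith
      refine (Finset.sum_le_sum h7).trans ?_
      rw [Finset.sum_const, nsmul_eq_mul, Nat.card_Ico]
      refine mul_le_mul_of_nonneg_right ?_ (mul_nonneg hmδ.le (pow_nonneg hH0.le _))
      exact_mod_cast Nat.sub_le _ _
    calc ((Bp (k + 2) A θ H).ncard : ℝ) ≤ ((Bx (k + 2) H X W).ncard : ℝ) := by
          exact_mod_cast h3
      _ ≤ _ := h4
      _ ≤ C * (5 * (H : ℝ) ^ (-δ) * (H : ℝ) ^ N +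
          ((k + 2 : ℕ) : ℝ) * ((H : ℝ) ^ (-δ) * (H : ℝ) ^ N)) :=
          mul_le_mul_of_nonneg_left (add_le_add h5 h6) hC0
      _ = C * (5 + (k + 2 : ℕ)) * (H : ℝ) ^ (-δ) * (H : ℝ) ^ N := by ring
      _ ≤ C * (5 + (k + 2 : ℕ)) * (H : ℝ) ^ (-δ) * ((2 * H + 1 : ℕ) : ℝ) ^ N :=
          mul_le_mul_of_nonneg_left hEE (mul_nonneg (mul_nonneg hC0 (by linarith)) hmδ.le)
  · -- `H = 1`
    have h2 : H = 1 := by omega
    subst h2
    have hfin : Bp (k + 2) A θ 1 ⊆ (FF 2 (k + 2) 1 : Set _) := fun f hf => hf.1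
    have h3 := Set.ncard_le_ncard hfin (Finset.finite_toSet _)
    rw [Set.ncard_coe_finset, card_FF, ← hN] at h3
    have h4 : (((1 : ℕ) : ℝ)) ^ (-δ) = 1 := by rw [Nat.cast_one, Real.one_rpow]
    rw [h4, mul_one]
    have h5 : (0 : ℝ) < ((2 * 1 + 1 : ℕ) : ℝ) ^ N := by positivity
    have h6 : (1 : ℝ) ≤ C * (5 + (k + 2 : ℕ)) := by nlinarith
    calc ((Bp (k + 2) A θ 1).ncard : ℝ) ≤ (((2 * 1 + 1) ^ N : ℕ) : ℝ) := by exact_mod_cast h3
      _ = 1 * ((2 * 1 + 1 : ℕ) : ℝ) ^ N := by push_cast; ring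
      _ ≤ C * (5 + (k + 2 : ℕ)) * ((2 * 1 + 1 : ℕ) : ℝ) ^ N :=
          mul_le_mul_of_nonneg_right h6 h5.le

end Pool.Agent.H31.PC
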