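import Pool.Agent.H31.PC.Asm

/-!
# Rational points on plane curves (MP_6e60ff_nt): real inequalities
-/

namespace Pool.Agent.H31.PC

theorem exists_delta (l : List (ℝ × ℝ)) (h : ∀ q ∈ l, 0 < q.1 ∧ 0 < q.2) :
    ∃ δ : ℝ, 0 < δ ∧ ∀ q ∈ l, δ * q.1 ≤ q.2 := by
  induction l with
  | nil => exact ⟨1, one_pos, fun q hq => absurd hq List.not_mem_nil⟩
  | cons a l ih =>
    obtain ⟨δ, hδ, h1⟩ := ih fun q hq => h q (List.mem_cons_of_mem _ hq)
    obtain ⟨ha1, ha2⟩ := h a List.mem_cons_self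
    refine ⟨min δ (a.2 / a.1), lt_min hδ (div_pos ha2 ha1), fun q hq => ?_⟩
    rcases List.mem_cons.1 hq with rfl | hq'
    · calc min δ (q.2 / q.1) * q.1 ≤ q.2 / q.1 * q.1 :=
            mul_le_mul_of_nonneg_right (min_le_right _ _) ha1.le
        _ = q.2 := div_mul_cancel₀ _ ha1.ne'
    · refine le_trans ?_ (h1 q hq')
      exact mul_le_mul_of_nonneg_right (min_le_left _ _)
        (h q (List.mem_cons_of_mem _ hq')).1.le

theorem five {h x v : ℝ} {N d m : ℕ} {A θ δ : ℝ} (hh : 1 ≤ h) (hx0 : 0 ≤ x) (hx : x ≤ h ^ A)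
    (hv1 : h ^ θ ≤ v) (hv2 : v ≤ 2 * h ^ θ) (hδ : 0 < δ)
    (e1 : δ ≤ 1) (e2 : 2 * δ + θ ≤ 1) (e3 : δ * (2 + A) + (d + 1) + 2 * A ≤ N)
    (e4 : δ * (2 + A) + (1 - θ) * m + (2 * d + 1) + A ≤ N) (hN : N = 2 * d + 1 + m + 1) :
    h ^ (N - 1) + h ^ δ * (h ^ (2 * d + 1 + m) * v) +
      (h * x) ^ δ * (h ^ (d + 1) * x ^ 2 + (h / v) ^ m * (h ^ (2 * d + 1) * x)) ≤
      5 * h ^ (-δ) * h ^ N := by
  have h0 : 0 < h := by linarith
  have hle : ∀ {x y : ℝ}, x ≤ y → h ^ x ≤ h ^ y := fun {x y} hxy =>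
    Real.rpow_le_rpow_of_exponent_le hh hxy
  have hθp : 0 < h ^ θ := Real.rpow_pos_of_pos h0 θ
  have hv0 : 0 < v := by linarith
  have hAp : 0 ≤ h ^ A := Real.rpow_nonneg h0.le A
  have hR : h ^ (-δ) * h ^ N = h ^ (-δ + N) := by rw [Real.rpow_add h0, Real.rpow_natCast]
  have t1 : h ^ (N - 1) ≤ h ^ (-δ + N) := by
    rw [← Real.rpow_natCast]
    refine hle ?_
    rw [Nat.cast_sub (by omega)]
    push_cast
    linarith
  have t2 : h ^ δ * (h ^ (2 * d + 1 + m) * v) ≤ 2 * h ^ (-δ + N) := by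
    calc h ^ δ * (h ^ (2 * d + 1 + m) * v) ≤ h ^ δ * (h ^ (2 * d + 1 + m) * (2 * h ^ θ)) :=
          mul_le_mul_of_nonneg_left (mul_le_mul_of_nonneg_left hv2 (pow_nonneg h0.le _))
            (Real.rpow_nonneg h0.le _)
      _ = 2 * h ^ (δ + (((2 * d + 1 + m : ℕ) : ℝ) + θ)) := by
          rw [Real.rpow_add h0, Real.rpow_add h0, Real.rpow_natCast]
          ring
      _ ≤ 2 * h ^ (-δ + N) := by
          refine mul_le_mul_of_nonneg_left (hle ?_) zero_le_two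
          rw [hN]
          push_cast
          linarith
  have hd1 : (h * x) ^ δ ≤ h ^ (δ * (1 + A)) := by
    calc (h * x) ^ δ ≤ (h * h ^ A) ^ δ :=
          Real.rpow_le_rpow (mul_nonneg h0.le hx0) (mul_le_mul_of_nonneg_left hx h0.le) hδ.le
      _ = (h ^ (1 + A)) ^ δ := by rw [Real.rpow_add h0, Real.rpow_one]
      _ = h ^ (δ * (1 + A)) := by rw [← Real.rpow_mul h0.le, mul_comm]
  have t3 : (h * x) ^ δ * (h ^ (d + 1) * x ^ 2) ≤ h ^ (-δ + N) := by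
    calc (h * x) ^ δ * (h ^ (d + 1) * x ^ 2) ≤ h ^ (δ * (1 + A)) * (h ^ (d + 1) * (h ^ A) ^ 2) :=
          mul_le_mul hd1 (mul_le_mul_of_nonneg_left (pow_le_pow_left₀ hx0 hx _)
            (pow_nonneg h0.le _)) (mul_nonneg (pow_nonneg h0.le _) (pow_nonneg hx0 _))
            (Real.rpow_nonneg h0.le _)
      _ = h ^ (δ * (1 + A) + (((d + 1 : ℕ) : ℝ) + A * ((2 : ℕ) : ℝ))) := by
          rw [Real.rpow_add h0, Real.rpow_add h0, Real.rpow_natCast, Real.rpow_mul h0.le A,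
            Real.rpow_natCast]
      _ ≤ h ^ (-δ + N) := by
          refine hle ?_
          push_cast
          linarith
  have hq0 : 0 ≤ h / v := div_nonneg h0.le hv0.le
  have hq : h / v ≤ h ^ (1 - θ) := by
    rw [div_le_iff₀ hv0]
    calc h = h ^ (1 - θ) * h ^ θ := by rw [← Real.rpow_add h0, sub_add_cancel, Real.rpow_one]
      _ ≤ h ^ (1 - θ) * v := mul_le_mul_of_nonneg_left hv1 (Real.rpow_nonneg h0.le _)
  have t4 : (h * x) ^ δ * ((h / v) ^ m * (h ^ (2 * d + 1) * x)) ≤ h ^ (-δ + N) := by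
    calc (h * x) ^ δ * ((h / v) ^ m * (h ^ (2 * d + 1) * x)) ≤
          h ^ (δ * (1 + A)) * ((h ^ (1 - θ)) ^ m * (h ^ (2 * d + 1) * h ^ A)) := by
          refine mul_le_mul hd1 (mul_le_mul (pow_le_pow_left₀ hq0 hq _)
            (mul_le_mul_of_nonneg_left hx (pow_nonneg h0.le _)) ?_ ?_) ?_ ?_
          · exact mul_nonneg (pow_nonneg h0.le _) hx0
          · exact pow_nonneg (Real.rpow_nonneg h0.le _) _
          · exact mul_nonneg (pow_nonneg hq0 _) (mul_nonneg (pow_nonneg h0.le _) hx0)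
          · exact Real.rpow_nonneg h0.le _
      _ = h ^ (δ * (1 + A) + ((1 - θ) * ((m : ℕ) : ℝ) + (((2 * d + 1 : ℕ) : ℝ) + A))) := by
          rw [Real.rpow_add h0, Real.rpow_add h0 ((1 - θ) * ((m : ℕ) : ℝ)), Real.rpow_add h0 _ A,
            Real.rpow_natCast, Real.rpow_mul h0.le (1 - θ), Real.rpow_natCast]
      _ ≤ h ^ (-δ + N) := by
          refine hle ?_
          push_cast
          linarith
  rw [mul_add, mul_assoc, hR]
  linarith

theorem one_more {h w v : ℝ} {N d m n : ℕ} {κ θ δ : ℝ} (hh : 1 ≤ h) (hw0 : 0 ≤ w)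
    (hw : w ≤ h ^ κ) (hv1 : h ^ θ ≤ v) (hδ : 0 < δ)
    (e5 : δ * (2 + κ) + κ * n + (1 - θ) * m + (2 * d + 1) ≤ N) :
    (h * w) ^ δ * (w ^ n * ((h / v) ^ m * h ^ (2 * d + 1))) ≤ h ^ (-δ) * h ^ N := by
  have h0 : 0 < h := by linarith
  have hle : ∀ {x y : ℝ}, x ≤ y → h ^ x ≤ h ^ y := fun {x y} hxy =>
    Real.rpow_le_rpow_of_exponent_le hh hxy
  have hθp : 0 < h ^ θ := Real.rpow_pos_of_pos h0 θ
  have hv0 : 0 < v := by linarith
  have hR : h ^ (-δ) * h ^ N = h ^ (-δ + N) := by rw [Real.rpow_add h0, Real.rpow_natCast]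
  have hd1 : (h * w) ^ δ ≤ h ^ (δ * (1 + κ)) := by
    calc (h * w) ^ δ ≤ (h * h ^ κ) ^ δ :=
          Real.rpow_le_rpow (mul_nonneg h0.le hw0) (mul_le_mul_of_nonneg_left hw h0.le) hδ.le
      _ = (h ^ (1 + κ)) ^ δ := by rw [Real.rpow_add h0, Real.rpow_one]
      _ = h ^ (δ * (1 + κ)) := by rw [← Real.rpow_mul h0.le, mul_comm]
  have hq0 : 0 ≤ h / v := div_nonneg h0.le hv0.le
  have hq : h / v ≤ h ^ (1 - θ) := by
    rw [div_le_iff₀ hv0]
    calc h = h ^ (1 - θ) * h ^ θ := by rw [← Real.rpow_add h0, sub_add_cancel, Real.rpow_one]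
      _ ≤ h ^ (1 - θ) * v := mul_le_mul_of_nonneg_left hv1 (Real.rpow_nonneg h0.le _)
  rw [hR]
  calc (h * w) ^ δ * (w ^ n * ((h / v) ^ m * h ^ (2 * d + 1))) ≤
        h ^ (δ * (1 + κ)) * ((h ^ κ) ^ n * ((h ^ (1 - θ)) ^ m * h ^ (2 * d + 1))) := by
        refine mul_le_mul hd1 (mul_le_mul (pow_le_pow_left₀ hw0 hw _)
          (mul_le_mul_of_nonneg_right (pow_le_pow_left₀ hq0 hq _) (pow_nonneg h0.le _))
          ?_ ?_) ?_ ?_
        · exact mul_nonneg (pow_nonneg hq0 _) (pow_nonneg h0.le _)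
        · exact pow_nonneg (Real.rpow_nonneg h0.le _) _
        · exact mul_nonneg (pow_nonneg hw0 _) (mul_nonneg (pow_nonneg hq0 _)
            (pow_nonneg h0.le _))
        · exact Real.rpow_nonneg h0.le _
    _ = h ^ (δ * (1 + κ) + (κ * ((n : ℕ) : ℝ) + ((1 - θ) * ((m : ℕ) : ℝ) +
        ((2 * d + 1 : ℕ) : ℝ)))) := by
        rw [Real.rpow_add h0, Real.rpow_add h0 (κ * ((n : ℕ) : ℝ)),
          Real.rpow_add h0 ((1 - θ) * ((m : ℕ) : ℝ)), Real.rpow_natCast,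
          Real.rpow_mul h0.le (1 - θ), Real.rpow_natCast, Real.rpow_mul h0.le κ,
          Real.rpow_natCast]
    _ ≤ h ^ (-δ + N) := by
        refine hle ?_
        push_cast
        linarith

end Pool.Agent.H31.PC
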