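import Pool.Agent.H31.PC.One

/-!
# Rational points on plane curves (MP_6e60ff_nt): the good forms through one point, counting
-/

namespace Pool.Agent.H31.PC

open Finset MvPolynomial Pool.Agent.H31.RZ

attribute [local irreducible] FF

theorem zero_mem_Lam (e R : ℕ) (x : Fin 3 → ℤ) : (0 : MvPolynomial (Fin 3) ℤ) ∈ Lam e R x := by
  rw [mem_Lam]
  refine ⟨⟨isHomogeneous_zero _ _ _, fun μ => ?_⟩, map_zero _⟩
  simp

/-- first case: no form of degree `d - 1` -/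
theorem caseA (hTR : T_TR) {d K Cf : ℕ}
    (hF : ∀ (R : ℕ) (a b s s' : ℤ),
      |a| ≤ K → |b| ≤ K → |s| ≤ K → |s'| ≤ K → (s' - s) ^ 2 = 1 → ∀ (x : Fin 3 → ℤ)
      (φ : Polynomial ℤ), (MI a b s s').mulVec x 0 ≠ 0 →
      ({f : MvPolynomial (Fin 3) ℤ | f ∈ FF 2 d R ∧ eval x f = 0 ∧ ln a b s f = φ} :
        Set _).ncard ≤ #(Lam (d - 1) (Cf * R) x))
    {H p R : ℕ} (hR : NN 2 d * (3 * (K + 1)) ^ d * H ≤ R) {x : Fin 3 → ℤ} {l : Par}
    (hl : l ∈ LL K) (hy : (PI l).mulVec x 0 ≠ 0) (hL : Lam (d - 1) (Cf * H) x ⊆ {0}) :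
    #(Gd d H p K x) ≤ #(Ay d R ((PI l).mulVec x)) := by
  classical
  obtain ⟨⟨h1, h2, h3, h4⟩, -⟩ := mem_LL.1 hl
  have hcard : #(Lam (d - 1) (Cf * H) x) ≤ 1 :=
    (Finset.card_le_card hL).trans (Finset.card_singleton _).le
  have hfib : ∀ φ : Polynomial ℤ, ({f : MvPolynomial (Fin 3) ℤ | f ∈ FF 2 d H ∧ eval x f = 0 ∧
      rs l f = φ} : Set _).ncard ≤ 1 := fun φ =>
    (hF H l.1 l.2.1 l.2.2.1 l.2.2.2 (by rw [Nat.abs_cast]; omega) (by rw [Nat.abs_cast]; omega)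
      (by rw [Nat.abs_cast]; omega) (by rw [Nat.abs_cast]; omega) (LL_sq hl) x φ hy).trans hcard
  have hfin : ∀ φ : Polynomial ℤ, ({f : MvPolynomial (Fin 3) ℤ | f ∈ FF 2 d H ∧ eval x f = 0 ∧
      rs l f = φ} : Set _).Finite := fun φ =>
    (Finset.finite_toSet (FF 2 d H)).subset fun f hf => hf.1
  have huniq : ∀ f g : MvPolynomial (Fin 3) ℤ, f ∈ FF 2 d H → eval x f = 0 → g ∈ FF 2 d H →
      eval x g = 0 → rs l f = rs l g → f = g := by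
    intro f g hf hfx hg hgx h
    exact (Set.ncard_le_one (hfin (rs l g))).1 (hfib (rs l g)) f ⟨hf, hfx, h⟩ g ⟨hg, hgx, rfl⟩
  refine Finset.card_le_card_of_injOn (rs l) ?_ ?_
  · intro f hf
    obtain ⟨hfF, hf0, -, hfx⟩ := Finset.mem_filter.1 (Finset.mem_coe.1 hf)
    refine Finset.mem_coe.2 (Finset.mem_filter.2 ⟨PB_mono hR (rs_mem hTR hl hfF), ?_, hy,
      dvd_rs hl (mem_FF.1 hfF).1 hfx⟩)
    intro h0
    apply hf0
    refine huniq f 0 hfF hfx ?_ (map_zero _) (by rw [h0, rs, map_zero])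
    rw [mem_FF]
    exact (mem_Lam.1 (zero_mem_Lam d H x)).1
  · intro f hf g hg h
    obtain ⟨hfF, -, -, hfx⟩ := Finset.mem_filter.1 (Finset.mem_coe.1 hf)
    obtain ⟨hgF, -, -, hgx⟩ := Finset.mem_filter.1 (Finset.mem_coe.1 hg)
    exact huniq f g hfF hfx hgF hgx h

/-- second case: many forms of degree `d - 1` -/
theorem caseB (hTR : T_TR) (hRES : T_RES) {d K K₁ Cf Cg : ℕ} (hd : 3 ≤ d) (hK : K₁ ≤ K)
    (hF : ∀ (R : ℕ) (a b s s' : ℤ),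
      |a| ≤ K → |b| ≤ K → |s| ≤ K → |s'| ≤ K → (s' - s) ^ 2 = 1 → ∀ (x : Fin 3 → ℤ)
      (φ : Polynomial ℤ), (MI a b s s').mulVec x 0 ≠ 0 →
      ({f : MvPolynomial (Fin 3) ℤ | f ∈ FF 2 d R ∧ eval x f = 0 ∧ ln a b s f = φ} :
        Set _).ncard ≤ #(Lam (d - 1) (Cf * R) x))
    (hG : ∀ (R : ℕ) (a b s s' : ℤ),
      |a| ≤ K → |b| ≤ K → |s| ≤ K → |s'| ≤ K → (s' - s) ^ 2 = 1 → ∀ (x : Fin 3 → ℤ)
      (φ : Polynomial ℤ), (MI a b s s').mulVec x 0 ≠ 0 →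
      ({f : MvPolynomial (Fin 3) ℤ | f ∈ FF 2 (d - 1) R ∧ eval x f = 0 ∧ ln a b s f = φ} :
        Set _).ncard ≤ #(Lam (d - 1 - 1) (Cg * R) x))
    {H p R : ℕ} (hNZ : ∀ f g : MvPolynomial (Fin 3) ℤ, f.IsHomogeneous d →
      g.IsHomogeneous (d - 1) → ND p K₁ f →
      rp p f ≠ 0 → rp p g ≠ 0 → ∃ a b s : ℕ, a < K₁ ∧ b < K₁ ∧ s + 1 < K₁ ∧
        eval ![(a : ℤ), (b : ℤ), 1] g ≠ 0 ∧
        (ln a b s f).resultant (ln a b s g) d (d - 1) ≠ 0 ∧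
        (ln a b (s + 1) f).resultant (ln a b (s + 1) g) d (d - 1) ≠ 0)
    (hHp : H < p) (hCp : Cf * H < p)
    (hR : NN 2 d * (3 * (K + 1)) ^ d * H ≤ R)
    (hR' : NN 2 (d - 1) * (3 * (K + 1)) ^ (d - 1) * (Cf * H) ≤ R) {x : Fin 3 → ℤ}
    (hx : Prim x) (hL : ¬ Lam (d - 1) (Cf * H) x ⊆ {0}) :
    #(Gd d H p K x) ≤ 2 * ((∑ l ∈ LL K, #(Dy d R ((PI l).mulVec x))) *
      #(Lam (d - 1 - 1) (Cg * (Cf * H)) x)) := by
  classical
  set G := (Lam (d - 1) (Cf * H) x).erase 0 with hGdef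
  have hGpos : 1 ≤ #G := by
    rw [Nat.one_le_iff_ne_zero, Ne, Finset.card_eq_zero]
    intro h
    apply hL
    intro g hg
    rw [Finset.mem_singleton]
    by_contra h0
    have : g ∈ G := Finset.mem_erase.2 ⟨h0, hg⟩
    rw [h] at this
    exact Finset.notMem_empty _ this
  have hGc : #(Lam (d - 1) (Cf * H) x) = #G + 1 := by
    rw [hGdef, Finset.card_erase_add_one (zero_mem_Lam _ _ _)]
  let Fi : Par → Polynomial ℤ → Finset (MvPolynomial (Fin 3) ℤ) := fun l φ =>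
    (FF 2 d H).filter fun f => eval x f = 0 ∧ rs l f = φ
  let Gi : Par → Polynomial ℤ → Finset (MvPolynomial (Fin 3) ℤ) := fun l ψ =>
    (FF 2 (d - 1) (Cf * H)).filter fun g => eval x g = 0 ∧ rs l g = ψ
  have hFi : ∀ l ∈ LL K, (PI l).mulVec x 0 ≠ 0 → ∀ φ, #(Fi l φ) ≤
      #(Lam (d - 1) (Cf * H) x) := by
    intro l hl hy φ
    obtain ⟨⟨h1, h2, h3, h4⟩, -⟩ := mem_LL.1 hl
    have h5 := hF H l.1 l.2.1 l.2.2.1 l.2.2.2 (by rw [Nat.abs_cast]; omega)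
      (by rw [Nat.abs_cast]; omega)
      (by rw [Nat.abs_cast]; omega) (by rw [Nat.abs_cast]; omega) (LL_sq hl) x φ hy
    rw [← Set.ncard_coe_finset, Finset.coe_filter]
    exact h5
  have hGi : ∀ l ∈ LL K, (PI l).mulVec x 0 ≠ 0 → ∀ ψ, #(Gi l ψ) ≤
      #(Lam (d - 1 - 1) (Cg * (Cf * H)) x) := by
    intro l hl hy ψ
    obtain ⟨⟨h1, h2, h3, h4⟩, -⟩ := mem_LL.1 hl
    have h5 := hG (Cf * H) l.1 l.2.1 l.2.2.1 l.2.2.2 (by rw [Nat.abs_cast]; omega)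
      (by rw [Nat.abs_cast]; omega)
      (by rw [Nat.abs_cast]; omega) (by rw [Nat.abs_cast]; omega) (LL_sq hl) x ψ hy
    rw [← Set.ncard_coe_finset, Finset.coe_filter]
    exact h5
  have hsub : Gd d H p K x ×ˢ G ⊆ (LL K).biUnion fun l =>
      (Dy d R ((PI l).mulVec x)).biUnion fun q => Fi l q.1 ×ˢ Gi l q.2 := by
    rintro ⟨f, g⟩ hfg
    obtain ⟨hf, hg⟩ := Finset.mem_product.1 hfg
    obtain ⟨hfF, hf0, hfN, hfx⟩ := Finset.mem_filter.1 hf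
    obtain ⟨hg0, hgL⟩ := Finset.mem_erase.1 hg
    obtain ⟨⟨hgh, hgc⟩, hgx⟩ := mem_Lam.1 hgL
    simp only at hf0 hfN hfx hg0 hgh hgc hgx hfF
    obtain ⟨hfh, hfc⟩ := mem_FF.1 hfF
    have hgF : g ∈ FF 2 (d - 1) (Cf * H) := mem_FF.2 ⟨hgh, hgc⟩
    obtain ⟨a, b, s, ha, hb, hs, -, hr, hr'⟩ := hNZ f g hfh hgh (ND_mono hK hfN)
      (rp_ne hHp hfc hf0) (rp_ne hCp hgc hg0)
    have hl1 : ((a, b, s, s + 1) : Par) ∈ LL K := mem_LL.2 (by simp; omega)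
    have hl2 : ((a, b, s + 1, s) : Par) ∈ LL K := mem_LL.2 (by simp; omega)
    -- the general step
    have key : ∀ l ∈ LL K, (rs l f).resultant (rs l g) d (d - 1) ≠ 0 →
        (PI l).mulVec x 0 ≠ 0 := by
      intro l hl hres h0
      apply hres
      have h1 := dvd_rs hl hfh hfx
      have h2 := dvd_rs hl hgh hgx
      have h3 := hRES d (d - 1) (rs l f) (rs l g) _ _ _ (by omega) (by omega)
        (mem_PB.1 (rs_mem hTR hl hfF)).1 (mem_PB.1 (rs_mem hTR hl hgF)).1 h1 h2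
        (prim_unit (prim_mulVec (PM_PI hl) hx))
      rw [h0] at h3
      exact zero_dvd_iff.1 h3
    have hrs1 : rs (a, b, s, s + 1) f = ln a b s f := rfl
    have hrs1' : rs (a, b, s, s + 1) g = ln a b s g := rfl
    have hrs2 : rs (a, b, s + 1, s) f = ln a b (s + 1) f := by
      simp only [rs, Nat.cast_add, Nat.cast_one]
    have hrs2' : rs (a, b, s + 1, s) g = ln a b (s + 1) g := by
      simp only [rs, Nat.cast_add, Nat.cast_one]
    have hy1 := key _ hl1 (by rw [hrs1, hrs1']; exact hr)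
    have hy2 := key _ hl2 (by rw [hrs2, hrs2']; exact hr')
    obtain ⟨sw0, sw1, sw2⟩ := swap_par a b s x
    have fin : ∀ l ∈ LL K, (rs l f).resultant (rs l g) d (d - 1) ≠ 0 →
        (PI l).mulVec x 1 ≠ 0 → rd ((PI l).mulVec x 1) ≤ rd ((PI l).mulVec x 0) →
        (f, g) ∈ (LL K).biUnion fun l =>
          (Dy d R ((PI l).mulVec x)).biUnion fun q => Fi l q.1 ×ˢ Gi l q.2 := by
      intro l hl hres h1 hrd
      refine Finset.mem_biUnion.2 ⟨l, hl, Finset.mem_biUnion.2 ⟨(rs l f, rs l g), ?_, ?_⟩⟩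
      · exact Finset.mem_filter.2 ⟨Finset.mem_product.2 ⟨PB_mono hR (rs_mem hTR hl hfF),
          PB_mono hR' (rs_mem hTR hl hgF)⟩, hres, key l hl hres, h1, hrd,
          dvd_rs hl hfh hfx, dvd_rs hl hgh hgx⟩
      · exact Finset.mem_product.2 ⟨Finset.mem_filter.2 ⟨hfF, hfx, rfl⟩,
          Finset.mem_filter.2 ⟨hgF, hgx, rfl⟩⟩
    rcases le_total (rd ((PI (a, b, s, s + 1)).mulVec x 1)) (rd ((PI (a, b, s, s + 1)).mulVec x 0))
      with h | h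
    · exact fin _ hl1 (by rw [hrs1, hrs1']; exact hr) (by rw [← sw0]; exact hy2) h
    · exact fin _ hl2 (by rw [hrs2, hrs2']; exact hr') (by rw [sw1]; exact hy1)
        (by rw [sw0, sw1]; exact h)
  have hcard := Finset.card_le_card hsub
  rw [Finset.card_product] at hcard
  have h1 : #(Gd d H p K x) * #G ≤ ∑ l ∈ LL K, ∑ q ∈ Dy d R ((PI l).mulVec x),
      #(Lam (d - 1) (Cf * H) x) * #(Lam (d - 1 - 1) (Cg * (Cf * H)) x) := by
    refine hcard.trans (Finset.card_biUnion_le.trans (Finset.sum_le_sum fun l hl =>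
      Finset.card_biUnion_le.trans (Finset.sum_le_sum fun q hq => ?_)))
    rw [Finset.card_product]
    have hy : (PI l).mulVec x 0 ≠ 0 := (Finset.mem_filter.1 hq).2.2.1
    exact Nat.mul_le_mul (hFi l hl hy _) (hGi l hl hy _)
  have h2 : ∑ l ∈ LL K, ∑ q ∈ Dy d R ((PI l).mulVec x),
      #(Lam (d - 1) (Cf * H) x) * #(Lam (d - 1 - 1) (Cg * (Cf * H)) x) =
      (∑ l ∈ LL K, #(Dy d R ((PI l).mulVec x))) *
        (#(Lam (d - 1) (Cf * H) x) * #(Lam (d - 1 - 1) (Cg * (Cf * H)) x)) := by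
    rw [Finset.sum_mul]
    refine Finset.sum_congr rfl fun l _ => ?_
    rw [Finset.sum_const, smul_eq_mul]
  rw [h2, hGc] at h1
  have h3 : #(Gd d H p K x) * #G ≤ 2 * ((∑ l ∈ LL K, #(Dy d R ((PI l).mulVec x))) *
      #(Lam (d - 1 - 1) (Cg * (Cf * H)) x)) * #G := by
    refine h1.trans ?_
    calc (∑ l ∈ LL K, #(Dy d R ((PI l).mulVec x))) *
          ((#G + 1) * #(Lam (d - 1 - 1) (Cg * (Cf * H)) x))
        ≤ (∑ l ∈ LL K, #(Dy d R ((PI l).mulVec x))) *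
          ((2 * #G) * #(Lam (d - 1 - 1) (Cg * (Cf * H)) x)) :=
          Nat.mul_le_mul_left _ (Nat.mul_le_mul_right _ (by omega))
      _ = _ := by ring
  exact Nat.le_of_mul_le_mul_right h3 hGpos

end Pool.Agent.H31.PC
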