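import Pool.Agent.H31.PC.Base

/-!
# Rational points on plane curves (MP_6e60ff_nt): targets of the board `pc_modules`
-/

namespace Pool.Agent.H31.PC

open Finset MvPolynomial Pool.Agent.H31.RZ

/-- [NN] the number of monomials -/
def T_NN : Prop := ∀ e : ℕ, NN 2 e * 2 = (e + 1) * (e + 2)

/-- [DBL] doubling for the lattices `Lam` -/
def T_DBL : Prop := ∀ (e k R : ℕ) (x : Fin 3 → ℤ), 1 ≤ k →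
  #(Lam e (k * R) x) ≤ (2 * k) ^ NN 2 e * #(Lam e R x)

/-- [PAK] packing: if all nonzero forms of degree `e` vanishing at `x` have height at least `V` -/
def T_PAK : Prop := ∀ (e V R : ℕ) (x : Fin 3 → ℤ), x ≠ 0 → 1 ≤ V →
  (∀ g : MvPolynomial (Fin 3) ℤ, g.IsHomogeneous e → g ≠ 0 → eval x g = 0 →
    ∃ μ, (V : ℤ) ≤ |g.coeff μ|) →
  #(Lam e R x) * V ^ (NN 2 e - 1) ≤ (NN 2 e * (2 * R + 1) + V) ^ (NN 2 e - 1)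

/-- [TR] the height of a form after a linear substitution -/
def T_TR : Prop := ∀ (d K R : ℕ) (A : Matrix (Fin 3) (Fin 3) ℤ) (f : MvPolynomial (Fin 3) ℤ),
  (∀ i j, |A i j| ≤ K) → f ∈ FF 2 d R → tr A f ∈ FF 2 d (NN 2 d * (3 * K) ^ d * R)

/-- [DIV] division by a variable -/
def T_DIV : Prop := ∀ (d R : ℕ) (P : MvPolynomial (Fin 3) ℤ) (i : Fin 3), P ∈ FF 2 (d + 1) R →
  (∀ μ : Fin 3 →₀ ℕ, μ i = 0 → P.coeff μ = 0) → ∃ h ∈ FF 2 d R, P = X i * h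

/-- [RES] a common zero modulo `q` of two binary forms -/
def T_RES : Prop := ∀ (d e : ℕ) (φ ψ : Polynomial ℤ) (q u v : ℤ), 1 ≤ d → 1 ≤ e →
  φ.natDegree ≤ d → ψ.natDegree ≤ e → q ∣ hv d φ u v → q ∣ hv e ψ u v →
  (∀ t : ℤ, t ∣ q → t ∣ u → t ∣ v → IsUnit t) → q ∣ φ.resultant ψ d e

/-- [RSZ] the size of the resultant -/
def T_RSZ : Prop := ∀ (d e R : ℕ) (φ ψ : Polynomial ℤ), (∀ j, |φ.coeff j| ≤ R) →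
  (∀ j, |ψ.coeff j| ≤ R) → |φ.resultant ψ d e| ≤ (d + e).factorial * R ^ (d + e)

/-- [NZ] good lines for a good form `f` and a form `g` of smaller degree -/
def T_NZ : Prop := ∀ d e : ℕ, 1 ≤ e → e < d → ∃ K : ℕ, 3 ≤ K ∧ ∀ p : ℕ, p.Prime → K ≤ p →
  ∀ f g : MvPolynomial (Fin 3) ℤ, f.IsHomogeneous d → g.IsHomogeneous e → ND p K f →
    rp p f ≠ 0 → rp p g ≠ 0 → ∃ a b s : ℕ, a < K ∧ b < K ∧ s + 1 < K ∧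
      eval ![(a : ℤ), (b : ℤ), 1] g ≠ 0 ∧
      (ln a b s f).resultant (ln a b s g) d e ≠ 0 ∧
      (ln a b (s + 1) f).resultant (ln a b (s + 1) g) d e ≠ 0

/-- [IRR] few forms are not good -/
def T_IRR : Prop := ∀ d K c : ℕ, 3 ≤ d → ∃ C : ℕ, ∀ H p : ℕ, 1 ≤ H → p.Prime → 2 * H < p →
  p ≤ c * H → ({f : MvPolynomial (Fin 3) ℤ | f ∈ FF 2 d H ∧ ¬ ND p K f} : Set _).ncard ≤
    C * H ^ (NN 2 d - 1)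

/-- [DB] the divisor bound -/
def T_DB : Prop := ∀ ε : ℝ, 0 < ε → ∃ C : ℝ, 1 ≤ C ∧ ∀ n : ℕ, 1 ≤ n →
  (#n.divisors : ℝ) ≤ C * (n : ℝ) ^ ε

/-- [OM] powers of the number of prime factors -/
def T_OM : Prop := ∀ (D : ℕ) (ε : ℝ), 0 < ε → ∃ C : ℝ, 1 ≤ C ∧ ∀ n : ℕ, 1 ≤ n →
  (D : ℝ) ^ #n.primeFactors ≤ C * (n : ℝ) ^ ε

/-- [RAD] integers with a given radical -/
def T_RAD : Prop := ∀ ε : ℝ, 0 < ε → ∃ C : ℝ, 1 ≤ C ∧ ∀ k Y : ℕ, 1 ≤ Y →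
  (#{q ∈ Finset.Icc 1 Y | ∏ p ∈ q.primeFactors, p = k} : ℝ) ≤ C * (Y : ℝ) ^ ε

/-- [ROOT] zeros modulo a squarefree number -/
def T_ROOT : Prop := ∀ (d : ℕ) (φ : Polynomial ℤ) (s : ℕ) (u : ℤ) (Y : ℕ), 1 ≤ d →
  φ.natDegree ≤ d → Squarefree s →
  #{v ∈ Finset.Icc (-(Y : ℤ)) Y | (s : ℤ) ∣ hv d φ u v} * s ≤
    d ^ #s.primeFactors * (Nat.gcd u.natAbs s * Nat.gcd φ.content.natAbs s) * (2 * Y + 1 + s)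

/-- [CT] the mean value of the content -/
def T_CT : Prop := ∀ d : ℕ, 2 ≤ d → ∃ C : ℕ, ∀ R : ℕ, 1 ≤ R →
  ∑ φ ∈ PB d R with φ ≠ 0, φ.content.natAbs ≤ C * R ^ (d + 1)

/-- [GS] Pillai's function -/
def T_GS : Prop := ∀ s : ℕ, 1 ≤ s → ∑ k ∈ Finset.Icc 1 s, Nat.gcd k s ≤ s * #s.divisors

/-- [SH] the sum over the forms of height at most `R` -/
def T_SH : Prop := ∀ e : ℕ, ∃ C : ℕ, ∀ R : ℕ, 1 ≤ R →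
  ∑ w ∈ FF 2 e R with w ≠ 0, (((w.support.sup fun μ => (w.coeff μ).natAbs : ℕ) : ℝ) ^
    (NN 2 e - 1))⁻¹ ≤ C * R

/-- [SUM] the main counting lemma -/
def T_SUM : Prop := ∀ (d : ℕ) (ε : ℝ), 2 ≤ d → 0 < ε → ∃ C : ℝ, 1 ≤ C ∧ ∀ R Y : ℕ, 1 ≤ R →
  1 ≤ Y → ((∑ φ ∈ PB d R, ∑ ψ ∈ PB (d - 1) R with φ.resultant ψ d (d - 1) ≠ 0,
    ({y : Fin 3 → ℤ | nm y ≤ Y ∧ Prim y ∧ y 0 ≠ 0 ∧ y 1 ≠ 0 ∧ rd (y 1) ≤ rd (y 0) ∧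
      y 0 ∣ hv d φ (y 1) (y 2) ∧ y 0 ∣ hv (d - 1) ψ (y 1) (y 2)} : Set _).ncard : ℕ) : ℝ) ≤
    C * ((R : ℝ) ^ (2 * d + 1) * Y * ((R : ℝ) * Y) ^ ε)

/-- [ONE] the counting lemma for one form -/
def T_ONE : Prop := ∀ (d : ℕ) (ε : ℝ), 1 ≤ d → 0 < ε → ∃ C : ℝ, 1 ≤ C ∧ ∀ R Y : ℕ, 1 ≤ R →
  1 ≤ Y → ((∑ φ ∈ PB d R with φ ≠ 0,
    ({y : Fin 3 → ℤ | nm y ≤ Y ∧ y 0 ≠ 0 ∧ y 0 ∣ hv d φ (y 1) (y 2)} : Set _).ncard : ℕ) : ℝ) ≤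
    C * ((R : ℝ) ^ (d + 1) * (Y : ℝ) ^ 2 * ((R : ℝ) * Y) ^ ε)

/-- [TWO] a form and two lines determine a point almost uniquely -/
def T_TWO : Prop := ∀ (d e : ℕ) (ε : ℝ), 1 ≤ d → 1 ≤ e → 0 < ε → ∃ C : ℝ, 1 ≤ C ∧
  ∀ (R : ℕ) (w : MvPolynomial (Fin 3) ℤ) (φ₀ φ₁ : Polynomial ℤ), 1 ≤ R → w ∈ FF 2 e R →
    φ₀ ∈ PB d R → φ₁ ∈ PB d R → eval ![0, 0, 1] w ≠ 0 →
    φ₀.resultant (r0 w) d e ≠ 0 → φ₁.resultant (r1 w) d e ≠ 0 →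
    ({y : Fin 3 → ℤ | Prim y ∧ eval y w = 0 ∧ y 0 ∣ hv d φ₀ (y 1) (y 2) ∧
      y 1 ∣ hv d φ₁ (y 0) (y 2)} : Set _).Finite ∧
    (({y : Fin 3 → ℤ | Prim y ∧ eval y w = 0 ∧ y 0 ∣ hv d φ₀ (y 1) (y 2) ∧
      y 1 ∣ hv d φ₁ (y 0) (y 2)} : Set _).ncard : ℝ) ≤ C * (R : ℝ) ^ ε

/-- [FIB] forms vanishing at `x` with given restriction to one line -/
def T_FIB : Prop := ∀ d K : ℕ, 1 ≤ d → ∃ C : ℕ, 1 ≤ C ∧ ∀ (R : ℕ) (a b s s' : ℤ),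
  |a| ≤ K → |b| ≤ K → |s| ≤ K → |s'| ≤ K → (s' - s) ^ 2 = 1 → ∀ (x : Fin 3 → ℤ)
  (φ : Polynomial ℤ), (MI a b s s').mulVec x 0 ≠ 0 →
  ({f : MvPolynomial (Fin 3) ℤ | f ∈ FF 2 d R ∧ eval x f = 0 ∧ ln a b s f = φ} : Set _).ncard ≤
    #(Lam (d - 1) (C * R) x)

/-- [FIT] forms vanishing at `x` with given restrictions to two lines -/
def T_FIT : Prop := ∀ d K : ℕ, 2 ≤ d → ∃ C : ℕ, 1 ≤ C ∧ ∀ (R : ℕ) (a b s s' : ℤ),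
  |a| ≤ K → |b| ≤ K → |s| ≤ K → |s'| ≤ K → (s' - s) ^ 2 = 1 → ∀ (x : Fin 3 → ℤ)
  (φ φ' : Polynomial ℤ), (MI a b s s').mulVec x 0 ≠ 0 → (MI a b s s').mulVec x 1 ≠ 0 →
  ({f : MvPolynomial (Fin 3) ℤ | f ∈ FF 2 d R ∧ eval x f = 0 ∧ ln a b s f = φ ∧
    ln a b s' f = φ'} : Set _).ncard ≤ #(Lam (d - 2) (C * R) x)

end Pool.Agent.H31.PC
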