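import Pool.Agent.H31.PC.Pt

/-!
# Rational points on plane curves (MP_6e60ff_nt): sums over the points
-/

namespace Pool.Agent.H31.PC

open Finset MvPolynomial Pool.Agent.H31.RZ

attribute [local irreducible] FF

/-- all nonzero forms of degree `e` vanishing at `x` have height at least `V` -/
def Hi (e V : ℕ) (x : Fin 3 → ℤ) : Prop :=
  ∀ g : MvPolynomial (Fin 3) ℤ, g.IsHomogeneous e → g ≠ 0 → eval x g = 0 →
    ∃ μ, (V : ℤ) ≤ |g.coeff μ|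

theorem PI_inj {K : ℕ} {l : Par} (hl : l ∈ LL K) : Function.Injective (PI l).mulVec := by
  intro x x' h
  rw [← PM_PI_mulVec hl x, h, PM_PI_mulVec hl]

theorem card_le_ncard {S : Finset (Fin 3 → ℤ)} {X K : ℕ} {l : Par} (hl : l ∈ LL K)
    (hS : ∀ x ∈ S, nm x ≤ X) (Q : (Fin 3 → ℤ) → Prop)
    (hQ : ∀ x ∈ S, Q ((PI l).mulVec x)) :
    #S ≤ ({y : Fin 3 → ℤ | nm y ≤ 3 * (K + 1) ^ 2 * X ∧ Q y} : Set _).ncard := by
  rw [← Set.ncard_coe_finset]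
  refine Set.ncard_le_ncard_of_injOn (PI l).mulVec ?_ ((PI_inj hl).injOn) ?_
  · intro x hx
    refine ⟨(nm_mulVec (PI_le hl) x).trans (Nat.mul_le_mul_left _ (hS x (Finset.mem_coe.1 hx))),
      hQ x (Finset.mem_coe.1 hx)⟩
  · exact (Finset.finite_toSet (bx 3 (3 * (K + 1) ^ 2 * X))).subset fun y hy =>
      Finset.mem_coe.2 (mem_bx.2 hy.1)

theorem sum_Ay {S : Finset (Fin 3 → ℤ)} {X K d R : ℕ} {l : Par} (hl : l ∈ LL K)
    (hS : ∀ x ∈ S, nm x ≤ X) :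
    ∑ x ∈ S, #(Ay d R ((PI l).mulVec x)) ≤ ∑ φ ∈ PB d R with φ ≠ 0,
      ({y : Fin 3 → ℤ | nm y ≤ 3 * (K + 1) ^ 2 * X ∧ y 0 ≠ 0 ∧
        y 0 ∣ hv d φ (y 1) (y 2)} : Set _).ncard := by
  classical
  have h1 : ∀ x, #(Ay d R ((PI l).mulVec x)) =
      #(((PB d R).filter fun φ => φ ≠ 0).filter fun φ => (PI l).mulVec x 0 ≠ 0 ∧
        (PI l).mulVec x 0 ∣ hv d φ ((PI l).mulVec x 1) ((PI l).mulVec x 2)) := by
    intro x
    rw [Finset.filter_filter, Ay]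
  have h2 : ∑ x ∈ S, #(Ay d R ((PI l).mulVec x)) = ∑ φ ∈ (PB d R).filter fun φ => φ ≠ 0,
      #(S.filter fun x => (PI l).mulVec x 0 ≠ 0 ∧
        (PI l).mulVec x 0 ∣ hv d φ ((PI l).mulVec x 1) ((PI l).mulVec x 2)) := by
    rw [Finset.sum_congr rfl fun x _ => h1 x]
    simp only [Finset.card_filter]
    rw [Finset.sum_comm]
  rw [h2]
  refine Finset.sum_le_sum fun φ _ => ?_
  exact card_le_ncard hl (fun x hx => hS x (Finset.mem_filter.1 hx).1)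
    (fun y => y 0 ≠ 0 ∧ y 0 ∣ hv d φ (y 1) (y 2)) fun x hx => (Finset.mem_filter.1 hx).2

theorem sum_Dy {S : Finset (Fin 3 → ℤ)} {X K d R : ℕ} {l : Par} (hl : l ∈ LL K)
    (hS : ∀ x ∈ S, nm x ≤ X ∧ Prim x) :
    ∑ x ∈ S, #(Dy d R ((PI l).mulVec x)) ≤
      ∑ φ ∈ PB d R, ∑ ψ ∈ PB (d - 1) R with φ.resultant ψ d (d - 1) ≠ 0,
      ({y : Fin 3 → ℤ | nm y ≤ 3 * (K + 1) ^ 2 * X ∧ Prim y ∧ y 0 ≠ 0 ∧ y 1 ≠ 0 ∧
        rd (y 1) ≤ rd (y 0) ∧ y 0 ∣ hv d φ (y 1) (y 2) ∧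
        y 0 ∣ hv (d - 1) ψ (y 1) (y 2)} : Set _).ncard := by
  classical
  have h1 : ∀ x, #(Dy d R ((PI l).mulVec x)) =
      #(((PB d R ×ˢ PB (d - 1) R).filter fun q => q.1.resultant q.2 d (d - 1) ≠ 0).filter
        fun q => (PI l).mulVec x 0 ≠ 0 ∧ (PI l).mulVec x 1 ≠ 0 ∧
        rd ((PI l).mulVec x 1) ≤ rd ((PI l).mulVec x 0) ∧
        (PI l).mulVec x 0 ∣ hv d q.1 ((PI l).mulVec x 1) ((PI l).mulVec x 2) ∧
        (PI l).mulVec x 0 ∣ hv (d - 1) q.2 ((PI l).mulVec x 1) ((PI l).mulVec x 2)) := by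
    intro x
    rw [Finset.filter_filter, Dy]
  have h2 : ∑ x ∈ S, #(Dy d R ((PI l).mulVec x)) =
      ∑ q ∈ (PB d R ×ˢ PB (d - 1) R).filter fun q => q.1.resultant q.2 d (d - 1) ≠ 0,
      #(S.filter fun x => (PI l).mulVec x 0 ≠ 0 ∧ (PI l).mulVec x 1 ≠ 0 ∧
        rd ((PI l).mulVec x 1) ≤ rd ((PI l).mulVec x 0) ∧
        (PI l).mulVec x 0 ∣ hv d q.1 ((PI l).mulVec x 1) ((PI l).mulVec x 2) ∧
        (PI l).mulVec x 0 ∣ hv (d - 1) q.2 ((PI l).mulVec x 1) ((PI l).mulVec x 2)) := by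
    rw [Finset.sum_congr rfl fun x _ => h1 x]
    simp only [Finset.card_filter]
    rw [Finset.sum_comm]
  rw [h2, Finset.sum_filter, Finset.sum_product]
  refine Finset.sum_le_sum fun φ _ => ?_
  rw [Finset.sum_filter]
  refine Finset.sum_le_sum fun ψ _ => ?_
  split_ifs with h
  · refine card_le_ncard hl (fun x hx => (hS x (Finset.mem_filter.1 hx).1).1)
      (fun y => Prim y ∧ y 0 ≠ 0 ∧ y 1 ≠ 0 ∧ rd (y 1) ≤ rd (y 0) ∧ y 0 ∣ hv d φ (y 1) (y 2) ∧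
        y 0 ∣ hv (d - 1) ψ (y 1) (y 2)) fun x hx => ⟨?_, (Finset.mem_filter.1 hx).2⟩
    exact prim_mulVec (PM_PI hl) (hS x (Finset.mem_filter.1 hx).1).2
  · exact le_rfl

end Pool.Agent.H31.PC
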