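import Pool.Agent.H31.PC.Tota

/-!
# Rational points on plane curves (MP_6e60ff_nt): the points off the curves of small height
-/

namespace Pool.Agent.H31.PC

open Finset MvPolynomial Pool.Agent.H31.RZ

attribute [local irreducible] FF

theorem scale {a b h x ε : ℝ} (ha : 0 ≤ a) (hb : 0 ≤ b) (hh : 0 ≤ h) (hx : 0 ≤ x) (m n : ℕ) :
    (a * h) ^ m * (b * x) ^ n * ((a * h) * (b * x)) ^ ε =
      (a ^ m * b ^ n * (a * b) ^ ε) * ((h * x) ^ ε * (h ^ m * x ^ n)) := by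
  have e1 : (a * h) * (b * x) = (a * b) * (h * x) := by ring
  rw [e1, Real.mul_rpow (mul_nonneg ha hb) (mul_nonneg hh hx), mul_pow, mul_pow]
  ring

theorem prim_ne {x : Fin 3 → ℤ} (h : Prim x) : x ≠ 0 := by
  rintro rfl
  have h1 := prim_unit h 0 (by simp) (by simp) (by simp)
  simp at h1

/-- few forms of degree `e` through a point of large type -/
theorem lam_le (hPAK : T_PAK) {e V H c m : ℕ} (hm : m = NN 2 e - 1) {x : Fin 3 → ℤ}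
    (hx : Prim x) (hV : 1 ≤ V) (hVH : V ≤ H) (hxH : Hi e V x) :
    (#(Lam e (c * H) x) : ℝ) ≤ ((NN 2 e * (2 * c + 1) + 1 : ℕ) : ℝ) ^ m * ((H : ℝ) / V) ^ m := by
  have hVr : (0 : ℝ) < V := by exact_mod_cast hV
  have hH : 1 ≤ H := hV.trans hVH
  have h1 := hPAK e V (c * H) x (prim_ne hx) hV hxH
  have h2 : NN 2 e * (2 * (c * H) + 1) + V ≤ (NN 2 e * (2 * c + 1) + 1) * H := by
    have h3 : NN 2 e * (2 * (c * H) + 1) ≤ NN 2 e * ((2 * c + 1) * H) :=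
      Nat.mul_le_mul_left _ (by nlinarith)
    calc NN 2 e * (2 * (c * H) + 1) + V ≤ NN 2 e * ((2 * c + 1) * H) + H :=
          Nat.add_le_add h3 hVH
      _ = _ := by ring
  have h3 := h1.trans (Nat.pow_le_pow_left h2 _)
  rw [← hm] at h3
  have h4 : (#(Lam e (c * H) x) : ℝ) * (V : ℝ) ^ m ≤
      (((NN 2 e * (2 * c + 1) + 1 : ℕ) : ℝ) * H) ^ m := by exact_mod_cast h3
  rw [div_pow, ← mul_div_assoc, le_div_iff₀ (pow_pos hVr m), ← mul_pow]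
  exact h4

/-- the forms with a zero off the curves of small height -/
def B1 (d H X V p K : ℕ) : Set (MvPolynomial (Fin 3) ℤ) :=
  {f | f ∈ FF 2 d H ∧ f ≠ 0 ∧ ND p K f ∧ ∃ x : Fin 3 → ℤ, Prim x ∧ nm x ≤ X ∧
    Hi (d - 2) V x ∧ eval x f = 0}

/-- the bound for one point -/
theorem pt_le (hTR : T_TR) (hRES : T_RES) {d K K₁ Cf Cg : ℕ} (hd : 3 ≤ d) (hK3 : 2 ≤ K)
    (hK : K₁ ≤ K)
    (hF : ∀ (R : ℕ) (a b s s' : ℤ),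
      |a| ≤ K → |b| ≤ K → |s| ≤ K → |s'| ≤ K → (s' - s) ^ 2 = 1 → ∀ (x : Fin 3 → ℤ)
      (φ : Polynomial ℤ), (MI a b s s').mulVec x 0 ≠ 0 →
      ({f : MvPolynomial (Fin 3) ℤ | f ∈ FF 2 d R ∧ eval x f = 0 ∧ ln a b s f = φ} :
        Set _).ncard ≤ #(Lam (d - 1) (Cf * R) x))
    (hG : ∀ (R : ℕ) (a b s s' : ℤ),
      |a| ≤ K → |b| ≤ K → |s| ≤ K → |s'| ≤ K → (s' - s) ^ 2 = 1 → ∀ (x : Fin 3 → ℤ)
      (φ : Polynomial ℤ), (MI a b s s').mulVec x 0 ≠ 0 →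
      ({f : MvPolynomial (Fin 3) ℤ | f ∈ FF 2 (d - 1) R ∧ eval x f = 0 ∧ ln a b s f = φ} :
        Set _).ncard ≤ #(Lam (d - 1 - 1) (Cg * R) x))
    {H p R : ℕ} (hNZ : ∀ f g : MvPolynomial (Fin 3) ℤ, f.IsHomogeneous d →
      g.IsHomogeneous (d - 1) → ND p K₁ f →
      rp p f ≠ 0 → rp p g ≠ 0 → ∃ a b s : ℕ, a < K₁ ∧ b < K₁ ∧ s + 1 < K₁ ∧
        eval ![(a : ℤ), (b : ℤ), 1] g ≠ 0 ∧
        (ln a b s f).resultant (ln a b s g) d (d - 1) ≠ 0 ∧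
        (ln a b (s + 1) f).resultant (ln a b (s + 1) g) d (d - 1) ≠ 0)
    (hHp : H < p) (hCp : Cf * H < p)
    (hR : NN 2 d * (3 * (K + 1)) ^ d * H ≤ R)
    (hR' : NN 2 (d - 1) * (3 * (K + 1)) ^ (d - 1) * (Cf * H) ≤ R) {x : Fin 3 → ℤ}
    (hx : Prim x) {Λ : ℝ} (hΛ0 : 0 ≤ Λ)
    (hΛ : (#(Lam (d - 1 - 1) (Cg * (Cf * H)) x) : ℝ) ≤ Λ) :
    (#(Gd d H p K x) : ℝ) ≤ ∑ l ∈ LL K, (#(Ay d R ((PI l).mulVec x)) : ℝ) +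
      2 * Λ * ∑ l ∈ LL K, (#(Dy d R ((PI l).mulVec x)) : ℝ) := by
  have hsum1 : (0 : ℝ) ≤ ∑ l ∈ LL K, (#(Ay d R ((PI l).mulVec x)) : ℝ) :=
    Finset.sum_nonneg fun _ _ => Nat.cast_nonneg _
  have hsum2 : (0 : ℝ) ≤ ∑ l ∈ LL K, (#(Dy d R ((PI l).mulVec x)) : ℝ) :=
    Finset.sum_nonneg fun _ _ => Nat.cast_nonneg _
  by_cases hL : Lam (d - 1) (Cf * H) x ⊆ {0}
  · obtain ⟨l, hl, hy⟩ := exists_par (K := K) hK3 (prim_ne hx)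
    have h1 := caseA hTR (K := K) (p := p) hF hR hl hy hL
    have h2 : (#(Ay d R ((PI l).mulVec x)) : ℝ) ≤
        ∑ l ∈ LL K, (#(Ay d R ((PI l).mulVec x)) : ℝ) :=
      Finset.single_le_sum (f := fun l => (#(Ay d R ((PI l).mulVec x)) : ℝ))
        (fun _ _ => Nat.cast_nonneg _) hl
    have h3 : (#(Gd d H p K x) : ℝ) ≤ #(Ay d R ((PI l).mulVec x)) := Nat.cast_le.2 h1
    have h4 : 0 ≤ 2 * Λ * ∑ l ∈ LL K, (#(Dy d R ((PI l).mulVec x)) : ℝ) :=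
      mul_nonneg (mul_nonneg zero_le_two hΛ0) hsum2
    linarith
  · have h1 := caseB hTR hRES hd hK hF hG hNZ hHp hCp hR hR' hx hL
    have h3 : (#(Gd d H p K x) : ℝ) ≤ 2 * ((∑ l ∈ LL K, (#(Dy d R ((PI l).mulVec x)) : ℝ)) *
        (#(Lam (d - 1 - 1) (Cg * (Cf * H)) x) : ℝ)) := by
      have h2 : (#(Gd d H p K x) : ℝ) ≤ ((2 * ((∑ l ∈ LL K, #(Dy d R ((PI l).mulVec x))) *
        #(Lam (d - 1 - 1) (Cg * (Cf * H)) x)) : ℕ) : ℝ) := Nat.cast_le.2 h1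
      push_cast at h2
      exact h2
    have h4 := mul_le_mul_of_nonneg_left hΛ hsum2
    nlinarith

/-- the sum over the points -/
theorem B1_le {d H X V p K R : ℕ} {Λ a b : ℝ} (hΛ : 0 ≤ Λ)
    (hpt : ∀ x : Fin 3 → ℤ, Prim x → Hi (d - 2) V x →
      (#(Gd d H p K x) : ℝ) ≤ ∑ l ∈ LL K, (#(Ay d R ((PI l).mulVec x)) : ℝ) +
      2 * Λ * ∑ l ∈ LL K, (#(Dy d R ((PI l).mulVec x)) : ℝ))
    (ha : ((∑ φ ∈ PB d R with φ ≠ 0,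
      ({y : Fin 3 → ℤ | nm y ≤ 3 * (K + 1) ^ 2 * X ∧ y 0 ≠ 0 ∧
        y 0 ∣ hv d φ (y 1) (y 2)} : Set _).ncard : ℕ) : ℝ) ≤ a)
    (hb : ((∑ φ ∈ PB d R, ∑ ψ ∈ PB (d - 1) R with φ.resultant ψ d (d - 1) ≠ 0,
      ({y : Fin 3 → ℤ | nm y ≤ 3 * (K + 1) ^ 2 * X ∧ Prim y ∧ y 0 ≠ 0 ∧ y 1 ≠ 0 ∧
        rd (y 1) ≤ rd (y 0) ∧ y 0 ∣ hv d φ (y 1) (y 2) ∧
        y 0 ∣ hv (d - 1) ψ (y 1) (y 2)} : Set _).ncard : ℕ) : ℝ) ≤ b) :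
    ((B1 d H X V p K).ncard : ℝ) ≤ #(LL K) * a + 2 * Λ * (#(LL K) * b) := by
  classical
  set S : Finset (Fin 3 → ℤ) := (bx 3 X).filter fun x => Prim x ∧ Hi (d - 2) V x with hS
  have hSm : ∀ x ∈ S, nm x ≤ X ∧ Prim x ∧ Hi (d - 2) V x := by
    intro x hx
    rw [hS, Finset.mem_filter, mem_bx] at hx
    exact hx
  have hsub : B1 d H X V p K ⊆ ((S.biUnion fun x => Gd d H p K x : Finset _) : Set _) := by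
    rintro f ⟨hf, hf0, hfN, x, hxp, hxX, hxH, hfx⟩
    refine Finset.mem_coe.2 (Finset.mem_biUnion.2 ⟨x, ?_, Finset.mem_filter.2
      ⟨hf, hf0, hfN, hfx⟩⟩)
    rw [hS, Finset.mem_filter, mem_bx]
    exact ⟨hxX, hxp, hxH⟩
  have h1 : ((B1 d H X V p K).ncard : ℝ) ≤ ∑ x ∈ S, (#(Gd d H p K x) : ℝ) := by
    have h2 := Set.ncard_le_ncard hsub (Finset.finite_toSet _)
    rw [Set.ncard_coe_finset] at h2
    exact_mod_cast h2.trans Finset.card_biUnion_le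
  have hAy : ∀ l ∈ LL K, ∑ x ∈ S, (#(Ay d R ((PI l).mulVec x)) : ℝ) ≤ a := by
    intro l hl
    refine le_trans ?_ ha
    exact_mod_cast sum_Ay (d := d) (R := R) hl fun x hx => (hSm x hx).1
  have hDy : ∀ l ∈ LL K, ∑ x ∈ S, (#(Dy d R ((PI l).mulVec x)) : ℝ) ≤ b := by
    intro l hl
    refine le_trans ?_ hb
    exact_mod_cast sum_Dy (d := d) (R := R) hl fun x hx => ⟨(hSm x hx).1, (hSm x hx).2.1⟩
  have h5 : ∑ x ∈ S, (#(Gd d H p K x) : ℝ) ≤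
      ∑ l ∈ LL K, ∑ x ∈ S, (#(Ay d R ((PI l).mulVec x)) : ℝ) +
      2 * Λ * ∑ l ∈ LL K, ∑ x ∈ S, (#(Dy d R ((PI l).mulVec x)) : ℝ) := by
    refine (Finset.sum_le_sum fun x hx => hpt x (hSm x hx).2.1 (hSm x hx).2.2).trans
      (le_of_eq ?_)
    rw [Finset.sum_add_distrib, ← Finset.mul_sum, Finset.sum_comm (s := S) (t := LL K),
      Finset.sum_comm (s := S) (t := LL K)]
  have h6 := Finset.sum_le_sum hAy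
  have h7 := Finset.sum_le_sum hDy
  rw [Finset.sum_const, nsmul_eq_mul] at h6 h7
  have h8 := mul_le_mul_of_nonneg_left h7 (mul_nonneg zero_le_two hΛ)
  linarith

theorem tot1 (hTR : T_TR) (hRES : T_RES) (hNZ : T_NZ) (hPAK : T_PAK) (hFIB : T_FIB)
    (hONE : T_ONE) (hSUM : T_SUM) {d : ℕ} (hd : 3 ≤ d) :
    ∃ K₁ : ℕ, ∀ K : ℕ, K₁ ≤ K → ∀ ε : ℝ, 0 < ε → ∃ (c : ℕ) (C : ℝ), 1 ≤ c ∧ 1 ≤ C ∧
    ∀ H X V p : ℕ, 1 ≤ X → 1 ≤ V → V ≤ H → p.Prime → K ≤ p → c * H < p →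
      ((B1 d H X V p K).ncard : ℝ) ≤ C * (((H : ℝ) * X) ^ ε * ((H : ℝ) ^ (d + 1) * (X : ℝ) ^ 2 +
        ((H : ℝ) / V) ^ (NN 2 (d - 2) - 1) * ((H : ℝ) ^ (2 * d + 1) * X))) := by
  obtain ⟨K₁, hK₁3, hK₁⟩ := hNZ d (d - 1) (by omega) (by omega)
  refine ⟨K₁, fun K hK ε hε => ?_⟩
  obtain ⟨Cf, hCf1, hF⟩ := hFIB d K (by omega)
  obtain ⟨Cg, hCg1, hG⟩ := hFIB (d - 1) K (by omega)
  obtain ⟨C₁, hC₁1, hC₁⟩ := hONE d ε (by omega) hε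
  obtain ⟨C₂, hC₂1, hC₂⟩ := hSUM d ε (by omega) hε
  obtain ⟨cR, hcR1, hcRa, hcRb⟩ : ∃ cR : ℕ, 1 ≤ cR ∧ NN 2 d * (3 * (K + 1)) ^ d ≤ cR ∧
      NN 2 (d - 1) * (3 * (K + 1)) ^ (d - 1) * Cf ≤ cR :=
    ⟨NN 2 d * (3 * (K + 1)) ^ d + NN 2 (d - 1) * (3 * (K + 1)) ^ (d - 1) * Cf + 1,
      by omega, by omega, by omega⟩
  obtain ⟨cY, hcY⟩ : ∃ cY : ℕ, cY = 3 * (K + 1) ^ 2 := ⟨_, rfl⟩
  have hcY1 : 1 ≤ cY := by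
    rw [hcY]
    exact Nat.mul_pos (by norm_num) (pow_pos (by omega) 2)
  obtain ⟨m, hm⟩ : ∃ m, m = NN 2 (d - 2) - 1 := ⟨_, rfl⟩
  obtain ⟨cL, hcL⟩ : ∃ cL : ℕ, cL = NN 2 (d - 2) * (2 * (Cg * Cf) + 1) + 1 := ⟨_, rfl⟩
  have hcR0 : (0 : ℝ) ≤ cR := Nat.cast_nonneg _
  have hcY0 : (0 : ℝ) ≤ cY := Nat.cast_nonneg _
  have hcL0 : (0 : ℝ) ≤ cL := Nat.cast_nonneg _
  obtain ⟨A, hA⟩ : ∃ A : ℝ, A = (cR : ℝ) ^ (d + 1) * (cY : ℝ) ^ 2 * ((cR : ℝ) * cY) ^ ε :=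
    ⟨_, rfl⟩
  obtain ⟨D, hD⟩ : ∃ D : ℝ, D = (cR : ℝ) ^ (2 * d + 1) * (cY : ℝ) ^ 1 * ((cR : ℝ) * cY) ^ ε :=
    ⟨_, rfl⟩
  have hA0 : 0 ≤ A := by
    rw [hA]
    exact mul_nonneg (mul_nonneg (pow_nonneg hcR0 _) (pow_nonneg hcY0 _))
      (Real.rpow_nonneg (mul_nonneg hcR0 hcY0) _)
  have hD0 : 0 ≤ D := by
    rw [hD]
    exact mul_nonneg (mul_nonneg (pow_nonneg hcR0 _) (pow_nonneg hcY0 _))
      (Real.rpow_nonneg (mul_nonneg hcR0 hcY0) _)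
  have hLK : (0 : ℝ) ≤ #(LL K) := Nat.cast_nonneg _
  have q1 : 0 ≤ #(LL K) * C₁ * A := mul_nonneg (mul_nonneg hLK (by linarith)) hA0
  have q2 : 0 ≤ 2 * (cL : ℝ) ^ m * (#(LL K) * C₂ * D) :=
    mul_nonneg (mul_nonneg zero_le_two (pow_nonneg hcL0 _))
      (mul_nonneg (mul_nonneg hLK (by linarith)) hD0)
  refine ⟨Cf, #(LL K) * C₁ * A + 2 * (cL : ℝ) ^ m * (#(LL K) * C₂ * D) + 1, hCf1, ?_,
    fun H X V p hX hV hVH hp hKp hcp => ?_⟩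
  · linarith
  have hH : 1 ≤ H := hV.trans hVH
  have hHp : H < p := lt_of_le_of_lt (Nat.le_mul_of_pos_left _ hCf1) hcp
  have hHr : (0 : ℝ) < H := by exact_mod_cast hH
  have hXr : (0 : ℝ) < X := by exact_mod_cast hX
  have hVr : (0 : ℝ) < V := by exact_mod_cast hV
  have hR1 : 1 ≤ cR * H := Nat.mul_pos hcR1 hH
  have hY1 : 1 ≤ cY * X := Nat.mul_pos hcY1 hX
  have hRa : NN 2 d * (3 * (K + 1)) ^ d * H ≤ cR * H := Nat.mul_le_mul_right _ hcRa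
  have hRb : NN 2 (d - 1) * (3 * (K + 1)) ^ (d - 1) * (Cf * H) ≤ cR * H := by
    rw [← mul_assoc]
    exact Nat.mul_le_mul_right _ hcRb
  have hHV : 0 ≤ (H : ℝ) / V := div_nonneg hHr.le hVr.le
  obtain ⟨Λ, hΛ⟩ : ∃ Λ : ℝ, Λ = (cL : ℝ) ^ m * ((H : ℝ) / V) ^ m := ⟨_, rfl⟩
  have hΛ0 : 0 ≤ Λ := by
    rw [hΛ]
    exact mul_nonneg (pow_nonneg hcL0 _) (pow_nonneg hHV _)
  have hpt : ∀ x : Fin 3 → ℤ, Prim x → Hi (d - 2) V x →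
      (#(Gd d H p K x) : ℝ) ≤ ∑ l ∈ LL K, (#(Ay d (cR * H) ((PI l).mulVec x)) : ℝ) +
      2 * Λ * ∑ l ∈ LL K, (#(Dy d (cR * H) ((PI l).mulVec x)) : ℝ) := by
    intro x hxp hxH
    refine pt_le hTR hRES hd (by omega) hK hF hG (fun f g => hK₁ p hp (hK.trans hKp) f g) hHp
      hcp hRa hRb hxp hΛ0 ?_
    have e : d - 1 - 1 = d - 2 := by omega
    rw [e, ← mul_assoc, hΛ, hcL]
    exact lam_le hPAK hm hxp hV hVH hxH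
  have ha := hC₁ (cR * H) (cY * X) hR1 hY1
  have hb := hC₂ (cR * H) (cY * X) hR1 hY1
  rw [Nat.cast_mul cR H, Nat.cast_mul cY X, scale hcR0 hcY0 hHr.le hXr.le, ← hA] at ha
  rw [Nat.cast_mul cR H, Nat.cast_mul cY X] at hb
  have hs := scale (ε := ε) hcR0 hcY0 hHr.le hXr.le (2 * d + 1) 1
  rw [pow_one (cY * X : ℝ), ← hD, pow_one (X : ℝ)] at hs
  rw [hs] at hb
  have h1 := B1_le (X := X) (a := C₁ * (A * (((H : ℝ) * X) ^ ε * ((H : ℝ) ^ (d + 1) *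
    (X : ℝ) ^ 2)))) (b := C₂ * (D * (((H : ℝ) * X) ^ ε * ((H : ℝ) ^ (2 * d + 1) * X))))
    hΛ0 hpt (by rw [← hcY]; exact ha) (by rw [← hcY]; exact hb)
  rw [← hm]
  obtain ⟨P, hP⟩ : ∃ P : ℝ, P = (H : ℝ) ^ (d + 1) * (X : ℝ) ^ 2 := ⟨_, rfl⟩
  obtain ⟨Q, hQ⟩ : ∃ Q : ℝ, Q = (H : ℝ) ^ (2 * d + 1) * (X : ℝ) := ⟨_, rfl⟩
  obtain ⟨E, hE⟩ : ∃ E : ℝ, E = ((H : ℝ) * X) ^ ε := ⟨_, rfl⟩
  obtain ⟨U, hU⟩ : ∃ U : ℝ, U = ((H : ℝ) / V) ^ m := ⟨_, rfl⟩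
  have hP0 : 0 ≤ P := by rw [hP]; positivity
  have hQ0 : 0 ≤ Q := by rw [hQ]; positivity
  have hE0 : 0 ≤ E := by rw [hE]; exact Real.rpow_nonneg (mul_nonneg hHr.le hXr.le) _
  have hU0 : 0 ≤ U := by rw [hU]; exact pow_nonneg hHV _
  rw [hΛ, ← hU, ← hP, ← hQ, ← hE] at h1
  rw [← hU, ← hP, ← hQ, ← hE]
  obtain ⟨c1, hc1⟩ : ∃ c1 : ℝ, c1 = #(LL K) * C₁ * A := ⟨_, rfl⟩
  obtain ⟨c2, hc2⟩ : ∃ c2 : ℝ, c2 = 2 * (cL : ℝ) ^ m * (#(LL K) * C₂ * D) := ⟨_, rfl⟩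
  have h2 : (#(LL K) : ℝ) * (C₁ * (A * (E * P))) +
      2 * ((cL : ℝ) ^ m * U) * (#(LL K) * (C₂ * (D * (E * Q)))) =
      c1 * (E * P) + c2 * (E * (U * Q)) := by
    rw [hc1, hc2]
    ring
  rw [h2] at h1
  rw [← hc1] at q1 ⊢
  rw [← hc2] at q2 ⊢
  have g1 : 0 ≤ E * P := mul_nonneg hE0 hP0
  have g2 : 0 ≤ E * (U * Q) := mul_nonneg hE0 (mul_nonneg hU0 hQ0)
  have h3 : (c1 + c2 + 1) * (E * (P + U * Q)) =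
      c1 * (E * P) + c2 * (E * (U * Q)) + (c1 * (E * (U * Q)) + c2 * (E * P) +
        (E * P + E * (U * Q))) := by ring
  rw [h3]
  have h4 := mul_nonneg q1 g2
  have h5 := mul_nonneg q2 g1
  linarith

end Pool.Agent.H31.PC
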