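import Pool.Agent.H31.PC.Alg
import Pool.Agent.H31.PC.Targets

/-!
# Rational points on plane curves (MP_6e60ff_nt): vectors, parameters, heights
-/

namespace Pool.Agent.H31.PC

open Finset MvPolynomial Pool.Agent.H31.RZ

theorem prim_of_dvd {m : ℕ} {x y : Fin m → ℤ} (hx : Prim x)
    (h : ∀ t : ℤ, (∀ i, t ∣ y i) → ∀ i, t ∣ x i) : Prim y := by
  have h1 : Finset.univ.gcd y ∣ Finset.univ.gcd x :=
    Finset.dvd_gcd fun i _ => h _ (fun j => Finset.gcd_dvd (Finset.mem_univ j)) i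
  have hx' : Finset.univ.gcd x = 1 := hx
  rw [hx'] at h1
  have h2 := Finset.normalize_gcd (s := Finset.univ) (f := y)
  change Finset.univ.gcd y = 1
  rw [← h2]
  exact normalize_eq_one.2 (isUnit_of_dvd_one h1)

theorem prim_mulVec {A B : Matrix (Fin 3) (Fin 3) ℤ} (hAB : A * B = 1) {x : Fin 3 → ℤ}
    (hx : Prim x) : Prim (B.mulVec x) := by
  refine prim_of_dvd hx fun t ht i => ?_
  have h1 : A.mulVec (B.mulVec x) = x := by
    rw [Matrix.mulVec_mulVec, hAB, Matrix.one_mulVec]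
  rw [← h1]
  change t ∣ ∑ j, A i j * B.mulVec x j
  exact Finset.dvd_sum fun j _ => (ht j).mul_left _

theorem prim_unit {y : Fin 3 → ℤ} (hy : Prim y) (t : ℤ) (h0 : t ∣ y 0) (h1 : t ∣ y 1)
    (h2 : t ∣ y 2) : IsUnit t := by
  have h3 : t ∣ Finset.univ.gcd y := Finset.dvd_gcd fun i _ => by
    fin_cases i
    · exact h0
    · exact h1
    · exact h2
  have hy' : Finset.univ.gcd y = 1 := hy
  rw [hy'] at h3
  exact isUnit_of_dvd_one h3

theorem nm_mulVec {A : Matrix (Fin 3) (Fin 3) ℤ} {K : ℕ} (hA : ∀ i j, |A i j| ≤ K)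
    (x : Fin 3 → ℤ) : nm (A.mulVec x) ≤ 3 * K * nm x := by
  rw [nm_le_iff]
  intro i
  change |∑ j, A i j * x j| ≤ _
  refine (Finset.abs_sum_le_sum_abs _ _).trans ?_
  have h1 : ∀ j ∈ (Finset.univ : Finset (Fin 3)), |A i j * x j| ≤ (K : ℤ) * nm x := by
    intro j _
    rw [abs_mul]
    exact mul_le_mul (hA i j) (abs_le_nm x j) (abs_nonneg _) (by positivity)
  refine (Finset.sum_le_sum h1).trans (le_of_eq ?_)
  rw [Finset.sum_const, Finset.card_univ, Fintype.card_fin, nsmul_eq_mul]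
  push_cast
  ring

/-- the parameters -/
abbrev Par := ℕ × ℕ × ℕ × ℕ

def PM (l : Par) : Matrix (Fin 3) (Fin 3) ℤ := MM l.1 l.2.1 l.2.2.1 l.2.2.2
def PI (l : Par) : Matrix (Fin 3) (Fin 3) ℤ := MI l.1 l.2.1 l.2.2.1 l.2.2.2

/-- the finite set of parameters -/
def LL (K : ℕ) : Finset Par :=
  (Finset.range K ×ˢ Finset.range K ×ˢ Finset.range K ×ˢ Finset.range K).filter
    fun l => l.2.2.2 = l.2.2.1 + 1 ∨ l.2.2.1 = l.2.2.2 + 1

theorem mem_LL {K : ℕ} {l : Par} : l ∈ LL K ↔ (l.1 < K ∧ l.2.1 < K ∧ l.2.2.1 < K ∧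
    l.2.2.2 < K) ∧ (l.2.2.2 = l.2.2.1 + 1 ∨ l.2.2.1 = l.2.2.2 + 1) := by
  unfold LL
  simp only [Finset.mem_filter, Finset.mem_product, Finset.mem_range]

theorem LL_sq {K : ℕ} {l : Par} (h : l ∈ LL K) : ((l.2.2.2 : ℤ) - l.2.2.1) ^ 2 = 1 := by
  rcases (mem_LL.1 h).2 with h | h <;> rw [h] <;> push_cast <;> ring

theorem PM_PI {K : ℕ} {l : Par} (h : l ∈ LL K) : PM l * PI l = 1 := MM_MI (LL_sq h)
theorem PI_PM {K : ℕ} {l : Par} (h : l ∈ LL K) : PI l * PM l = 1 := MI_MM (LL_sq h)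

theorem PM_le {K : ℕ} {l : Par} (h : l ∈ LL K) (i j : Fin 3) : |PM l i j| ≤ ((K + 1 : ℕ) : ℤ) := by
  obtain ⟨⟨h1, h2, h3, h4⟩, -⟩ := mem_LL.1 h
  unfold PM MM
  fin_cases i <;> fin_cases j <;> simp <;> omega

theorem PI_le {K : ℕ} {l : Par} (h : l ∈ LL K) (i j : Fin 3) :
    |PI l i j| ≤ (((K + 1) ^ 2 : ℕ) : ℤ) := by
  have hsq := LL_sq h
  obtain ⟨⟨h1, h2, h3, h4⟩, h5⟩ := mem_LL.1 h
  obtain ⟨a, b, s, s'⟩ := l
  simp only at h1 h2 h3 h4 h5 hsq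
  have hσ : |(s' : ℤ) - s| = 1 := by
    rw [← sq_abs] at hsq
    nlinarith [abs_nonneg ((s' : ℤ) - s)]
  have ha : (a : ℤ) ≤ K := by omega
  have hb : (b : ℤ) ≤ K := by omega
  have hs : (s : ℤ) ≤ K := by omega
  have hs' : (s' : ℤ) ≤ K := by omega
  have ha0 : (0 : ℤ) ≤ a := by omega
  have hb0 : (0 : ℤ) ≤ b := by omega
  have hs0 : (0 : ℤ) ≤ s := by omega
  have hs'0 : (0 : ℤ) ≤ s' := by omega
  have hK0 : (0 : ℤ) ≤ K := by omega
  have e1 : |(s : ℤ) * a - b| ≤ ((K : ℤ) + 1) ^ 2 := by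
    rw [abs_le]
    constructor <;> nlinarith [mul_le_mul hs ha ha0 hK0, mul_nonneg hs0 ha0]
  have e2 : |(b : ℤ) - s' * a| ≤ ((K : ℤ) + 1) ^ 2 := by
    rw [abs_le]
    constructor <;> nlinarith [mul_le_mul hs' ha ha0 hK0, mul_nonneg hs'0 ha0]
  unfold PI MI
  fin_cases i <;> fin_cases j <;>
    simp only [Matrix.of_apply, Matrix.cons_val', Matrix.cons_val_zero, Matrix.cons_val_one,
      Matrix.cons_val_fin_one, Matrix.cons_val, Fin.zero_eta, Fin.mk_one, Fin.reduceFinMk,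
      Fin.isValue, abs_neg, abs_mul, hσ, one_mul, abs_zero, abs_one] <;> push_cast <;>
    first
    | exact e1
    | exact e2
    | (rw [abs_of_nonneg (by assumption)]; nlinarith)
    | nlinarith

end Pool.Agent.H31.PC
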