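import Pool.Agent.H31.PC.Totb

/-!
# Rational points on plane curves (MP_6e60ff_nt): the points on the curves of small height
-/

namespace Pool.Agent.H31.PC

open Finset MvPolynomial Pool.Agent.H31.RZ

attribute [local irreducible] FF

/-- the height of a form -/
noncomputable def ht (w : MvPolynomial (Fin 3) ℤ) : ℕ :=
  w.support.sup fun μ => (w.coeff μ).natAbs

theorem coeff_le_ht (w : MvPolynomial (Fin 3) ℤ) (μ : Fin 3 →₀ ℕ) : |w.coeff μ| ≤ (ht w : ℤ) := by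
  by_cases h : μ ∈ w.support
  · have h1 : (w.coeff μ).natAbs ≤ ht w := Finset.le_sup (f := fun μ => (w.coeff μ).natAbs) h
    rw [Int.abs_eq_natAbs]
    exact_mod_cast h1
  · rw [notMem_support_iff.1 h, abs_zero]
    positivity

theorem exists_ht {w : MvPolynomial (Fin 3) ℤ} (hw : w ≠ 0) :
    ∃ μ ∈ w.support, (ht w : ℤ) = |w.coeff μ| := by
  obtain ⟨μ, hμ, h⟩ := Finset.exists_mem_eq_sup w.support (support_nonempty.2 hw)
    (fun μ => (w.coeff μ).natAbs)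
  refine ⟨μ, hμ, ?_⟩
  rw [ht, h, Int.abs_eq_natAbs]

theorem ht_pos {w : MvPolynomial (Fin 3) ℤ} (hw : w ≠ 0) : 1 ≤ ht w := by
  obtain ⟨μ, hμ, h⟩ := exists_ht hw
  have h1 : 0 < |w.coeff μ| := abs_pos.2 (mem_support_iff.1 hμ)
  omega

/-- a form of minimal height -/
theorem exists_min {e V : ℕ} {x : Fin 3 → ℤ} (h : ¬ Hi e V x) :
    ∃ w : MvPolynomial (Fin 3) ℤ, w ∈ FF 2 e V ∧ w ≠ 0 ∧ eval x w = 0 ∧ Hi e (ht w) x ∧
      ht w ≤ V := by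
  classical
  unfold Hi at h
  push Not at h
  obtain ⟨g, hgh, hg0, hgx, hgV⟩ := h
  have hP : ∃ k, ∃ g : MvPolynomial (Fin 3) ℤ, g.IsHomogeneous e ∧ g ≠ 0 ∧ eval x g = 0 ∧
      ht g = k := ⟨ht g, g, hgh, hg0, hgx, rfl⟩
  obtain ⟨w, hwh, hw0, hwx, hwk⟩ := Nat.find_spec hP
  have hmin : ∀ g : MvPolynomial (Fin 3) ℤ, g.IsHomogeneous e → g ≠ 0 → eval x g = 0 →
      ht w ≤ ht g := by
    intro g h1 h2 h3
    rw [hwk]
    exact Nat.find_min' hP ⟨g, h1, h2, h3, rfl⟩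
  have hwV : ht w ≤ V := by
    obtain ⟨μ, -, h1⟩ := exists_ht hg0
    have h2 := hgV μ
    have h3 := hmin g hgh hg0 hgx
    omega
  refine ⟨w, mem_FF.2 ⟨hwh, fun μ => (coeff_le_ht w μ).trans (by exact_mod_cast hwV)⟩, hw0, hwx,
    ?_, hwV⟩
  intro g h1 h2 h3
  obtain ⟨μ, -, h4⟩ := exists_ht h2
  have h5 := hmin g h1 h2 h3
  exact ⟨μ, by omega⟩

/-- the pairs of binary forms with the same leading coefficient -/
noncomputable def Prs (d R : ℕ) : Finset (Polynomial ℤ × Polynomial ℤ) :=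
  (PB d R ×ˢ PB d R).filter fun q => q.1.coeff d = q.2.coeff d

theorem card_Prs (d R : ℕ) (hd : 1 ≤ d) : #(Prs d R) ≤ (2 * R + 1) ^ (2 * d + 1) := by
  classical
  have h1 : #(Prs d R) ≤ #(PB d R ×ˢ PB (d - 1) R) := by
    refine Finset.card_le_card_of_injOn (fun q => (q.1, q.2.erase d)) ?_ ?_
    · intro q hq
      obtain ⟨hq1, -⟩ := Finset.mem_filter.1 (Finset.mem_coe.1 hq)
      obtain ⟨hq2, hq3⟩ := Finset.mem_product.1 hq1
      refine Finset.mem_coe.2 (Finset.mem_product.2 ⟨hq2, ?_⟩)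
      obtain ⟨h2, h3⟩ := mem_PB.1 hq3
      refine mem_PB.2 ⟨?_, fun j => ?_⟩
      · rw [Polynomial.natDegree_le_iff_coeff_eq_zero]
        intro k hk
        rw [Polynomial.coeff_erase]
        split_ifs with h4
        · rfl
        · exact Polynomial.natDegree_le_iff_coeff_eq_zero.1 h2 k (by omega)
      · rw [Polynomial.coeff_erase]
        split_ifs with h4
        · rw [abs_zero]
          positivity
        · exact h3 j
    · rintro ⟨u, v⟩ h ⟨u', v'⟩ h' heq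
      have h2 := (Finset.mem_filter.1 (Finset.mem_coe.1 h)).2
      have h3 := (Finset.mem_filter.1 (Finset.mem_coe.1 h')).2
      simp only at h2 h3
      simp only [Prod.mk.injEq] at heq
      obtain ⟨h4, h5⟩ := heq
      subst h4
      rw [Prod.mk.injEq]
      refine ⟨rfl, ?_⟩
      rw [← Polynomial.monomial_add_erase v d, ← Polynomial.monomial_add_erase v' d, h5, ← h2, ← h3]
  rw [Finset.card_product, card_PB, card_PB, ← pow_add] at h1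
  have e : d + 1 + (d - 1 + 1) = 2 * d + 1 := by omega
  rw [e] at h1
  exact h1

/-- the data of a zero on a curve of small height -/
abbrev Dat := Par × MvPolynomial (Fin 3) ℤ × (Polynomial ℤ × Polynomial ℤ)

/-- the candidates for the point: `e` is the degree of the curve, `Q` a property of the point -/
def Ys (d e : ℕ) (Q : (Fin 3 → ℤ) → Prop) (t : Dat) : Set (Fin 3 → ℤ) :=
  {y | (Prim y ∧ eval y (tr (PM t.1) t.2.1) = 0 ∧ y 0 ∣ hv d t.2.2.1 (y 1) (y 2) ∧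
      y 1 ∣ hv d t.2.2.2 (y 0) (y 2)) ∧ (y 0 ≠ 0 ∧ y 1 ≠ 0) ∧ Q ((PM t.1).mulVec y) ∧
    (eval ![0, 0, 1] (tr (PM t.1) t.2.1) ≠ 0 ∧
      t.2.2.1.resultant (r0 (tr (PM t.1) t.2.1)) d e ≠ 0 ∧
      t.2.2.2.resultant (r1 (tr (PM t.1) t.2.1)) d e ≠ 0)}

/-- the forms with given data -/
def Gt (d e H : ℕ) (Q : (Fin 3 → ℤ) → Prop) (t : Dat) : Set (MvPolynomial (Fin 3) ℤ) :=
  {f | f ∈ FF 2 d H ∧ ∃ y ∈ Ys d e Q t, eval ((PM t.1).mulVec y) f = 0 ∧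
    r0 (tr (PM t.1) f) = t.2.2.1 ∧ r1 (tr (PM t.1) f) = t.2.2.2}

theorem Ys_le (hTR : T_TR) {d e K W R : ℕ} {C ε : ℝ} (hC : 1 ≤ C)
    (hC₃ : ∀ (R : ℕ) (w : MvPolynomial (Fin 3) ℤ) (φ₀ φ₁ : Polynomial ℤ), 1 ≤ R →
      w ∈ FF 2 e R → φ₀ ∈ PB d R → φ₁ ∈ PB d R → eval ![0, 0, 1] w ≠ 0 →
      φ₀.resultant (r0 w) d e ≠ 0 → φ₁.resultant (r1 w) d e ≠ 0 →
      ({y : Fin 3 → ℤ | Prim y ∧ eval y w = 0 ∧ y 0 ∣ hv d φ₀ (y 1) (y 2) ∧
        y 1 ∣ hv d φ₁ (y 0) (y 2)} : Set _).Finite ∧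
      (({y : Fin 3 → ℤ | Prim y ∧ eval y w = 0 ∧ y 0 ∣ hv d φ₀ (y 1) (y 2) ∧
        y 1 ∣ hv d φ₁ (y 0) (y 2)} : Set _).ncard : ℝ) ≤ C * (R : ℝ) ^ ε)
    (hR1 : 1 ≤ R) (hR : NN 2 e * (3 * (K + 1)) ^ e * W ≤ R) (Q : (Fin 3 → ℤ) → Prop)
    {t : Dat} (hl : t.1 ∈ LL K) (hw : t.2.1 ∈ FF 2 e W) (hφ : t.2.2 ∈ PB d R ×ˢ PB d R) :
    (Ys d e Q t).Finite ∧ ((Ys d e Q t).ncard : ℝ) ≤ C * (R : ℝ) ^ ε := by
  by_cases h : eval ![0, 0, 1] (tr (PM t.1) t.2.1) ≠ 0 ∧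
      t.2.2.1.resultant (r0 (tr (PM t.1) t.2.1)) d e ≠ 0 ∧
      t.2.2.2.resultant (r1 (tr (PM t.1) t.2.1)) d e ≠ 0
  · obtain ⟨h1, h2⟩ := Finset.mem_product.1 hφ
    obtain ⟨h3, h4⟩ := hC₃ R (tr (PM t.1) t.2.1) t.2.2.1 t.2.2.2 hR1
      (FF_mono hR (hTR e (K + 1) W (PM t.1) t.2.1 (PM_le hl) hw)) h1 h2 h.1 h.2.1 h.2.2
    have h5 : Ys d e Q t ⊆ {y : Fin 3 → ℤ | Prim y ∧ eval y (tr (PM t.1) t.2.1) = 0 ∧
        y 0 ∣ hv d t.2.2.1 (y 1) (y 2) ∧ y 1 ∣ hv d t.2.2.2 (y 0) (y 2)} := fun y hy => hy.1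
    exact ⟨h3.subset h5, (Nat.cast_le.2 (Set.ncard_le_ncard h5 h3)).trans h4⟩
  · have h5 : Ys d e Q t = ∅ := by
      rw [Set.eq_empty_iff_forall_notMem]
      intro y hy
      exact h hy.2.2.2
    rw [h5, Set.ncard_empty, Nat.cast_zero]
    exact ⟨Set.finite_empty, mul_nonneg (by linarith) (Real.rpow_nonneg (Nat.cast_nonneg _) _)⟩

theorem Gt_le {d e K Cf : ℕ}
    (hF : ∀ (R : ℕ) (a b s s' : ℤ),
      |a| ≤ K → |b| ≤ K → |s| ≤ K → |s'| ≤ K → (s' - s) ^ 2 = 1 → ∀ (x : Fin 3 → ℤ)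
      (φ φ' : Polynomial ℤ), (MI a b s s').mulVec x 0 ≠ 0 → (MI a b s s').mulVec x 1 ≠ 0 →
      ({f : MvPolynomial (Fin 3) ℤ | f ∈ FF 2 d R ∧ eval x f = 0 ∧ ln a b s f = φ ∧
        ln a b s' f = φ'} : Set _).ncard ≤ #(Lam (d - 2) (Cf * R) x))
    {H : ℕ} {Q : (Fin 3 → ℤ) → Prop} {t : Dat} (hl : t.1 ∈ LL K) {B Λ : ℝ} (hΛ0 : 0 ≤ Λ)
    (hfin : (Ys d e Q t).Finite) (hB : ((Ys d e Q t).ncard : ℝ) ≤ B)
    (hΛ : ∀ y ∈ Ys d e Q t, (#(Lam (d - 2) (Cf * H) ((PM t.1).mulVec y)) : ℝ) ≤ Λ) :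
    ((Gt d e H Q t).ncard : ℝ) ≤ B * Λ := by
  classical
  obtain ⟨⟨h1, h2, h3, h4⟩, -⟩ := mem_LL.1 hl
  have hsub : Gt d e H Q t ⊆ ((hfin.toFinset.biUnion fun y => (FF 2 d H).filter fun f =>
      eval ((PM t.1).mulVec y) f = 0 ∧ ln t.1.1 t.1.2.1 t.1.2.2.1 f = t.2.2.1 ∧
        ln t.1.1 t.1.2.1 t.1.2.2.2 f = t.2.2.2 : Finset _) : Set _) := by
    rintro f ⟨hf, y, hy, hyf, hf0, hf1⟩
    refine Finset.mem_coe.2 (Finset.mem_biUnion.2 ⟨y, hfin.mem_toFinset.2 hy,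
      Finset.mem_filter.2 ⟨hf, hyf, ?_, ?_⟩⟩)
    · rw [← hf0]
      exact (r0_tr _ _ _ _ _).symm
    · rw [← hf1]
      exact (r1_tr _ _ _ _ _).symm
  have h5 := Set.ncard_le_ncard hsub (Finset.finite_toSet _)
  rw [Set.ncard_coe_finset] at h5
  have h6 : ((Gt d e H Q t).ncard : ℝ) ≤ ∑ y ∈ hfin.toFinset, (#((FF 2 d H).filter fun f =>
      eval ((PM t.1).mulVec y) f = 0 ∧ ln t.1.1 t.1.2.1 t.1.2.2.1 f = t.2.2.1 ∧
        ln t.1.1 t.1.2.1 t.1.2.2.2 f = t.2.2.2) : ℝ) := by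
    exact_mod_cast h5.trans Finset.card_biUnion_le
  refine h6.trans ((Finset.sum_le_sum (g := fun _ => Λ) fun y hy => ?_).trans ?_)
  · have hy' := hfin.mem_toFinset.1 hy
    refine le_trans ?_ (hΛ y hy')
    have e : (PI t.1).mulVec ((PM t.1).mulVec y) = y := by
      rw [Matrix.mulVec_mulVec, PI_PM hl, Matrix.one_mulVec]
    have h7 := hF H t.1.1 t.1.2.1 t.1.2.2.1 t.1.2.2.2 (by rw [Nat.abs_cast]; omega)
      (by rw [Nat.abs_cast]; omega)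
      (by rw [Nat.abs_cast]; omega) (by rw [Nat.abs_cast]; omega) (LL_sq hl)
      ((PM t.1).mulVec y) t.2.2.1 t.2.2.2
      (by change (PI t.1).mulVec _ 0 ≠ 0; rw [e]; exact hy'.2.1.1)
      (by change (PI t.1).mulVec _ 1 ≠ 0; rw [e]; exact hy'.2.1.2)
    rw [← Set.ncard_coe_finset, Finset.coe_filter]
    exact_mod_cast h7
  · rw [Finset.sum_const, nsmul_eq_mul]
    refine mul_le_mul_of_nonneg_right ?_ hΛ0
    rw [← Set.ncard_eq_toFinset_card _ hfin]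
    exact hB

/-- a form of minimal height is not divisible by `p` -/
theorem rp_min {e p : ℕ} (hp : p.Prime) {x : Fin 3 → ℤ} {w : MvPolynomial (Fin 3) ℤ}
    (hw0 : w ≠ 0) (hwh : w.IsHomogeneous e) (hwx : eval x w = 0) (hmin : Hi e (ht w) x) :
    rp p w ≠ 0 := by
  intro h
  have hp0 : (p : ℤ) ≠ 0 := by exact_mod_cast hp.ne_zero
  have h1 : (C (p : ℤ) : MvPolynomial (Fin 3) ℤ) ∣ w := by
    rw [C_dvd_iff_dvd_coeff]
    intro μ
    have h2 := congrArg (fun g => g.coeff μ) h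
    simp only [rp, coeff_map, coeff_zero, eq_intCast] at h2
    rwa [ZMod.intCast_zmod_eq_zero_iff_dvd] at h2
  obtain ⟨g, hg⟩ := h1
  have hc : ∀ μ, w.coeff μ = p * g.coeff μ := by
    intro μ
    rw [hg, coeff_C_mul]
  have hgh : g.IsHomogeneous e := by
    intro μ hμ
    apply hwh
    rw [hc]
    exact mul_ne_zero hp0 hμ
  have hg0 : g ≠ 0 := by
    rintro rfl
    apply hw0
    rw [hg, mul_zero]
  have hgx : eval x g = 0 := by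
    rw [hg, map_mul, eval_C] at hwx
    exact (mul_eq_zero.1 hwx).resolve_left hp0
  obtain ⟨μ, hμ⟩ := hmin g hgh hg0 hgx
  have h3 := coeff_le_ht w μ
  rw [hc, abs_mul, Nat.abs_cast] at h3
  have h4 := ht_pos hw0
  have h5 : (2 : ℤ) ≤ p := by exact_mod_cast hp.two_le
  have h6 : (1 : ℤ) ≤ ht w := by exact_mod_cast h4
  nlinarith

end Pool.Agent.H31.PC
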