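import Pool.Agent.H31.PC.Zera

/-!
# Rational points on plane curves (MP_6e60ff_nt): the points on the curves of small height, sum
-/

namespace Pool.Agent.H31.PC

open Finset MvPolynomial Pool.Agent.H31.RZ

attribute [local irreducible] FF

/-- the forms with a zero on a curve of degree `d - 2` and small height -/
def B0 (d H V p K : ℕ) : Set (MvPolynomial (Fin 3) ℤ) :=
  {f | f ∈ FF 2 d H ∧ f ≠ 0 ∧ ND p K f ∧ ∃ x : Fin 3 → ℤ, Prim x ∧ ¬ Hi (d - 2) V x ∧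
    eval x f = 0}

/-- the forms with a zero on a curve of degree `e` and height at most `W` -/
def B2 (d e H W V p K : ℕ) : Set (MvPolynomial (Fin 3) ℤ) :=
  {f | f ∈ FF 2 d H ∧ f ≠ 0 ∧ ND p K f ∧ ∃ x : Fin 3 → ℤ, Prim x ∧ Hi (d - 2) V x ∧
    eval x f = 0 ∧ ∃ w : MvPolynomial (Fin 3) ℤ, w ≠ 0 ∧ w.IsHomogeneous e ∧
      (∀ μ, |w.coeff μ| ≤ (W : ℤ)) ∧ eval x w = 0}

open Classical in
/-- the set of the data -/
noncomputable def TT (d e W R K : ℕ) : Finset Dat :=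
  LL K ×ˢ ((FF 2 e W).filter fun w => w ≠ 0) ×ˢ Prs d R

theorem step (hTR : T_TR) (hRES : T_RES) {d e K K₁ : ℕ} (he : 1 ≤ e) (hd : 1 ≤ d) (hK : K₁ ≤ K)
    {H W p R : ℕ} (hNZ : ∀ f g : MvPolynomial (Fin 3) ℤ, f.IsHomogeneous d →
      g.IsHomogeneous e → ND p K₁ f →
      rp p f ≠ 0 → rp p g ≠ 0 → ∃ a b s : ℕ, a < K₁ ∧ b < K₁ ∧ s + 1 < K₁ ∧
        eval ![(a : ℤ), (b : ℤ), 1] g ≠ 0 ∧
        (ln a b s f).resultant (ln a b s g) d e ≠ 0 ∧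
        (ln a b (s + 1) f).resultant (ln a b (s + 1) g) d e ≠ 0)
    (hR : NN 2 d * (3 * (K + 1)) ^ d * H ≤ R) {f w : MvPolynomial (Fin 3) ℤ}
    (hf : f ∈ FF 2 d H) (hfN : ND p K f) (hfp : rp p f ≠ 0) (hw : w ∈ FF 2 e W) (hw0 : w ≠ 0)
    (hwp : rp p w ≠ 0) {x : Fin 3 → ℤ} (hx : Prim x) (hfx : eval x f = 0) (hwx : eval x w = 0)
    (Q : Dat → (Fin 3 → ℤ) → Prop) (hQ : ∀ t : Dat, t.2.1 = w → Q t x) :
    f ∈ ⋃ t ∈ TT d e W R K, Gt d e H (Q t) t := by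
  obtain ⟨hfh, hfc⟩ := mem_FF.1 hf
  obtain ⟨hwh, hwc⟩ := mem_FF.1 hw
  obtain ⟨a, b, s, ha, hb, hs, hab, hr, hr'⟩ := hNZ f w hfh hwh (ND_mono hK hfN) hfp hwp
  have hl : ((a, b, s, s + 1) : Par) ∈ LL K := mem_LL.2 (by simp; omega)
  obtain ⟨l, hldef⟩ : ∃ l : Par, l = (a, b, s, s + 1) := ⟨_, rfl⟩
  rw [← hldef] at hl
  have hPM : ∀ g : MvPolynomial (Fin 3) ℤ, r0 (tr (PM l) g) = ln a b s g := by
    intro g
    rw [hldef]
    exact r0_tr _ _ _ _ _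
  have hPM' : ∀ g : MvPolynomial (Fin 3) ℤ, r1 (tr (PM l) g) = ln a b (s + 1) g := by
    intro g
    have h1 : r1 (tr (PM l) g) = ln a b ((s + 1 : ℕ) : ℤ) g := by
      rw [hldef]
      exact r1_tr _ _ _ _ _
    rw [h1, Nat.cast_add, Nat.cast_one]
  have e' : (PM l).mulVec ((PI l).mulVec x) = x := PM_PI_mulVec hl x
  have hFd : tr (PM l) f ∈ FF 2 d R :=
    FF_mono hR (hTR d (K + 1) H (PM l) f (PM_le hl) hf)
  obtain ⟨y, hy⟩ : ∃ y, y = (PI l).mulVec x := ⟨_, rfl⟩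
  have hyp : Prim y := by
    rw [hy]
    exact prim_mulVec (PM_PI hl) hx
  rw [← hy] at e'
  have hfy : eval y (tr (PM l) f) = 0 := by rw [eval_tr, e', hfx]
  have hwy : eval y (tr (PM l) w) = 0 := by rw [eval_tr, e', hwx]
  have d0 : ∀ (k : ℕ) (g : MvPolynomial (Fin 3) ℤ), g.IsHomogeneous k →
      eval y (tr (PM l) g) = 0 → y 0 ∣ hv k (r0 (tr (PM l) g)) (y 1) (y 2) := by
    intro k g hg h0
    have h1 := dvd_sub0 (tr_hom (A := PM l) hg) y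
    rw [h0, zero_sub, dvd_neg] at h1
    exact h1
  have d1 : ∀ (k : ℕ) (g : MvPolynomial (Fin 3) ℤ), g.IsHomogeneous k →
      eval y (tr (PM l) g) = 0 → y 1 ∣ hv k (r1 (tr (PM l) g)) (y 0) (y 2) := by
    intro k g hg h0
    have h1 := dvd_sub1 (tr_hom (A := PM l) hg) y
    rw [h0, zero_sub, dvd_neg] at h1
    exact h1
  have hn0 : (r0 (tr (PM l) f)).natDegree ≤ d := (mem_PB.1 (r0_mem hFd)).1
  have hn1 : (r1 (tr (PM l) f)).natDegree ≤ d := (mem_PB.1 (r1_mem hFd)).1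
  have hWd : tr (PM l) w ∈ FF 2 e (NN 2 e * (3 * (K + 1)) ^ e * W) :=
    hTR e (K + 1) W (PM l) w (PM_le hl) hw
  have hm0 : (r0 (tr (PM l) w)).natDegree ≤ e := (mem_PB.1 (r0_mem hWd)).1
  have hm1 : (r1 (tr (PM l) w)).natDegree ≤ e := (mem_PB.1 (r1_mem hWd)).1
  rw [← hPM, ← hPM] at hr
  rw [← hPM', ← hPM'] at hr'
  have y0 : y 0 ≠ 0 := by
    intro h0
    apply hr
    have h3 := hRES d e _ _ _ _ _ hd he hn0 hm0
      (d0 d f hfh hfy) (d0 e w hwh hwy) (prim_unit hyp)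
    rw [h0] at h3
    exact zero_dvd_iff.1 h3
  have y1 : y 1 ≠ 0 := by
    intro h0
    apply hr'
    have h3 := hRES d e _ _ _ _ _ hd he hn1 hm1
      (d1 d f hfh hfy) (d1 e w hwh hwy) fun t h1 h2 h3 => prim_unit hyp t h2 h1 h3
    rw [h0] at h3
    exact zero_dvd_iff.1 h3
  have hab' : eval ![0, 0, 1] (tr (PM l) w) ≠ 0 := by
    rw [eval_tr]
    have h1 : (PM l).mulVec ![0, 0, 1] = ![(a : ℤ), (b : ℤ), 1] := by
      rw [hldef]
      funext i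
      fin_cases i <;>
        simp [PM, MM, Matrix.mulVec, dotProduct, Fin.sum_univ_three]
    rw [h1]
    exact hab
  refine Set.mem_biUnion (x := (l, w, (r0 (tr (PM l) f), r1 (tr (PM l) f)))) ?_ ?_
  · refine Finset.mem_coe.2 (Finset.mem_product.2 ⟨hl, Finset.mem_product.2
      ⟨Finset.mem_filter.2 ⟨hw, hw0⟩, Finset.mem_filter.2 ⟨Finset.mem_product.2
        ⟨r0_mem hFd, r1_mem hFd⟩, ?_⟩⟩⟩)
    change (r0 (tr (PM l) f)).coeff d = (r1 (tr (PM l) f)).coeff d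
    rw [coeff_r0 (tr_hom hfh) le_rfl, coeff_r1 (tr_hom hfh) le_rfl, Nat.sub_self]
  · refine ⟨hf, y, ⟨⟨hyp, hwy, d0 d f hfh hfy, d1 d f hfh hfy⟩, ⟨y0, y1⟩, ?_, hab', hr, hr'⟩, ?_,
      rfl, rfl⟩
    · change Q _ ((PM l).mulVec y)
      rw [e']
      exact hQ _ rfl
    · change eval ((PM l).mulVec y) f = 0
      rw [e']
      exact hfx

theorem sum_TT {d e W R K : ℕ} (g : MvPolynomial (Fin 3) ℤ → ℝ) (c : ℝ) :
    ∑ t ∈ TT d e W R K, c * g t.2.1 =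
      #(LL K) * (#(Prs d R) * (c * ∑ w ∈ FF 2 e W with w ≠ 0, g w)) := by
  classical
  rw [TT, Finset.sum_product]
  simp only
  rw [Finset.sum_const, nsmul_eq_mul, Finset.sum_product]
  congr 1
  simp only
  have h1 : ∀ w : MvPolynomial (Fin 3) ℤ, ∑ _q ∈ Prs d R, c * g w = #(Prs d R) * c * g w := by
    intro w
    rw [Finset.sum_const, nsmul_eq_mul, mul_assoc]
  rw [Finset.sum_congr rfl fun w _ => h1 w, ← Finset.mul_sum, mul_assoc]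

/-- from a covering to the count -/
theorem ncard_cover {d e H W R K : ℕ} {Q : Dat → (Fin 3 → ℤ) → Prop}
    {B : Set (MvPolynomial (Fin 3) ℤ)} (h : B ⊆ ⋃ t ∈ TT d e W R K, Gt d e H (Q t) t)
    {c : ℝ} {g : MvPolynomial (Fin 3) ℤ → ℝ}
    (hG : ∀ t ∈ TT d e W R K, ((Gt d e H (Q t) t).ncard : ℝ) ≤ c * g t.2.1) :
    (B.ncard : ℝ) ≤ #(LL K) * (#(Prs d R) * (c * ∑ w ∈ FF 2 e W with w ≠ 0, g w)) := by
  have hfinG : ∀ t : Dat, (Gt d e H (Q t) t).Finite := fun t =>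
    (Finset.finite_toSet (FF 2 d H)).subset fun f hf => hf.1
  have h1 : (B.ncard : ℝ) ≤ ∑ t ∈ TT d e W R K, ((Gt d e H (Q t) t).ncard : ℝ) := by
    have h2 := Set.ncard_le_ncard h (Set.Finite.biUnion (Finset.finite_toSet _)
      fun t _ => hfinG t)
    have h3 := Finset.set_ncard_biUnion_le (TT d e W R K) fun t => Gt d e H (Q t) t
    exact_mod_cast h2.trans h3
  rw [← sum_TT]
  exact h1.trans (Finset.sum_le_sum hG)

theorem Prs_le {d cR H : ℕ} (hd : 1 ≤ d) (hR : 1 ≤ cR * H) :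
    (#(Prs d (cR * H)) : ℝ) ≤ (3 * cR : ℝ) ^ (2 * d + 1) * (H : ℝ) ^ (2 * d + 1) := by
  have h6 := card_Prs d (cR * H) hd
  have h7 : (2 * (cR * H) + 1) ^ (2 * d + 1) ≤ (3 * cR * H) ^ (2 * d + 1) :=
    Nat.pow_le_pow_left (by nlinarith) _
  have h8 : (#(Prs d (cR * H)) : ℝ) ≤ (3 * cR * H : ℝ) ^ (2 * d + 1) := by
    exact_mod_cast h6.trans h7
  rwa [mul_pow] at h8

end Pool.Agent.H31.PC
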