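import Pool.Agent.H31.PC.Zerb

/-!
# Rational points on plane curves (MP_6e60ff_nt): the points on the curves of small height, totals
-/

namespace Pool.Agent.H31.PC

open Finset MvPolynomial Pool.Agent.H31.RZ

attribute [local irreducible] FF

theorem tot0 (hTR : T_TR) (hRES : T_RES) (hNZ : T_NZ) (hPAK : T_PAK) (hFIT : T_FIT)
    (hTWO : T_TWO) (hSH : T_SH) {d : ℕ} (hd : 3 ≤ d) :
    ∃ K₁ : ℕ, ∀ K : ℕ, K₁ ≤ K → ∀ ε : ℝ, 0 < ε → ∃ C : ℝ, 1 ≤ C ∧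
    ∀ H V p : ℕ, 1 ≤ V → V ≤ H → p.Prime → K ≤ p → H < p →
      ((B0 d H V p K).ncard : ℝ) ≤
        C * ((H : ℝ) ^ ε * ((H : ℝ) ^ (2 * d + 1 + (NN 2 (d - 2) - 1)) * V)) := by
  obtain ⟨K₁, hK₁3, hK₁⟩ := hNZ d (d - 2) (by omega) (by omega)
  refine ⟨K₁, fun K hK ε hε => ?_⟩
  obtain ⟨Cf, hCf1, hF⟩ := hFIT d K (by omega)
  obtain ⟨C₃, hC₃1, hC₃⟩ := hTWO d (d - 2) ε (by omega) (by omega) hε
  obtain ⟨C₄, hC₄⟩ := hSH (d - 2)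
  obtain ⟨cR, hcR1, hcRa, hcRb⟩ : ∃ cR : ℕ, 1 ≤ cR ∧ NN 2 d * (3 * (K + 1)) ^ d ≤ cR ∧
      NN 2 (d - 2) * (3 * (K + 1)) ^ (d - 2) ≤ cR :=
    ⟨NN 2 d * (3 * (K + 1)) ^ d + NN 2 (d - 2) * (3 * (K + 1)) ^ (d - 2) + 1,
      by omega, by omega, by omega⟩
  obtain ⟨m, hm⟩ : ∃ m, m = NN 2 (d - 2) - 1 := ⟨_, rfl⟩
  obtain ⟨cL, hcL⟩ : ∃ cL : ℕ, cL = NN 2 (d - 2) * (2 * Cf + 1) + 1 := ⟨_, rfl⟩
  have hcR0 : (0 : ℝ) ≤ cR := Nat.cast_nonneg _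
  have hcL0 : (0 : ℝ) ≤ cL := Nat.cast_nonneg _
  have hC40 : (0 : ℝ) ≤ C₄ := Nat.cast_nonneg _
  have hLK : (0 : ℝ) ≤ #(LL K) := Nat.cast_nonneg _
  obtain ⟨A, hA⟩ : ∃ A : ℝ, A = #(LL K) * ((3 * cR : ℝ) ^ (2 * d + 1) *
      ((C₃ * (cR : ℝ) ^ ε) * (cL : ℝ) ^ m * C₄)) := ⟨_, rfl⟩
  have hA0 : 0 ≤ A := by
    rw [hA]
    refine mul_nonneg hLK (mul_nonneg (pow_nonneg (by positivity) _) (mul_nonneg (mul_nonneg
      (mul_nonneg (by linarith) (Real.rpow_nonneg hcR0 _)) (pow_nonneg hcL0 _)) hC40))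
  refine ⟨A + 1, by linarith, fun H V p hV hVH hp hKp hHp => ?_⟩
  have hH : 1 ≤ H := hV.trans hVH
  have hHr : (0 : ℝ) < H := by exact_mod_cast hH
  have hVr : (0 : ℝ) < V := by exact_mod_cast hV
  have hR1 : 1 ≤ cR * H := Nat.mul_pos hcR1 hH
  have hRa : NN 2 d * (3 * (K + 1)) ^ d * H ≤ cR * H := Nat.mul_le_mul_right _ hcRa
  have hRb : NN 2 (d - 2) * (3 * (K + 1)) ^ (d - 2) * V ≤ cR * H := Nat.mul_le_mul hcRb hVH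
  have hcov : B0 d H V p K ⊆ ⋃ t ∈ TT d (d - 2) V (cR * H) K,
      Gt d (d - 2) H (Hi (d - 2) (ht t.2.1)) t := by
    rintro f ⟨hf, hf0, hfN, x, hx, hxV, hfx⟩
    obtain ⟨w, hw, hw0, hwx, hwH, hwV⟩ := exists_min hxV
    obtain ⟨hfh, hfc⟩ := mem_FF.1 hf
    obtain ⟨hwh, hwc⟩ := mem_FF.1 hw
    refine step hTR hRES (by omega) (by omega) hK (fun f g => hK₁ p hp (hK.trans hKp) f g) hRa
      hf hfN (rp_ne hHp hfc hf0) hw hw0 (rp_min hp hw0 hwh hwx hwH) hx hfx hwx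
      (fun t => Hi (d - 2) (ht t.2.1)) fun t htw => ?_
    rw [htw]
    exact hwH
  obtain ⟨c, hc⟩ : ∃ c : ℝ, c = (C₃ * ((cR * H : ℕ) : ℝ) ^ ε) * ((cL : ℝ) ^ m * (H : ℝ) ^ m) :=
    ⟨_, rfl⟩
  have h3 := ncard_cover (c := c) (g := fun w => (((ht w : ℕ) : ℝ) ^ m)⁻¹) hcov (by
    intro t htT
    obtain ⟨hl, htT2⟩ := Finset.mem_product.1 htT
    obtain ⟨hw, hq⟩ := Finset.mem_product.1 htT2
    obtain ⟨hwF, hw0⟩ := Finset.mem_filter.1 hw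
    have hq' := (Finset.mem_filter.1 hq).1
    obtain ⟨hfin, hB⟩ := Ys_le (ε := ε) hTR hC₃1 hC₃ hR1 hRb (Hi (d - 2) (ht t.2.1)) hl hwF hq'
    have hht1 : 1 ≤ ht t.2.1 := ht_pos hw0
    have hhtV : ht t.2.1 ≤ H := by
      obtain ⟨μ, -, h3⟩ := exists_ht hw0
      have h4 := (mem_FF.1 hwF).2 μ
      have h5 : ((ht t.2.1 : ℕ) : ℤ) ≤ V := by rw [h3]; exact h4
      have h6 : ht t.2.1 ≤ V := by exact_mod_cast h5
      exact h6.trans hVH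
    have hht0 : (0 : ℝ) < (ht t.2.1 : ℕ) := by exact_mod_cast hht1
    have h3 := Gt_le (H := H) (Λ := (cL : ℝ) ^ m * ((H : ℝ) / (ht t.2.1 : ℕ)) ^ m) hF hl
      (mul_nonneg (pow_nonneg hcL0 _) (pow_nonneg (div_nonneg hHr.le hht0.le) _)) hfin hB ?_
    · refine h3.trans (le_of_eq ?_)
      rw [hc, div_pow]
      ring
    · intro y hy
      rw [hcL]
      exact lam_le hPAK hm (prim_mulVec (PI_PM hl) hy.1.1) hht1 hhtV hy.2.2.1)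
  have h4 : ∑ w ∈ FF 2 (d - 2) V with w ≠ 0, (((ht w : ℕ) : ℝ) ^ m)⁻¹ ≤ C₄ * V := by
    rw [hm]
    exact hC₄ V hV
  have h5 := Prs_le (d := d) (by omega) hR1
  have hc0 : 0 ≤ c := by
    rw [hc]
    exact mul_nonneg (mul_nonneg (by linarith) (Real.rpow_nonneg (Nat.cast_nonneg _) _))
      (mul_nonneg (pow_nonneg hcL0 _) (pow_nonneg hHr.le _))
  have h6 : (#(LL K) : ℝ) * (#(Prs d (cR * H)) * (c * ∑ w ∈ FF 2 (d - 2) V with w ≠ 0,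
      (((ht w : ℕ) : ℝ) ^ m)⁻¹)) ≤ #(LL K) * (((3 * cR : ℝ) ^ (2 * d + 1) *
        (H : ℝ) ^ (2 * d + 1)) * (c * (C₄ * V))) := by
    refine mul_le_mul_of_nonneg_left (mul_le_mul h5 (mul_le_mul_of_nonneg_left h4 hc0) ?_ ?_) hLK
    · refine mul_nonneg hc0 (Finset.sum_nonneg fun w _ => inv_nonneg.2 (pow_nonneg
        (Nat.cast_nonneg _) _))
    · exact mul_nonneg (pow_nonneg (by positivity) _) (pow_nonneg hHr.le _)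
  refine (h3.trans h6).trans ?_
  have h7 : (#(LL K) : ℝ) * (((3 * cR : ℝ) ^ (2 * d + 1) *
        (H : ℝ) ^ (2 * d + 1)) * (c * (C₄ * V))) =
      A * ((H : ℝ) ^ ε * ((H : ℝ) ^ (2 * d + 1 + m) * V)) := by
    rw [hA, hc, Nat.cast_mul cR H, Real.mul_rpow hcR0 hHr.le, pow_add]
    ring
  rw [h7, ← hm]
  refine mul_le_mul_of_nonneg_right (by linarith) ?_
  exact mul_nonneg (Real.rpow_nonneg hHr.le _) (mul_nonneg (pow_nonneg hHr.le _) hVr.le)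

theorem tot2 (hTR : T_TR) (hRES : T_RES) (hNZ : T_NZ) (hPAK : T_PAK) (hFIT : T_FIT)
    (hTWO : T_TWO) {d e : ℕ} (hd : 3 ≤ d) (he : 1 ≤ e) (hed : e < d) :
    ∃ K₁ : ℕ, ∀ K : ℕ, K₁ ≤ K → ∀ ε : ℝ, 0 < ε → ∃ C : ℝ, 1 ≤ C ∧
    ∀ H W V p : ℕ, 1 ≤ W → 1 ≤ V → V ≤ H → p.Prime → K ≤ p → H < p →
      ((B2 d e H W V p K).ncard : ℝ) ≤ C * (((H : ℝ) * W) ^ ε * ((W : ℝ) ^ NN 2 e *
        (((H : ℝ) / V) ^ (NN 2 (d - 2) - 1) * (H : ℝ) ^ (2 * d + 1)))) := by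
  obtain ⟨K₁, hK₁3, hK₁⟩ := hNZ d e he hed
  refine ⟨K₁, fun K hK ε hε => ?_⟩
  obtain ⟨Cf, hCf1, hF⟩ := hFIT d K (by omega)
  obtain ⟨C₃, hC₃1, hC₃⟩ := hTWO d e ε (by omega) he hε
  obtain ⟨cR, hcR1, hcRa, hcRb⟩ : ∃ cR : ℕ, 1 ≤ cR ∧ NN 2 d * (3 * (K + 1)) ^ d ≤ cR ∧
      NN 2 e * (3 * (K + 1)) ^ e ≤ cR :=
    ⟨NN 2 d * (3 * (K + 1)) ^ d + NN 2 e * (3 * (K + 1)) ^ e + 1,
      by omega, by omega, by omega⟩
  obtain ⟨m, hm⟩ : ∃ m, m = NN 2 (d - 2) - 1 := ⟨_, rfl⟩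
  obtain ⟨cL, hcL⟩ : ∃ cL : ℕ, cL = NN 2 (d - 2) * (2 * Cf + 1) + 1 := ⟨_, rfl⟩
  have hcR0 : (0 : ℝ) ≤ cR := Nat.cast_nonneg _
  have hcL0 : (0 : ℝ) ≤ cL := Nat.cast_nonneg _
  have hLK : (0 : ℝ) ≤ #(LL K) := Nat.cast_nonneg _
  obtain ⟨A, hA⟩ : ∃ A : ℝ, A = #(LL K) * ((3 * cR : ℝ) ^ (2 * d + 1) *
      ((C₃ * (cR : ℝ) ^ ε) * (cL : ℝ) ^ m * 3 ^ NN 2 e)) := ⟨_, rfl⟩
  have hA0 : 0 ≤ A := by
    rw [hA]
    refine mul_nonneg hLK (mul_nonneg (pow_nonneg (by positivity) _) (mul_nonneg (mul_nonneg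
      (mul_nonneg (by linarith) (Real.rpow_nonneg hcR0 _)) (pow_nonneg hcL0 _))
      (pow_nonneg (by norm_num) _)))
  refine ⟨A + 1, by linarith, fun H W V p hW hV hVH hp hKp hHp => ?_⟩
  have hH : 1 ≤ H := hV.trans hVH
  have hHr : (0 : ℝ) < H := by exact_mod_cast hH
  have hVr : (0 : ℝ) < V := by exact_mod_cast hV
  have hWr : (0 : ℝ) < W := by exact_mod_cast hW
  have hR1 : 1 ≤ cR * H := Nat.mul_pos hcR1 hH
  have hRW : cR * H ≤ cR * H * W := Nat.le_mul_of_pos_right _ hW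
  have hR2 : 1 ≤ cR * H * W := hR1.trans hRW
  have hRa : NN 2 d * (3 * (K + 1)) ^ d * H ≤ cR * H := Nat.mul_le_mul_right _ hcRa
  have hRb : NN 2 e * (3 * (K + 1)) ^ e * W ≤ cR * H * W :=
    Nat.mul_le_mul_right _ (hcRb.trans (Nat.le_mul_of_pos_right _ hH))
  have hcov : B2 d e H W V p K ⊆ ⋃ t ∈ TT d e W (cR * H) K,
      Gt d e H (Hi (d - 2) V) t := by
    rintro f ⟨hf, hf0, hfN, x, hx, hxV, hfx, w₀, hw₀, hwh₀, hwc₀, hwx₀⟩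
    obtain ⟨hfh, hfc⟩ := mem_FF.1 hf
    have hnot : ¬ Hi e (W + 1) x := by
      intro h
      obtain ⟨μ, hμ⟩ := h w₀ hwh₀ hw₀ hwx₀
      have := hwc₀ μ
      push_cast at hμ
      omega
    obtain ⟨w, hw, hw0, hwx, hwH, hwV⟩ := exists_min hnot
    obtain ⟨hwh, -⟩ := mem_FF.1 hw
    have hwW : w ∈ FF 2 e W := by
      rw [mem_FF]
      refine ⟨hwh, fun μ => (coeff_le_ht w μ).trans ?_⟩
      obtain ⟨ν, h1⟩ := hwH w₀ hwh₀ hw₀ hwx₀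
      have h2 := hwc₀ ν
      omega
    exact step hTR hRES he (by omega) hK (fun f g => hK₁ p hp (hK.trans hKp) f g) hRa
      hf hfN (rp_ne hHp hfc hf0) hwW hw0 (rp_min hp hw0 hwh hwx hwH) hx hfx hwx
      (fun _ => Hi (d - 2) V) fun t _ => hxV
  obtain ⟨c, hc⟩ : ∃ c : ℝ, c = (C₃ * ((cR * H * W : ℕ) : ℝ) ^ ε) *
      ((cL : ℝ) ^ m * ((H : ℝ) / V) ^ m) := ⟨_, rfl⟩
  have h3 := ncard_cover (c := c) (g := fun _ => 1) hcov (by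
    intro t htT
    obtain ⟨hl, htT2⟩ := Finset.mem_product.1 htT
    obtain ⟨hw, hq⟩ := Finset.mem_product.1 htT2
    obtain ⟨hwF, hw0⟩ := Finset.mem_filter.1 hw
    obtain ⟨hq1, hq2⟩ := Finset.mem_product.1 (Finset.mem_filter.1 hq).1
    obtain ⟨hfin, hB⟩ := Ys_le (ε := ε) hTR hC₃1 hC₃ hR2 hRb (Hi (d - 2) V) hl hwF
      (Finset.mem_product.2 ⟨PB_mono hRW hq1, PB_mono hRW hq2⟩)
    have h3 := Gt_le (H := H) (Λ := (cL : ℝ) ^ m * ((H : ℝ) / V) ^ m) hF hl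
      (mul_nonneg (pow_nonneg hcL0 _) (pow_nonneg (div_nonneg hHr.le hVr.le) _)) hfin hB ?_
    · refine h3.trans (le_of_eq ?_)
      rw [hc]
      ring
    · intro y hy
      rw [hcL]
      exact lam_le hPAK hm (prim_mulVec (PI_PM hl) hy.1.1) hV hVH hy.2.2.1)
  have h4 : ∑ w ∈ FF 2 e W with w ≠ 0, (1 : ℝ) ≤ 3 ^ NN 2 e * (W : ℝ) ^ NN 2 e := by
    rw [Finset.sum_const, nsmul_eq_mul, mul_one]
    have h5 : #((FF 2 e W).filter fun w => w ≠ 0) ≤ (3 * W) ^ NN 2 e := by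
      refine (Finset.card_le_card (Finset.filter_subset _ _)).trans ?_
      rw [card_FF]
      exact Nat.pow_le_pow_left (by omega) _
    rw [← mul_pow]
    exact_mod_cast h5
  have h5 := Prs_le (d := d) (by omega) hR1
  have hc0 : 0 ≤ c := by
    rw [hc]
    exact mul_nonneg (mul_nonneg (by linarith) (Real.rpow_nonneg (Nat.cast_nonneg _) _))
      (mul_nonneg (pow_nonneg hcL0 _) (pow_nonneg (div_nonneg hHr.le hVr.le) _))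
  have h6 : (#(LL K) : ℝ) * (#(Prs d (cR * H)) * (c * ∑ w ∈ FF 2 e W with w ≠ 0, (1 : ℝ))) ≤
      #(LL K) * (((3 * cR : ℝ) ^ (2 * d + 1) *
        (H : ℝ) ^ (2 * d + 1)) * (c * (3 ^ NN 2 e * (W : ℝ) ^ NN 2 e))) := by
    refine mul_le_mul_of_nonneg_left (mul_le_mul h5 (mul_le_mul_of_nonneg_left h4 hc0) ?_ ?_) hLK
    · refine mul_nonneg hc0 (Finset.sum_nonneg fun w _ => zero_le_one)
    · exact mul_nonneg (pow_nonneg (by positivity) _) (pow_nonneg hHr.le _)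
  refine (h3.trans h6).trans ?_
  have h7 : (#(LL K) : ℝ) * (((3 * cR : ℝ) ^ (2 * d + 1) *
        (H : ℝ) ^ (2 * d + 1)) * (c * (3 ^ NN 2 e * (W : ℝ) ^ NN 2 e))) =
      A * (((H : ℝ) * W) ^ ε * ((W : ℝ) ^ NN 2 e *
        (((H : ℝ) / V) ^ m * (H : ℝ) ^ (2 * d + 1)))) := by
    rw [hA, hc, mul_assoc cR H W, Nat.cast_mul cR, Nat.cast_mul H W,
      Real.mul_rpow hcR0 (mul_nonneg hHr.le hWr.le)]
    ring
  rw [h7, ← hm]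
  refine mul_le_mul_of_nonneg_right (by linarith) ?_
  exact mul_nonneg (Real.rpow_nonneg (mul_nonneg hHr.le hWr.le) _) (mul_nonneg
    (pow_nonneg hWr.le _) (mul_nonneg (pow_nonneg (div_nonneg hHr.le hVr.le) _)
    (pow_nonneg hHr.le _)))

end Pool.Agent.H31.PC
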